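import Pool.Agent.Run7.h225.HG.Tup

/-!
# Even polynomials (from `Run7/h225/HG/JA.lean`)
-/

set_option autoImplicit false

open Matrix PowerSeries
open Pool.Agent.Y119.HY (QD)
open Run7.h893.HO

namespace Pool.Agent.Run7.h696.CF

/-- even polynomials -/
theorem QDeven {n : ℕ} {Q : Polynomial ℚ} (hQ : QG n Q) (h : Q.comp (-Polynomial.X) = Q) : QD n Q := by
  have h1 : ∀ j, Q.coeff j = (-1) ^ j * Q.coeff j := by
    intro j
    have e : Q.comp (-Polynomial.X) = Q.comp (Polynomial.C (-1) * Polynomial.X) := by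
      rw [map_neg, map_one, neg_one_mul]
    have h2 : (Q.comp (-Polynomial.X)).coeff j = Q.coeff j := by rw [h]
    rw [e, Polynomial.comp_C_mul_X_coeff] at h2
    rw [mul_comm]
    exact h2.symm
  have h3 : ∀ j, Odd j → Q.coeff j = 0 := by
    intro j hj
    have h4 := h1 j
    rw [hj.neg_one_pow] at h4
    linarith
  refine ⟨hQ.two, ?_, hQ.monic, hQ.deg, h3, hQ.ne⟩
  by_contra hn
  have h4 := h3 n (Nat.not_even_iff_odd.1 hn)
  have h5 := hQ.monic.coeff_natDegree
  rw [hQ.deg, h4] at h5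
  exact zero_ne_one h5

theorem evenQD {n : ℕ} {Q : Polynomial ℚ} (h : QD n Q) : Q.comp (-Polynomial.X) = Q := by
  have e : Q.comp (-Polynomial.X) = Q.comp (Polynomial.C (-1) * Polynomial.X) := by
    rw [map_neg, map_one, neg_one_mul]
  rw [e]
  ext j
  rw [Polynomial.comp_C_mul_X_coeff]
  rcases Nat.even_or_odd j with hj | hj
  · rw [hj.neg_one_pow, mul_one]
  · rw [h.sym j hj, zero_mul]

end Pool.Agent.Run7.h696.CF
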