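import Pool.Agent.Run7.h696.CF.Iface3

/-!
# Interface of the second part of the project CF, continued: fibres on both sides
-/

set_option autoImplicit false

open PowerSeries Matrix
open Pool.Agent.Y113 hiding Bm
open Pool.Agent.Y120.GF Pool.Agent.Y120.GH Pool.Agent.Y119.HZ
open Pool.Agent.Y119.HY (cm E Hf Yf Vr ev)
open Pool.Agent.Run7.h225.HG

namespace Pool.Agent.Run7.h696.CF

/-- **MOBV.** The values of `S_MOBC` at all complex points. The double series converges absolutely, as in `S_MOBC`. -/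
def S_MOBV : Prop := ∀ (n : ℕ) (N : Matrix (Fin n) (Fin n) ℚ) (H : Matrix (Fin n) (Fin n) ℚ⟦X⟧),
  (∀ t : ℝ, 1 < t → ∀ i j, Cv t (H i j)) → ∀ (g : ℕ) (c : ℚ), 0 < c →
  ∀ z : ℂ, ((g : ℝ) + (c : ℝ)) * ‖z‖ < 1 → Hf (Hcg (mbH g c N H)) z =
    Hf (Hcg H) ((c : ℂ) * z / (1 - g * z)) * E (cm N) (-Complex.log (1 - (g : ℂ) * z))

/-- **NEG.** Reflection `z ↦ -z` of a system (see `Run7/h696/CF/RESN.lean` for the rescaling of hypergeometric systems; here
`T` and `A` are replaced by `T(-z)` and `A(-z)`). -/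
def S_NEG : Prop := ∀ (L : ℝ) (n : ℕ) (N : Matrix (Fin n) (Fin n) ℚ) (H W : Matrix (Fin n) (Fin n) ℚ⟦X⟧), SysL L n N H W →
  SysL L n N (rs (-1) H) (rs (-1) W)

end Pool.Agent.Run7.h696.CF
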