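import Pool.Agent.Run7.h639.CF.NEG
import Pool.Agent.Run7.h639.CF.MOBA
import Pool.Agent.Run7.h639.CF.MOBV

/-!
# Rescaling of general systems; the systems of the fibres `c z / (1 - g z)` for rational `g` and `c`
-/

set_option autoImplicit false

open PowerSeries Matrix
open Pool.Agent.Y113 hiding Bm
open Pool.Agent.Y120.GF Pool.Agent.Y120.GH Pool.Agent.Y119.HZ
open Pool.Agent.Y119.HY (cm E Hf Yf Vr)
open Pool.Agent.Run7.h225.HG

namespace Pool.Agent.Run7.h696.CF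

/-- `P(κ X) den(κ)^D` -/
noncomputable def rp (κ : ℚ) (D : ℕ) (P : Polynomial ℤ) : Polynomial ℤ :=
  ∑ k ∈ Finset.range (D + 1), Polynomial.monomial k (P.coeff k * κ.num ^ k * (κ.den : ℤ) ^ (D - k))

lemma rp_coeff (κ : ℚ) (D : ℕ) (P : Polynomial ℤ) (m : ℕ) : (rp κ D P).coeff m =
    if m < D + 1 then P.coeff m * κ.num ^ m * (κ.den : ℤ) ^ (D - m) else 0 := by
  unfold rp
  rw [Polynomial.finsetSum_coeff]
  simp only [Polynomial.coeff_monomial]
  by_cases h : m < D + 1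
  · rw [if_pos h, Finset.sum_eq_single m]
    · rw [if_pos rfl]
    · intro b _ hb
      rw [if_neg hb]
    · intro h'
      exact absurd (Finset.mem_range.2 h) h'
  · rw [if_neg h]
    refine Finset.sum_eq_zero fun b hb => ?_
    rw [Finset.mem_range] at hb
    rw [if_neg (by omega)]

lemma coeff_ps' (P : Polynomial ℤ) (m : ℕ) : coeff m (ps P) = (P.coeff m : ℚ) := by
  unfold ps
  rw [Polynomial.coeff_coe, Polynomial.coeff_map]
  rfl

lemma ps_rp (κ : ℚ) {D : ℕ} {P : Polynomial ℤ} (hP : P.natDegree ≤ D) :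
    ps (rp κ D P) = C ((κ.den : ℚ) ^ D) * PowerSeries.rescale κ (ps P) := by
  ext m
  rw [coeff_ps', coeff_C_mul, coeff_rescale, coeff_ps', rp_coeff]
  by_cases h : m < D + 1
  · rw [if_pos h]
    have e1 : (κ.den : ℚ) ^ D = (κ.den : ℚ) ^ m * (κ.den : ℚ) ^ (D - m) := by
      rw [← pow_add]; congr 1; omega
    have e2 : (κ.den : ℚ) ^ m * κ ^ m = (κ.num : ℚ) ^ m := by
      rw [← mul_pow, mul_comm, Rat.mul_den_eq_num]
    push_cast
    rw [e1, ← e2]
    ring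
  · rw [if_neg h, Polynomial.coeff_eq_zero_of_natDegree_lt (by omega)]
    simp

lemma rp_ne {κ : ℚ} (hκ : κ ≠ 0) {D : ℕ} {P : Polynomial ℤ} (hP : P.natDegree ≤ D) (h0 : P ≠ 0) : rp κ D P ≠ 0 := by
  intro h1
  apply h0
  ext m
  rw [Polynomial.coeff_zero]
  by_cases h : m < D + 1
  · have h2 := rp_coeff κ D P m
    rw [h1, if_pos h, Polynomial.coeff_zero] at h2
    have h3 : κ.num ^ m ≠ 0 := pow_ne_zero _ (Rat.num_ne_zero.2 hκ)
    have h4 : (κ.den : ℤ) ^ (D - m) ≠ 0 := pow_ne_zero _ (by exact_mod_cast κ.den_ne_zero)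
    rcases mul_eq_zero.1 h2.symm with h5 | h5
    · rcases mul_eq_zero.1 h5 with h6 | h6
      · exact h6
      · exact absurd h6 h3
    · exact absurd h5 h4
  · exact Polynomial.coeff_eq_zero_of_natDegree_lt (by omega)

lemma Cv_rs {κ : ℚ} (hκ : κ ≠ 0) {t : ℝ} {f : ℚ⟦X⟧} (h : Cv (t / |(κ : ℝ)|) f) : Cv t (PowerSeries.rescale κ f) := by
  unfold Cv at h ⊢
  refine h.congr fun m => ?_
  rw [coeff_rescale]
  push_cast
  rw [abs_mul, abs_pow]
  have h1 : |(κ : ℝ)| ≠ 0 := by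
    rw [abs_ne_zero]
    exact_mod_cast hκ
  rw [one_div_div, div_eq_mul_one_div, mul_pow]
  ring

/-- **rescaling** -/
theorem sysL_rs {L : ℝ} {n : ℕ} {N : Matrix (Fin n) (Fin n) ℚ} {H W : Matrix (Fin n) (Fin n) ℚ⟦X⟧} (h : SysL L n N H W)
    {κ : ℚ} (hκ : κ ≠ 0) : SysL (|(κ : ℝ)| * L) n N (rs κ H) (rs κ W) := by
  obtain ⟨T, A, hT, hA⟩ := h.ode
  have hκ' : 0 < |(κ : ℝ)| := by
    rw [abs_pos]
    exact_mod_cast hκ
  refine ⟨h.int, h.nil, ?_, ?_, ?_, ?_, ?_, ?_⟩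
  · intro i j
    unfold rs
    rw [Matrix.map_apply, coeff_rescale, pow_zero, one_mul, h.zero]
  · set D : ℕ := T.natDegree + ∑ i, ∑ j, (A i j).natDegree with hD
    have hAD : ∀ i j, (A i j).natDegree ≤ D := by
      intro i j
      have h1 : (A i j).natDegree ≤ ∑ j, (A i j).natDegree :=
        Finset.single_le_sum (f := fun j => (A i j).natDegree) (fun _ _ => Nat.zero_le _) (Finset.mem_univ j)
      have h2 : ∑ j, (A i j).natDegree ≤ ∑ i, ∑ j, (A i j).natDegree :=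
        Finset.single_le_sum (f := fun i => ∑ j, (A i j).natDegree) (fun _ _ => Nat.zero_le _) (Finset.mem_univ i)
      omega
    refine ⟨rp κ D T, fun i j => rp κ D (A i j), rp_ne hκ (by omega) hT, ?_⟩
    intro i j
    have h1 := congrArg (fun g => C ((κ.den : ℚ) ^ D) * PowerSeries.rescale κ g) (hA i j)
    simp only [map_mul (PowerSeries.rescale κ), map_add (PowerSeries.rescale κ), map_sum (PowerSeries.rescale κ)] at h1
    rw [← map_mul (PowerSeries.rescale κ) X, Pool.Agent.Run7.h882.CF.rescale_X_deriv, ← mul_assoc,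
      ← ps_rp κ (by omega : T.natDegree ≤ D), Finset.mul_sum] at h1
    simp only [← mul_assoc, ← ps_rp κ (hAD i _)] at h1
    simp only [Pool.Agent.Run7.h882.CF.rescale_C'] at h1
    unfold rs
    simp only [Matrix.map_apply]
    exact h1
  · unfold rs
    rw [← Matrix.map_mul, h.inv, Matrix.map_one _ (map_zero _) (map_one _)]
  · intro i j
    exact Pool.Agent.Run7.h639.CF.SDc_rescale' (h.sH i j)
  · intro i j
    exact Pool.Agent.Run7.h639.CF.SDc_rescale' (h.sW i j)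
  · intro t ht i j
    refine Cv_rs hκ (h.cv _ ?_ i j)
    rw [lt_div_iff₀ hκ']
    linarith

lemma SysL.mono {L L' : ℝ} {n : ℕ} {N : Matrix (Fin n) (Fin n) ℚ} {H W : Matrix (Fin n) (Fin n) ℚ⟦X⟧}
    (h : SysL L n N H W) (hL : L ≤ L') : SysL L' n N H W :=
  ⟨h.int, h.nil, h.zero, h.ode, h.inv, h.sH, h.sW, fun t ht => h.cv t (lt_of_le_of_lt hL ht)⟩

/-- the Moebius pull-back of a hypergeometric system -/
theorem sysL_mb {n : ℕ} {N B : Matrix (Fin n) (Fin n) ℚ} {H W : Matrix (Fin n) (Fin n) ℚ⟦X⟧} (h : Sys n N B H W)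
    (g : ℕ) {c : ℚ} (hc : 0 < c) : SysL (g + (c : ℝ)) n N (mbH g c N H) (mbW g c N W) := by
  obtain ⟨h1, h2, h3⟩ := Pool.Agent.Run7.h639.CF.p_MOBA n N B H W h g c hc
  obtain ⟨N', hN'⟩ := h.int
  refine ⟨⟨N', fun i j => (hN' i j).symm⟩, h.nil, h1, h3, h2,
    fun i j => (Pool.Agent.Run7.h639.CF.p_MOBS n N H h.sH g c hc i j).1,
    fun i j => (Pool.Agent.Run7.h639.CF.p_MOBS n N W h.sW g c hc i j).2, ?_⟩
  exact (Pool.Agent.Run7.h639.CF.p_MOBC n N H (fun t ht => SYS2.Cv_H h ht) g c hc).1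

/-- the sign of `c` -/
def sg (c : ℚ) : ℚ := if 0 < c then 1 else -1

lemma sg_abs {c : ℚ} (hc : c ≠ 0) : sg c * |c| = c := by
  unfold sg
  split_ifs with h
  · rw [one_mul, abs_of_pos h]
  · rw [abs_of_neg (lt_of_le_of_ne (not_lt.1 h) hc)]
    ring

/-- the holomorphic part at the fibre `c z / (1 - g z)`, `c g ≥ 0` -/
noncomputable def HH {n : ℕ} (g c : ℚ) (N : Matrix (Fin n) (Fin n) ℚ) (H : Matrix (Fin n) (Fin n) ℚ⟦X⟧) :
    Matrix (Fin n) (Fin n) ℚ⟦X⟧ := rs (sg c / g.den) (mbH g.num.natAbs (|c| * g.den) N H)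

/-- the inverse matrix -/
noncomputable def WW {n : ℕ} (g c : ℚ) (N : Matrix (Fin n) (Fin n) ℚ) (W : Matrix (Fin n) (Fin n) ℚ⟦X⟧) :
    Matrix (Fin n) (Fin n) ℚ⟦X⟧ := rs (sg c / g.den) (mbW g.num.natAbs (|c| * g.den) N W)

lemma sg_ne (c : ℚ) : sg c ≠ 0 := by
  unfold sg
  split_ifs <;> norm_num

lemma sg_abs1 (c : ℚ) : |sg c| = 1 := by
  unfold sg
  split_ifs <;> norm_num

lemma k_ne (g c : ℚ) : sg c / g.den ≠ 0 := div_ne_zero (sg_ne c) (by exact_mod_cast g.den_ne_zero)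

lemma g_eq {g c : ℚ} (hc : c ≠ 0) (hgc : 0 ≤ c * g) : (g.num.natAbs : ℚ) * (sg c / g.den) = g := by
  have hd : (g.den : ℚ) ≠ 0 := by exact_mod_cast g.den_ne_zero
  have h1 : ((g.num.natAbs : ℕ) : ℚ) = |(g.num : ℚ)| := by
    rw [Nat.cast_natAbs, Int.cast_abs]
  have h2 : (g.num : ℚ) = g * g.den := (Rat.mul_den_eq_num g).symm
  have h3 : sg c * |g| = g := by
    unfold sg
    split_ifs with h
    · have h4 : 0 ≤ g := by
        by_contra h5
        push Not at h5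
        nlinarith
      rw [one_mul, abs_of_nonneg h4]
    · have h6 : c < 0 := lt_of_le_of_ne (not_lt.1 h) hc
      have h4 : g ≤ 0 := by
        by_contra h5
        push Not at h5
        nlinarith
      rw [abs_of_nonpos h4]
      ring
  rw [h1, h2, abs_mul, abs_of_pos (by positivity : (0 : ℚ) < g.den)]
  field_simp
  rw [mul_comm]
  exact h3

theorem sysL_HH {n : ℕ} {N B : Matrix (Fin n) (Fin n) ℚ} {H W : Matrix (Fin n) (Fin n) ℚ⟦X⟧} (h : Sys n N B H W)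
    {g c : ℚ} (hc : c ≠ 0) {L : ℝ} (hL : |(c : ℝ)| + |(g : ℝ)| ≤ L) : SysL L n N (HH g c N H) (WW g c N W) := by
  have hd : (0 : ℚ) < g.den := by exact_mod_cast g.den_pos
  have hc' : 0 < |c| * (g.den : ℚ) := mul_pos (abs_pos.2 hc) hd
  refine (sysL_rs (sysL_mb h g.num.natAbs hc') (k_ne g c)).mono (le_trans (le_of_eq ?_) hL)
  have e : (|sg c / g.den| * ((g.num.natAbs : ℚ) + |c| * g.den) : ℚ) = |c| + |g| := by
    have h1 : ((g.num.natAbs : ℕ) : ℚ) = |(g.num : ℚ)| := by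
      rw [Nat.cast_natAbs, Int.cast_abs]
    have h2 : (g.num : ℚ) = g * g.den := (Rat.mul_den_eq_num g).symm
    rw [h1, h2, abs_mul, abs_div, sg_abs1, abs_of_pos hd]
    field_simp
    ring
  exact_mod_cast e

/-- the values -/
theorem Hf_HH {n : ℕ} {N B : Matrix (Fin n) (Fin n) ℚ} {H W : Matrix (Fin n) (Fin n) ℚ⟦X⟧} (h : Sys n N B H W)
    {g c : ℚ} (hc : c ≠ 0) (hgc : 0 ≤ c * g) {z : ℂ} (hz : (|(c : ℝ)| + |(g : ℝ)|) * ‖z‖ < 1) :
    Hf (Hcg (HH g c N H)) z = Hf (Hcg H) ((c : ℂ) * z / (1 - (g : ℂ) * z)) *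
      E (cm N) (-Complex.log (1 - (g : ℂ) * z)) := by
  have hd : (0 : ℚ) < g.den := by exact_mod_cast g.den_pos
  have hd' : (g.den : ℂ) ≠ 0 := by exact_mod_cast g.den_ne_zero
  have hc' : 0 < |c| * (g.den : ℚ) := mul_pos (abs_pos.2 hc) hd
  unfold HH
  have hrs : Hf (Hcg (rs (sg c / g.den) (mbH g.num.natAbs (|c| * g.den) N H))) z =
      Hf (Hcg (mbH g.num.natAbs (|c| * g.den) N H)) (((sg c / g.den : ℚ) : ℂ) * z) := by
    ext i j
    unfold Hf
    rw [Matrix.of_apply, Matrix.of_apply]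
    unfold Pool.Agent.Y119.HY.ps
    refine tsum_congr fun k => ?_
    show Hcg (rs _ _) k i j * z ^ k = Hcg _ k i j * (((sg c / g.den : ℚ) : ℂ) * z) ^ k
    have h1 : Hcg (rs (sg c / g.den) (mbH g.num.natAbs (|c| * g.den) N H)) k i j =
        ((sg c / g.den : ℚ) : ℂ) ^ k * Hcg (mbH g.num.natAbs (|c| * g.den) N H) k i j := by
      unfold Hcg rs
      rw [Pool.Agent.Y119.HY.cm_apply, Pool.Agent.Y119.HY.cm_apply]
      unfold Pool.Agent.Y119.HZ.cf
      rw [Matrix.map_apply, Matrix.map_apply, Matrix.map_apply, coeff_rescale]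
      push_cast
      rfl
    rw [h1, mul_pow]
    ring
  rw [hrs, Pool.Agent.Run7.h639.CF.p_MOBV n N H (fun t ht => SYS2.Cv_H h ht) g.num.natAbs _ hc']
  · have e1 : ((g.num.natAbs : ℕ) : ℂ) * (((sg c / g.den : ℚ) : ℂ) * z) = (g : ℂ) * z := by
      have := g_eq hc hgc
      have h2 : (((g.num.natAbs : ℕ) : ℂ)) * ((sg c / g.den : ℚ) : ℂ) = (g : ℂ) := by exact_mod_cast this
      rw [← mul_assoc, h2]
    have e2 : ((|c| * g.den : ℚ) : ℂ) * (((sg c / g.den : ℚ) : ℂ) * z) = (c : ℂ) * z := by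
      have h3 : (|c| * g.den : ℚ) * (sg c / g.den) = c := by
        have := sg_abs hc
        field_simp
        rw [mul_comm]
        exact this
      have h4 : ((|c| * g.den : ℚ) : ℂ) * ((sg c / g.den : ℚ) : ℂ) = (c : ℂ) := by exact_mod_cast h3
      rw [← mul_assoc, h4]
    rw [e1, e2]
  · rw [norm_mul]
    have e : (|sg c / g.den| * ((g.num.natAbs : ℚ) + |c| * g.den) : ℚ) = |c| + |g| := by
      have h1 : ((g.num.natAbs : ℕ) : ℚ) = |(g.num : ℚ)| := by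
        rw [Nat.cast_natAbs, Int.cast_abs]
      have h2 : (g.num : ℚ) = g * g.den := (Rat.mul_den_eq_num g).symm
      rw [h1, h2, abs_mul, abs_div, sg_abs1, abs_of_pos hd]
      field_simp
      ring
    have e' : ((g.num.natAbs : ℕ) : ℝ) + ((|c| * g.den : ℚ) : ℝ) = (((g.num.natAbs : ℚ) + |c| * g.den : ℚ) : ℝ) := by
      push_cast
      ring
    have h5 : ‖((sg c / g.den : ℚ) : ℂ)‖ = ((|sg c / g.den| : ℚ) : ℝ) := by
      rw [← Complex.ofReal_ratCast, Complex.norm_real, Real.norm_eq_abs]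
      push_cast
      rfl
    have h6 : (((g.num.natAbs : ℚ) + |c| * g.den : ℚ) : ℝ) * ((|sg c / g.den| : ℚ) : ℝ) = |(c : ℝ)| + |(g : ℝ)| := by
      rw [mul_comm]
      exact_mod_cast e
    rw [e', h5, ← mul_assoc, h6]
    exact hz

end Pool.Agent.Run7.h696.CF
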