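import Mathlib

/-!
# Counting
-/

set_option autoImplicit false

namespace Pool.Agent.Run7.h696.CF

/-- the points of a box with a small coordinate -/
theorem small_card {k : ℕ} (x : Fin k → ℕ) (N L : ℕ) (S : Finset (Fin k → ℕ))
    (h : ∀ t ∈ S, (∀ i, x i < t i ∧ t i ≤ x i + N) ∧ ∃ i, t i ≤ L) : S.card ≤ k * (L * N ^ (k - 1)) := by
  classical
  set F : Fin k → Finset (Fin k → ℕ) := fun i => Fintype.piFinset fun i' =>
    if i' = i then Finset.Icc 1 L else Finset.Ioc (x i') (x i' + N) with hF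
  have h1 : S ⊆ Finset.univ.biUnion F := by
    intro t ht
    obtain ⟨h2, i, hi⟩ := h t ht
    rw [Finset.mem_biUnion]
    refine ⟨i, Finset.mem_univ _, ?_⟩
    rw [hF, Fintype.mem_piFinset]
    intro i'
    by_cases h3 : i' = i
    · subst h3
      rw [if_pos rfl, Finset.mem_Icc]
      exact ⟨by have := (h2 i').1; omega, hi⟩
    · rw [if_neg h3, Finset.mem_Ioc]
      exact h2 i'
  have hc : ∀ i, (F i).card = L * N ^ (k - 1) := by
    intro i
    rw [hF]
    simp only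
    rw [Fintype.card_piFinset, ← Finset.prod_erase_mul _ _ (Finset.mem_univ i)]
    rw [if_pos rfl, Nat.card_Icc, Nat.add_sub_cancel, mul_comm]
    congr 1
    have h4 : ∀ i' ∈ Finset.univ.erase i, (if i' = i then Finset.Icc 1 L else Finset.Ioc (x i') (x i' + N)).card = N := by
      intro i' hi'
      rw [if_neg (Finset.ne_of_mem_erase hi'), Nat.card_Ioc]
      omega
    rw [Finset.prod_congr rfl h4, Finset.prod_const, Finset.card_erase_of_mem (Finset.mem_univ _), Finset.card_univ,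
      Fintype.card_fin]
  calc S.card ≤ (Finset.univ.biUnion F).card := Finset.card_le_card h1
    _ ≤ ∑ i, (F i).card := Finset.card_biUnion_le
    _ = k * (L * N ^ (k - 1)) := by
      simp only [hc]
      rw [Finset.sum_const, Finset.card_univ, Fintype.card_fin, smul_eq_mul]

/-- comparison of the bounds for two boxes -/
theorem bound_cmp {k : ℕ} {x x' : Fin k → ℕ} {N : ℕ} {c : ℝ} (hc : 0 < c) (hN : 1 ≤ N)
    (h : ∀ i, ((x i : ℝ) + N) / 2 ≤ (x' i : ℝ) + N) :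
    ∑ i, (1 + (N : ℝ) / ((x' i : ℝ) + N) ^ c) ≤ (2 : ℝ) ^ c * ∑ i, (1 + (N : ℝ) / ((x i : ℝ) + N) ^ c) := by
  rw [Finset.mul_sum]
  refine Finset.sum_le_sum fun i _ => ?_
  have hN' : (1 : ℝ) ≤ N := by exact_mod_cast hN
  have hx0 : (0 : ℝ) ≤ x i := Nat.cast_nonneg _
  have h0 : 0 < (x i : ℝ) + N := by linarith
  have h1 : (1 : ℝ) ≤ (2 : ℝ) ^ c := Real.one_le_rpow (by norm_num) hc.le
  have h2 : ((x i : ℝ) + N) ^ c / (2 : ℝ) ^ c ≤ ((x' i : ℝ) + N) ^ c := by
    rw [← Real.div_rpow h0.le (by norm_num)]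
    exact Real.rpow_le_rpow (by positivity) (h i) hc.le
  have h3 : 0 < ((x i : ℝ) + N) ^ c / (2 : ℝ) ^ c := by positivity
  have h4 : (N : ℝ) / ((x' i : ℝ) + N) ^ c ≤ N / (((x i : ℝ) + N) ^ c / (2 : ℝ) ^ c) :=
    div_le_div_of_nonneg_left (by positivity) h3 h2
  have h5 : (N : ℝ) / (((x i : ℝ) + N) ^ c / (2 : ℝ) ^ c) = (2 : ℝ) ^ c * (N / ((x i : ℝ) + N) ^ c) := by
    rw [div_div_eq_mul_div]
    ring
  rw [mul_add, mul_one, ← h5]
  linarith

theorem bound_le {k : ℕ} {x : Fin k → ℕ} {N : ℕ} {c : ℝ} :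
    (k : ℝ) ≤ ∑ i, (1 + (N : ℝ) / ((x i : ℝ) + N) ^ c) := by
  calc (k : ℝ) = ∑ _i : Fin k, (1 : ℝ) := by
        rw [Finset.sum_const, Finset.card_univ, Fintype.card_fin, nsmul_eq_mul, mul_one]
    _ ≤ _ := Finset.sum_le_sum fun i _ => by
      have : (0 : ℝ) ≤ (N : ℝ) / ((x i : ℝ) + N) ^ c := by positivity
      linarith

end Pool.Agent.Run7.h696.CF
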