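import Pool.Agent.Run7.h696.CF.FinB
import Pool.Agent.Run7.h696.CF.Cnt

/-!
# The period matrices at the fibres `1 / (a t + b)`
-/

set_option autoImplicit false

open Matrix
open Pool.Agent.Y119.HZ
open Pool.Agent.Y119.HY (Am Jm Bm Hq cm E Hf Hc Yf Ac_nil E_add)
open Run7.h893.HO
open Pool.Agent.Run7.h225.HG

namespace Pool.Agent.Run7.h696.CF

/-- the parameters -/
lemma par_gc {a b : ℚ} {τ : ℤ} (hτ : a * τ + b ≤ 0) : 0 ≤ (1 / a) * (-b / a - τ) := by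
  by_cases ha : a = 0
  · rw [ha]; simp
  have h1 : (1 / a) * (-b / a - τ) = -(a * τ + b) / a ^ 2 := by
    field_simp
    ring
  rw [h1]
  exact div_nonneg (by linarith) (sq_nonneg _)

lemma par_s {a b : ℚ} (τ : ℤ) : 1 / a + (-b / a - τ) = (1 - b) / a - τ := by ring

/-- the linear polynomial -/
lemma lin_eq {a b : ℚ} (ha : a ≠ 0) {τ : ℤ} {t t' : ℕ} (htt : (t : ℤ) = t' + τ) :
    a * t + b = a * (t' - (-b / a - τ)) := by
  have h1 : (t : ℚ) = t' + τ := by exact_mod_cast htt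
  rw [h1]
  field_simp
  ring

lemma big_abs {a b : ℚ} (ha : a ≠ 0) {τ : ℤ} {t t' : ℕ} (htt : (t : ℤ) = t' + τ)
    (ht' : |(1 / a : ℚ)| + |(-b / a - τ : ℚ)| < t') : 1 < |a * t + b| := by
  rw [lin_eq ha htt, abs_mul]
  have h1 : 0 < |a| := abs_pos.2 ha
  have h2 : |(1 / a : ℚ)| < |(t' : ℚ) - (-b / a - τ)| := by
    have h3 := abs_sub_abs_le_abs_sub (t' : ℚ) (-b / a - τ)
    have h4 : |(t' : ℚ)| = t' := abs_of_nonneg (Nat.cast_nonneg _)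
    rw [h4] at h3
    linarith
  rw [abs_div, abs_one, div_lt_iff₀ h1] at h2
  linarith [mul_comm |a| |(t' : ℚ) - (-b / a - τ)|]

/-- the period matrix at `1 / (a t + b)` -/
theorem Y_lin {n : ℕ} {Q : Polynomial ℚ} {a b : ℚ} (ha : a ≠ 0) {τ : ℤ} {t t' : ℕ} (htt : (t : ℤ) = t' + τ)
    (ht' : |(1 / a : ℚ)| + |(-b / a - τ : ℚ)| < t') :
    Hf (Hc n Q) (1 / ((a : ℂ) * t + b)) * E (cm (Am n)) (Complex.log (1 / ((a : ℂ) * t + b))) =
      Yb n Q (-b / a - τ) (1 / a) t' * E (cm (Am n)) (Complex.log ((1 / a : ℚ) : ℂ)) := by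
  obtain ⟨g, hg⟩ : ∃ g : ℚ, g = -b / a - τ := ⟨_, rfl⟩
  obtain ⟨c, hc⟩ : ∃ c : ℚ, c = 1 / a := ⟨_, rfl⟩
  rw [← hg, ← hc] at ht' ⊢
  have hcn : c ≠ 0 := by rw [hc]; exact one_div_ne_zero ha
  have ht0 : (0 : ℚ) < t' := lt_of_le_of_lt (by positivity) ht'
  have htR : (0 : ℝ) < t' := by exact_mod_cast ht0
  have hgt : |(g : ℝ)| < t' := by
    have h1 : |g| < t' := lt_of_le_of_lt (le_add_of_nonneg_left (abs_nonneg c)) ht'
    exact_mod_cast h1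
  obtain ⟨z, hz⟩ : ∃ z : ℝ, z = 1 / (t' : ℝ) := ⟨_, rfl⟩
  have hz0 : 0 < z := by rw [hz]; positivity
  have hgz : 0 < 1 - (g : ℝ) * z := by
    have h1 : (g : ℝ) * z ≤ |(g : ℝ)| * z := mul_le_mul_of_nonneg_right (le_abs_self _) hz0.le
    have h2 : |(g : ℝ)| * z < 1 := by
      rw [hz, mul_one_div, div_lt_one htR]
      exact hgt
    linarith
  have e1 : (1 / ((a : ℂ) * t + b)) = ((z / (1 - (g : ℝ) * z) : ℝ) : ℂ) * (c : ℂ) := by
    have h1 : a * t + b = a * (t' - g) := by rw [hg]; exact lin_eq ha htt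
    have h2 : ((a : ℂ) * t + b) = (a : ℂ) * ((t' : ℂ) - g) := by exact_mod_cast congrArg (fun q : ℚ => (q : ℂ)) h1
    have h3 : ((z / (1 - (g : ℝ) * z) : ℝ)) = 1 / ((t' : ℝ) - g) := by
      rw [hz]
      field_simp
    rw [h2, h3, hc]
    push_cast
    rw [one_div_mul_one_div, mul_comm]
  have e2 : Complex.log (1 / ((a : ℂ) * t + b)) =
      -Complex.log (1 - ((g : ℝ) : ℂ) * ((z : ℝ) : ℂ)) + -((Real.log t' : ℝ) : ℂ) + Complex.log (c : ℂ) := by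
    rw [e1, Complex.log_ofReal_mul (div_pos hz0 hgz) (by exact_mod_cast hcn), Real.log_div hz0.ne' hgz.ne']
    have h1 : (1 - ((g : ℝ) : ℂ) * ((z : ℝ) : ℂ)) = ((1 - (g : ℝ) * z : ℝ) : ℂ) := by push_cast; rfl
    rw [h1, ← Complex.ofReal_log hgz.le, hz, one_div, Real.log_inv]
    push_cast
    ring
  have e3 : (1 / ((a : ℂ) * t + b)) = ((c : ℝ) : ℂ) * ((z : ℝ) : ℂ) / (1 - ((g : ℝ) : ℂ) * ((z : ℝ) : ℂ)) := by
    rw [e1]
    push_cast
    ring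
  unfold Yb Fj
  rw [← hz, e2, E_add Ac_nil, E_add Ac_nil, ← e3]
  simp only [Matrix.mul_assoc]

end Pool.Agent.Run7.h696.CF
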