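import Pool.Agent.Run7.h696.CF.Fun
import Pool.Agent.Run7.h696.CF.RESN
import Pool.Agent.Run7.h882.CF.BLKG
import Pool.Agent.Run7.h160.CF.TUPG
import Pool.Agent.Run7.h416.CF.EXT
import Pool.Agent.Run7.h225.HG.ASY

/-!
# The theorem on tuples for proportional fibres
-/

set_option autoImplicit false

open Matrix PowerSeries Filter Topology
open Pool.Agent.Y113 hiding Bm
open Pool.Agent.Y119.HZ
open Pool.Agent.Y119.HY (Am Jm Bm Hq cm E Hf Hc Yf Gal Rel Sol PG Lens cm_mul cm_add ec uc Ac_ec Ac_last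
  cm_zero cm_one cm_transpose cm_apply Ac_nil mem_Lens symm_Lens Jm_rel conj_E E_mul_neg QD om om_eq tv cm_Bm Jc_skew
  Jc_det Jc_rel sp_all connect tv_skew real_mem_Lens E_isom E_zero E_add ev Vr)
open Run7.h893.HO
open Pool.Agent.Run7.h225.HG

namespace Pool.Agent.Run7.h696.CF

/-- the coefficients of a rescaled matrix -/
lemma Hcg_rs {n : ℕ} (c : ℚ) (H : Matrix (Fin n) (Fin n) ℚ⟦X⟧) (k : ℕ) :
    Hcg (rs c H) k = ((c : ℂ) ^ k) • Hcg H k := by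
  ext i j
  unfold Hcg rs
  rw [Matrix.smul_apply, cm_apply, cm_apply]
  unfold Pool.Agent.Y119.HZ.cf
  rw [Matrix.map_apply, Matrix.map_apply, Matrix.map_apply, coeff_rescale, smul_eq_mul]
  push_cast
  rfl

lemma Hf_rs {n : ℕ} (c : ℚ) (H : Matrix (Fin n) (Fin n) ℚ⟦X⟧) (z : ℂ) :
    Hf (Hcg (rs c H)) z = Hf (Hcg H) ((c : ℂ) * z) := by
  ext i j
  unfold Hf
  rw [Matrix.of_apply, Matrix.of_apply]
  unfold Pool.Agent.Y119.HY.ps
  refine tsum_congr fun k => ?_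
  show Hcg (rs c H) k i j * z ^ k = Hcg H k i j * ((c : ℂ) * z) ^ k
  rw [Hcg_rs, Matrix.smul_apply, smul_eq_mul, mul_pow]
  ring

lemma Hf_rs_Hp {n : ℕ} (Q : Polynomial ℚ) (c : ℚ) (z : ℂ) :
    Hf (Hcg (rs c (Hp n Q))) z = Hf (Hc n Q) (((c : ℝ) : ℂ) * z) := by
  rw [Hf_rs, Hcg_Hp, Complex.ofReal_ratCast]

/-- the period matrix at `c / t`, up to a constant matrix -/
noncomputable def Yc (n : ℕ) (Q : Polynomial ℚ) (c : ℚ) (t : ℕ) : Matrix (Fin n) (Fin n) ℂ :=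
  Hf (Hc n Q) (((c : ℝ) : ℂ) * (((1 / (t : ℝ) : ℝ)) : ℂ)) * E (cm (Am n)) (-((Real.log t : ℝ) : ℂ))

/-- **Few exceptional tuples, proportional fibres.** -/
theorem tuples_cf (k δ D : ℕ) (r : Fin k → ℕ) (n : ∀ i, Fin (r i) → ℕ) (Q : ∀ i, Fin (r i) → Polynomial ℚ)
    (cq : ∀ i, Fin (r i) → ℚ) (W : ∀ i j, Matrix (Fin (n i j)) (Fin (n i j)) ℚ⟦X⟧)
    (hD : ∀ i, Dat (n i) (Q i) fun j => (cq i j : ℝ))
    (hS : ∀ i j, Sys (n i j) (Am (n i j)) (Bm (n i j) (Q i j)) (Hp (n i j) (Q i j)) (W i j)) :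
    ∃ c C : ℝ, 0 < c ∧ 0 ≤ C ∧ ∀ (V : Submodule ℚ ℂ) [Module.Finite ℚ V], Module.finrank ℚ V ≤ D →
      ∀ Ω : (∀ i j, Matrix (Fin (n i j)) (Fin (n i j)) ℂ), ∀ (x : Fin k → ℕ) (N' : ℕ), (∀ i, 1 ≤ x i) → 1 ≤ N' →
      ∀ S : Finset (Fin k → ℕ), (∀ t ∈ S, (∀ i, x i < t i ∧ t i ≤ x i + N') ∧
        ∃ P : MvPolynomial (Σ i : Fin k, Option (Σ j : Fin (r i), Fin (n i j) × Fin (n i j))) ℂ,
        P.totalDegree ≤ δ ∧ (∀ s, P.coeff s ∈ V) ∧
        MvPolynomial.aeval (pj (fun i => ((Real.log (t i) : ℝ) : ℂ)) fun i j =>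
          Yc (n i j) (Q i j) (cq i j) (t i) * Ω i j) P = 0 ∧
        ∃ (l : Fin k → ℂ) (g : ∀ i j, Matrix (Fin (n i j)) (Fin (n i j)) ℂ),
          (∀ i j, g i j ∈ Gp (n i j) (Q i j)) ∧
          MvPolynomial.aeval (pj l fun i j => g i j * Ω i j) P ≠ 0) →
      (S.card : ℝ) ≤ C * (N' : ℝ) ^ (k - 1) * ∑ i, (1 + N' / ((x i : ℝ) + N') ^ c) := by
  have hnil : ∀ i j, Am (n i j) ^ n i j = 0 := fun i j => Pool.Agent.Y119.HY.Am_nil
  have hY : ∀ (i : Fin k) (j : Fin (r i)) (z : ℂ), Yf (cm (Am (n i j))) (Hcg (rs (cq i j) (Hp (n i j) (Q i j)))) z =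
      Hf (Hc (n i j) (Q i j)) (((cq i j : ℝ) : ℂ) * z) * E (cm (Am (n i j))) (Complex.log z) := by
    intro i j z
    unfold Yf
    rw [Hf_rs_Hp]
  have hYb : ∀ i : Fin k, Yf (cm (blk (n i) ℚ fun j => Am (n i j)))
      (Hcg (blk (n i) ℚ⟦X⟧ fun j => rs (cq i j) (Hp (n i j) (Q i j)))) = ZZ (n i) (Q i) fun j => (cq i j : ℝ) := by
    intro i
    funext z
    rw [BLK.cm_blk, BLK.Hcg_blk, BLK.Yf_blk (fun j => cm (Am (n i j))) (fun j => Ac_nil)]
    unfold ZZ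
    congr 1
    funext j
    exact hY i j z
  have h := Pool.Agent.Run7.h160.CF.p_TUPG k δ D r n (fun i j => Am (n i j))
    (fun i j => rs (cq i j) (Hp (n i j) (Q i j))) (fun i j => rs (cq i j) (W i j))
    (fun i _ => {X | ∀ j, X j ∈ Gp (n i j) (Q i j)}) hnil (fun i => ?_) (fun i x hx hx1 X hX c => ?_)
  · have hYt : ∀ (i : Fin k) (j : Fin (r i)) (t : ℕ), Ytg (Am (n i j)) (rs (cq i j) (Hp (n i j) (Q i j))) t =
        Yc (n i j) (Q i j) (cq i j) t := by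
      intro i j t
      unfold Ytg Yc
      rw [Hf_rs_Hp]
    simp only [hYt] at h
    exact h
  · refine Pool.Agent.Run7.h882.CF.p_BLKG (r i) (n i) (fun j => Am (n i j)) (fun j => rs (cq i j) (Hp (n i j) (Q i j)))
      (fun j => rs (cq i j) (W i j)) fun j => ?_
    refine RN.p_RESN _ _ _ _ _ (hS i j) (cq i j) ?_ ?_
    · have := (hD i).c0 j
      exact_mod_cast this
    · have := (hD i).c1 j
      exact_mod_cast this
  · have hZ : ∀ j, Hf (Hc (n i j) (Q i j)) (((cq i j : ℝ) : ℂ) * x) * E (cm (Am (n i j))) (Complex.log x) ∈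
        Gp (n i j) (Q i j) := fun j => Zj_mem (hD i) j hx hx1 _
    refine ⟨fun j => (Hf (Hc (n i j) (Q i j)) (((cq i j : ℝ) : ℂ) * x) * E (cm (Am (n i j))) (Complex.log x))⁻¹ *
      (X j * E (cm (Am (n i j))) c), ?_, fun j => ?_⟩
    · rw [hYb]
      exact gal_all t_asy p_EXT (hD i) fun j =>
        Gp_mul (Gp_inv (hZ j)) (Gp_mul (hX j) (Gp_E ((hD i).q j) c))
    · rw [hY]
      have hu : IsUnit (Hf (Hc (n i j) (Q i j)) (((cq i j : ℝ) : ℂ) * x) *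
          E (cm (Am (n i j))) (Complex.log x)).det := by
        rw [(hZ j).1]
        exact isUnit_one
      rw [← Matrix.mul_assoc, Matrix.mul_nonsing_inv _ hu, one_mul]

section rename

variable {r : ℕ} {n : Fin r → ℕ}

/-- the variables of the functional relations -/
abbrev Vf {r : ℕ} (n : Fin r → ℕ) : Type := Option (Option (Σ j : Fin r, Fin (n j) × Fin (n j)))

/-- the point `(z, l, X)` -/
def pf (z l : ℂ) (X : ∀ j, Matrix (Fin (n j)) (Fin (n j)) ℂ) : Vf n → ℂ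
  | none => z
  | some none => l
  | some (some ⟨j, p⟩) => X j p.1 p.2

/-- the entries of the blocks -/
def rhoF : Vf n → Vr (∑ j, n j)
  | none => none
  | some none => some none
  | some (some ⟨j, p⟩) => some (some (finSigmaFinEquiv ⟨j, p.1⟩, finSigmaFinEquiv ⟨j, p.2⟩))

lemma ev_rhoF (P : MvPolynomial (Vf n) ℂ) (z l : ℂ) (X : ∀ j, Matrix (Fin (n j)) (Fin (n j)) ℂ) :
    ev (MvPolynomial.rename rhoF P) z l (blk n ℂ X) = MvPolynomial.aeval (pf z l X) P := by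
  unfold Pool.Agent.Y119.HY.ev
  rw [MvPolynomial.eval_rename, MvPolynomial.aeval_eq_eval]
  congr 2
  funext v
  rcases v with _ | _ | ⟨j, p⟩
  · rfl
  · rfl
  · show blk n ℂ X (finSigmaFinEquiv ⟨j, p.1⟩) (finSigmaFinEquiv ⟨j, p.2⟩) = X j p.1 p.2
    rw [BLK.blk_apply, Equiv.symm_apply_apply, Equiv.symm_apply_apply, Matrix.blockDiagonal'_apply_eq]

/-- **all functional relations**, in terms of the entries of the blocks; `γ` are constants -/
theorem fun_rel {Q : Fin r → Polynomial ℚ} {c : Fin r → ℝ} (hD : Dat n Q c) (γ : Fin r → ℂ) {P : MvPolynomial (Vf n) ℂ}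
    (hP : ∀ x : ℝ, 0 < x → x < 1 → MvPolynomial.aeval (pf (x : ℂ) (Complex.log x) fun j =>
      Hf (Hc (n j) (Q j)) ((c j : ℂ) * x) * E (cm (Am (n j))) (Complex.log x + γ j)) P = 0)
    {X : ∀ j, Matrix (Fin (n j)) (Fin (n j)) ℂ} (hX : ∀ j, X j ∈ Gp (n j) (Q j)) (z l : ℂ) :
    MvPolynomial.aeval (pf z l X) P = 0 := by
  set g : ∀ j, Matrix (Fin (n j)) (Fin (n j)) ℂ := fun j => E (cm (Am (n j))) (γ j) with hg
  have h1 : Pool.Agent.Y119.HY.sb 0 (blk n ℂ g) (MvPolynomial.rename rhoF P) ∈ Rel (ZZ n Q c) := by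
    intro x hx hx1
    rw [Pool.Agent.Y119.HY.ev_sb, add_zero]
    unfold ZZ
    rw [← map_mul, ev_rhoF]
    refine (congrArg (fun Z => MvPolynomial.aeval (pf (x : ℂ) (Complex.log x) Z) P = 0) ?_).mp (hP x hx hx1)
    funext j
    rw [Pi.mul_apply, hg, Matrix.mul_assoc, ← E_add Ac_nil]
  have h2 := rel_const t_asy p_EXT hD h1
    (X := fun j => X j * E (cm (Am (n j))) (-γ j)) (fun j => Gp_mul (hX j) (Gp_E (hD.q j) _)) z l
  rw [Pool.Agent.Y119.HY.ev_sb, add_zero, ← map_mul, ev_rhoF] at h2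
  refine (congrArg (fun Z => MvPolynomial.aeval (pf z l Z) P = 0) ?_).mp h2
  funext j
  rw [Pi.mul_apply, hg, Matrix.mul_assoc, ← E_add Ac_nil, neg_add_cancel, E_zero Ac_nil, mul_one]

end rename

end Pool.Agent.Run7.h696.CF
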