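import Pool.Agent.Run7.h696.CF.Lev2

/-!
# All functional relations between the families at proportional fibres
-/

set_option autoImplicit false

open Matrix PowerSeries Filter Topology
open Pool.Agent.Y113 hiding Bm
open Pool.Agent.Y119.HZ
open Pool.Agent.Y119.HY (Am Jm Bm Hq cm E Hf Hc Yf Gal Rel Sol PG Lens cm_mul cm_add ec uc Ac_ec Ac_last
  cm_zero cm_one cm_transpose cm_apply Ac_nil mem_Lens symm_Lens Jm_rel conj_E E_mul_neg QD om om_eq tv cm_Bm Jc_skew
  Jc_det Jc_rel sp_all connect tv_skew real_mem_Lens E_isom E_zero E_add ev)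
open Run7.h893.HO
open Pool.Agent.Run7.h225.HG

namespace Pool.Agent.Run7.h696.CF

/-- a function on the unit disk which vanishes on `(0, 1)` -/
lemma zreal {f : ℂ → ℂ} (hf : AnalyticOnNhd ℂ f (Metric.ball 0 1)) (h0 : ∀ x : ℝ, 0 < x → x < 1 → f (x : ℂ) = 0)
    {z : ℂ} (hz : ‖z‖ < 1) : f z = 0 := by
  have h1 : ∃ᶠ w in nhdsWithin (((1 / 2 : ℝ)) : ℂ) {(((1 / 2 : ℝ)) : ℂ)}ᶜ, f w = 0 := by
    rw [Metric.nhdsWithin_basis_ball.frequently_iff]
    intro ε hε
    set x : ℝ := 1 / 2 + min (ε / 2) (1 / 4) with hx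
    have h3 : 0 < min (ε / 2) (1 / 4) := by positivity
    have h4 : min (ε / 2) (1 / 4) ≤ 1 / 4 := min_le_right _ _
    have h5 : min (ε / 2) (1 / 4) ≤ ε / 2 := min_le_left _ _
    refine ⟨(x : ℂ), ⟨?_, ?_⟩, h0 x (by rw [hx]; linarith) (by rw [hx]; linarith)⟩
    · rw [Metric.mem_ball, Complex.dist_eq, ← Complex.ofReal_sub, Complex.norm_real, Real.norm_eq_abs, hx, add_sub_cancel_left,
        abs_of_pos h3]
      linarith
    · rw [Set.mem_compl_iff, Set.mem_singleton_iff]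
      intro h6
      have h7 : x = 1 / 2 := by exact_mod_cast h6
      rw [hx] at h7
      linarith
  exact hf.eqOn_zero_of_preconnected_of_frequently_eq_zero (convex_ball _ _).isPreconnected
    (by
      rw [Metric.mem_ball, dist_zero_right, Complex.norm_real, Real.norm_of_nonneg (by norm_num)]
      norm_num) h1 (by rwa [Metric.mem_ball, dist_zero_right])

section one

variable {n : ℕ} {Q : Polynomial ℚ}

lemma Gp_mul {X Z : Matrix (Fin n) (Fin n) ℂ} (hX : X ∈ Gp n Q) (hZ : Z ∈ Gp n Q) : X * Z ∈ Gp n Q :=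
  ⟨by rw [Matrix.det_mul, hX.1, hZ.1, mul_one], fun h => isom_mul (hX.2 h) (hZ.2 h)⟩

lemma Gp_inv {X : Matrix (Fin n) (Fin n) ℂ} (hX : X ∈ Gp n Q) : X⁻¹ ∈ Gp n Q := by
  have hu : IsUnit X.det := by rw [hX.1]; exact isUnit_one
  refine ⟨by rw [Matrix.det_nonsing_inv, hX.1, Ring.inverse_one], fun h => ?_⟩
  have h1 := hX.2 h
  calc (X⁻¹).transpose * cm (Jm n Q) * X⁻¹ = (X⁻¹).transpose * (X.transpose * cm (Jm n Q) * X) * X⁻¹ := by rw [h1]
    _ = (X * X⁻¹).transpose * cm (Jm n Q) * (X * X⁻¹) := by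
      rw [Matrix.transpose_mul]
      simp only [Matrix.mul_assoc]
    _ = _ := by rw [Matrix.mul_nonsing_inv _ hu, Matrix.transpose_one, one_mul, mul_one]

lemma Gp_E (hQ : QG n Q) (s : ℂ) : E (cm (Am n)) s ∈ Gp n Q :=
  ⟨det_E s hQ, fun _ => E_isom Ac_nil Jc_rel s⟩

/-- the holomorphic part is in the group -/
lemma Hf_mem (hQ : QG n Q) (htr : Q.coeff (n - 1) = 0) {z : ℂ} (hz : ‖z‖ < 1) : Hf (Hc n Q) z ∈ Gp n Q := by
  have hreal : ∀ x : ℝ, 0 < x → x < 1 → Hf (Hc n Q) x ∈ Gp n Q := by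
    intro x hx hx1
    have h1 := YJ_mem hQ hx hx1
    have h2 : Yf (cm (Am n)) (Hc n Q) (x : ℂ) ∈ Gp n Q := by
      refine ⟨?_, h1.2⟩
      rw [h1.1, htr, Rat.cast_zero, neg_zero, zero_mul, Complex.exp_zero]
    have h3 := Gp_mul h2 (Gp_E hQ (-Complex.log x))
    unfold Yf at h3
    rwa [Matrix.mul_assoc, E_mul_neg Ac_nil, mul_one] at h3
  have han : ∀ i j, AnalyticOnNhd ℂ (fun z => Hf (Hc n Q) z i j) (Metric.ball 0 1) := fun i j =>
    Pool.Agent.Y119.HY.Hf_an (sol_c_g hQ) Ac_nil i j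
  constructor
  · have h1 := zreal (f := fun z => (Hf (Hc n Q) z).det - 1) (fun w hw => by
      refine AnalyticAt.sub ?_ analyticAt_const
      simp only [Matrix.det_apply]
      refine Finset.analyticAt_fun_sum _ fun σ _ => ?_
      exact AnalyticAt.const_smul (Finset.analyticAt_fun_prod _ fun i _ => han _ _ w hw)) (fun x hx hx1 => by
      rw [(hreal x hx hx1).1, sub_self]) hz
    exact sub_eq_zero.1 h1
  · intro hQD
    ext a b
    have h1 := zreal (f := fun z => ((Hf (Hc n Q) z).transpose * cm (Jm n Q) * Hf (Hc n Q) z) a b - cm (Jm n Q) a b)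
      (z := z) (fun w hw => by
        simp only [Matrix.mul_apply, Matrix.transpose_apply]
        exact AnalyticAt.sub (Finset.analyticAt_fun_sum _ fun c _ => AnalyticAt.mul
          (Finset.analyticAt_fun_sum _ fun d _ => (han d a w hw).mul analyticAt_const) (han c b w hw)) analyticAt_const)
      (fun x hx hx1 => by
        rw [(hreal x hx hx1).2 hQD, sub_self]) hz
    exact sub_eq_zero.1 h1

end one

variable {r : ℕ} {n : Fin r → ℕ} {Q : Fin r → Polynomial ℚ} {c : Fin r → ℝ}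

lemma Zj_mem (hD : Dat n Q c) (j : Fin r) {x : ℝ} (hx : 0 < x) (hx1 : x < 1) (l : ℂ) :
    Hf (Hc (n j) (Q j)) ((c j : ℂ) * x) * E (cm (Am (n j))) l ∈ Gp (n j) (Q j) := by
  refine Gp_mul (Hf_mem (hD.q j) (hD.tr j) ?_) (Gp_E (hD.q j) l)
  rw [norm_mul, Complex.norm_real, Complex.norm_real, Real.norm_eq_abs, Real.norm_of_nonneg hx.le]
  have := hD.c1 j
  nlinarith [abs_nonneg (c j)]

/-- **the blocks which are singular at one point may be replaced by constants** -/
theorem step (hASY : S_ASY) (hEXT : S_EXT) (hD : Dat n Q c) (I T : Finset (Fin r))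
    {X : ∀ j, Matrix (Fin (n j)) (Fin (n j)) ℂ} (hX : ∀ j, X j ∈ Gp (n j) (Q j)) {c0 : ℝ} (hc0 : c0 ≠ 0)
    (hc1 : |c0| ≤ 1) (hmax : ∀ j, j ∉ I → |c j| ≤ |c0|) (hT : ∀ j, j ∈ T ↔ j ∉ I ∧ c j = c0) {P : MvPolynomial _ ℂ}
    (hP : P ∈ Rel (ZI n Q c I X)) : P ∈ Rel (ZI n Q c (I ∪ T) X) := by
  intro x hx hx1
  have hn : ∀ j, 2 ≤ n j := fun j => (hD.q j).two
  set Z : ∀ j, Matrix (Fin (n j)) (Fin (n j)) ℂ := fun j =>
    Hf (Hc (n j) (Q j)) ((c j : ℂ) * x) * E (cm (Am (n j))) (Complex.log x) with hZ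
  have hZm : ∀ j, Z j ∈ Gp (n j) (Q j) := fun j => Zj_mem hD j hx hx1 _
  have h1 := level hASY hEXT hD I T X hc0 hc1 hmax hT (fun j => (Z j)⁻¹ * X j)
    (fun j _ => Gp_mul (Gp_inv (hZm j)) (hX j)) P hP x hx hx1
  refine (congrArg (fun M => ev P (x : ℂ) (Complex.log x) M = 0) ?_).mp h1
  rw [ZI_eq hn, ZI_eq hn, ← map_mul]
  congr 1
  funext j
  rw [Pi.mul_apply]
  by_cases hj : j ∈ I
  · have hj' : j ∉ T := fun h2 => ((hT j).1 h2).1 hj
    simp only [if_pos hj, if_neg hj', if_pos (Finset.mem_union_left T hj), mul_one]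
  · by_cases hj' : j ∈ T
    · simp only [if_neg hj, if_pos hj', if_pos (Finset.mem_union_right I hj')]
      have hu : IsUnit (Z j).det := by rw [(hZm j).1]; exact isUnit_one
      rw [← Matrix.mul_assoc, Matrix.mul_nonsing_inv _ hu, one_mul]
    · have hj2 : j ∉ I ∪ T := by
        rw [Finset.mem_union]
        exact not_or.2 ⟨hj, hj'⟩
      simp only [if_neg hj, if_neg hj', if_neg hj2, mul_one]

theorem all_steps (hASY : S_ASY) (hEXT : S_EXT) (hD : Dat n Q c)
    {X : ∀ j, Matrix (Fin (n j)) (Fin (n j)) ℂ} (hX : ∀ j, X j ∈ Gp (n j) (Q j)) {P : MvPolynomial _ ℂ} :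
    ∀ (m : ℕ) (I : Finset (Fin r)), Iᶜ.card = m → P ∈ Rel (ZI n Q c I X) → P ∈ Rel (ZI n Q c Finset.univ X) := by
  classical
  intro m
  induction m using Nat.strong_induction_on with
  | _ m ih =>
    intro I hI hP
    by_cases h0 : Iᶜ.Nonempty
    · obtain ⟨j0, hj0, hmax⟩ := Finset.exists_max_image Iᶜ (fun j => |c j|) h0
      set T : Finset (Fin r) := Finset.univ.filter fun j => j ∉ I ∧ c j = c j0 with hT
      have h1 := step hASY hEXT hD I T hX (hD.c0 j0) (hD.c1 j0) (fun j hj => hmax j (Finset.mem_compl.2 hj))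
        (fun j => by rw [hT, Finset.mem_filter]; exact ⟨fun h => h.2, fun h => ⟨Finset.mem_univ _, h⟩⟩) hP
      refine ih (I ∪ T)ᶜ.card ?_ (I ∪ T) rfl h1
      rw [← hI]
      refine Finset.card_lt_card ?_
      rw [Finset.ssubset_iff_of_subset (Finset.compl_subset_compl.2 Finset.subset_union_left)]
      refine ⟨j0, hj0, ?_⟩
      rw [Finset.mem_compl, not_not]
      refine Finset.mem_union_right _ ?_
      rw [hT, Finset.mem_filter]
      exact ⟨Finset.mem_univ _, Finset.mem_compl.1 hj0, rfl⟩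
    · have h1 : I = Finset.univ := by
        rw [Finset.not_nonempty_iff_eq_empty] at h0
        rwa [Finset.compl_eq_empty_iff] at h0
      rw [h1] at hP
      exact hP

/-- the direct sum of the solutions at the fibres `c_j z` -/
noncomputable def ZZ (n : Fin r → ℕ) (Q : Fin r → Polynomial ℚ) (c : Fin r → ℝ) (z : ℂ) :
    Matrix (Fin (∑ j, n j)) (Fin (∑ j, n j)) ℂ :=
  blk n ℂ fun j => Hf (Hc (n j) (Q j)) ((c j : ℂ) * z) * E (cm (Am (n j))) (Complex.log z)

/-- **all relations vanish on the group** -/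
theorem rel_const (hASY : S_ASY) (hEXT : S_EXT) (hD : Dat n Q c) {P : MvPolynomial _ ℂ} (hP : P ∈ Rel (ZZ n Q c))
    {X : ∀ j, Matrix (Fin (n j)) (Fin (n j)) ℂ} (hX : ∀ j, X j ∈ Gp (n j) (Q j)) (z l : ℂ) :
    ev P z l (blk n ℂ X) = 0 := by
  have hn : ∀ j, 2 ≤ n j := fun j => (hD.q j).two
  have h0 : P ∈ Rel (ZI n Q c ∅ X) := by
    intro x hx hx1
    rw [ZI_eq hn]
    have h1 := hP x hx hx1
    unfold ZZ at h1
    simp only [Finset.notMem_empty, if_false]
    exact h1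
  have h1 := all_steps hASY hEXT hD hX _ ∅ rfl h0
  have h2 : ∀ x : ℝ, 0 < x → x < 1 → ev P (x : ℂ) (Complex.log x) (blk n ℂ X) = 0 := by
    intro x hx hx1
    have h3 := h1 x hx hx1
    rw [ZI_eq hn] at h3
    simp only [Finset.mem_univ, if_true] at h3
    exact h3
  -- all logarithms
  have h3 : ∀ w ∈ Metric.ball (0 : ℂ) 1, Pool.Agent.Y119.HY.evp P (Polynomial.C w) Polynomial.X
      ((blk n ℂ X).map Polynomial.C) = 0 := by
    refine Pool.Agent.Y119.HY.PA.log_zero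
      (f := fun w => Pool.Agent.Y119.HY.evp P (Polynomial.C w) Polynomial.X ((blk n ℂ X).map Polynomial.C)) ?_
      fun y hy hy1 => ?_
    · refine Pool.Agent.Y119.HY.PA.aeval (fun o => ?_) P
      rcases o with _ | _ | x
      · exact Pool.Agent.Y119.HY.PA.ofFun analyticOnNhd_id
      · exact Pool.Agent.Y119.HY.PA.const _
      · exact Pool.Agent.Y119.HY.PA.const _
    · rw [Pool.Agent.Y119.HY.eval_evp, Pool.Agent.Y119.HY.map_C_eval, Complex.ofReal_log hy.le, Polynomial.eval_C,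
        Polynomial.eval_X]
      exact h2 y hy hy1
  -- all points
  set q : Polynomial ℂ := Pool.Agent.Y119.HY.evp P Polynomial.X (Polynomial.C l) ((blk n ℂ X).map Polynomial.C) with hq
  have hqe : ∀ w, q.eval w = ev P w l (blk n ℂ X) := by
    intro w
    rw [hq, Pool.Agent.Y119.HY.eval_evp, Pool.Agent.Y119.HY.map_C_eval, Polynomial.eval_C, Polynomial.eval_X]
  have hq0 : q = 0 := by
    refine Polynomial.eq_zero_of_infinite_isRoot q (Set.Infinite.mono (s := Metric.ball (0 : ℂ) 1) ?_ ?_)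
    · intro w hw
      show q.eval w = 0
      rw [hqe]
      have h4 := congrArg (Polynomial.eval l) (h3 w hw)
      rwa [Pool.Agent.Y119.HY.eval_evp, Pool.Agent.Y119.HY.map_C_eval, Polynomial.eval_C, Polynomial.eval_X,
        Polynomial.eval_zero] at h4
    · exact infinite_of_mem_nhds (0 : ℂ) (Metric.ball_mem_nhds _ one_pos)
  rw [← hqe, hq0, Polynomial.eval_zero]

/-- **the group preserves the relations** -/
theorem gal_all (hASY : S_ASY) (hEXT : S_EXT) (hD : Dat n Q c) {g : ∀ j, Matrix (Fin (n j)) (Fin (n j)) ℂ}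
    (hg : ∀ j, g j ∈ Gp (n j) (Q j)) : blk n ℂ g ∈ Gal (ZZ n Q c) := by
  intro P hP x hx hx1
  unfold ZZ
  rw [← map_mul]
  exact rel_const hASY hEXT hD hP (fun j => Gp_mul (Zj_mem hD j hx hx1 _) (hg j)) _ _

end Pool.Agent.Run7.h696.CF
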