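import Pool.Agent.Run7.h696.CF.LevB

/-!
# All functional relations between the families at the fibres `c_j z / (1 - g_j z)`
-/

set_option autoImplicit false

open Matrix PowerSeries Filter Topology
open Pool.Agent.Y113 hiding Bm
open Pool.Agent.Y119.HZ
open Pool.Agent.Y119.HY (Am Jm Bm Hq cm E Hf Hc Yf Gal Rel Sol PG Lens cm_mul cm_add ec uc Ac_ec Ac_last
  cm_zero cm_one cm_transpose cm_apply Ac_nil mem_Lens symm_Lens Jm_rel conj_E E_mul_neg QD om om_eq tv cm_Bm Jc_skew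
  Jc_det Jc_rel sp_all connect tv_skew real_mem_Lens E_isom E_zero E_add ev)
open Run7.h893.HO
open Pool.Agent.Run7.h225.HG

namespace Pool.Agent.Run7.h696.CF

variable {r : ℕ} {n : Fin r → ℕ} {Q : Fin r → Polynomial ℚ} {g c : Fin r → ℝ} {L : ℝ}

lemma Fj_mem {n : ℕ} {Q : Polynomial ℚ} (hQ : QG n Q) (htr : Q.coeff (n - 1) = 0) {g c : ℝ} {z : ℂ}
    (hz : (|c| + |g|) * ‖z‖ < 1) (l : ℂ) : Fj n Q g c z * E (cm (Am n)) l ∈ Gp n Q :=
  Gp_mul (Gp_mul (Hf_mem hQ htr (reg0 hz).2) (Gp_E hQ _)) (Gp_E hQ _)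

lemma ZjB_mem (hD : DatL n Q g c L) (j : Fin r) {x : ℝ} (hx : 0 < x) (hx1 : x < 1 / L) (l : ℂ) :
    Fj (n j) (Q j) (g j) (c j) (x : ℂ) * E (cm (Am (n j))) l ∈ Gp (n j) (Q j) :=
  Fj_mem (hD.q j) (hD.tr j) (Lsmall hD.L0 (hD.cL j) (by rwa [Complex.norm_real, Real.norm_of_nonneg hx.le])) l

/-- **the blocks which are singular at one point may be replaced by constants** -/
theorem stepB (hASY : S_ASY) (hEXT : S_EXT) (hD : DatL n Q g c L) (I T : Finset (Fin r))
    {X : ∀ j, Matrix (Fin (n j)) (Fin (n j)) ℂ} (hX : ∀ j, X j ∈ Gp (n j) (Q j)) {s0 : ℝ} (hs0 : s0 ≠ 0)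
    (hsL : |s0| ≤ L) (hmax : ∀ j, j ∉ I → |c j + g j| ≤ |s0|) (hT : ∀ j, j ∈ T ↔ j ∉ I ∧ c j + g j = s0)
    {P : MvPolynomial _ ℂ} (hP : P ∈ RelL L (ZIB n Q g c I X)) : P ∈ RelL L (ZIB n Q g c (I ∪ T) X) := by
  intro x hx hx1
  have hn : ∀ j, 2 ≤ n j := fun j => (hD.q j).two
  set Z : ∀ j, Matrix (Fin (n j)) (Fin (n j)) ℂ := fun j =>
    Fj (n j) (Q j) (g j) (c j) x * E (cm (Am (n j))) (Complex.log x) with hZ
  have hZm : ∀ j, Z j ∈ Gp (n j) (Q j) := fun j => ZjB_mem hD j hx hx1 _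
  have h1 := levelB hASY hEXT hD I T X hs0 hsL hmax hT (fun j => (Z j)⁻¹ * X j)
    (fun j _ => Gp_mul (Gp_inv (hZm j)) (hX j)) P hP x hx hx1
  refine (congrArg (fun M => ev P (x : ℂ) (Complex.log x) M = 0) ?_).mp h1
  rw [ZIB_eq hn, ZIB_eq hn, ← map_mul]
  congr 1
  funext j
  rw [Pi.mul_apply]
  by_cases hj : j ∈ I
  · have hj' : j ∉ T := fun h2 => ((hT j).1 h2).1 hj
    simp only [if_pos hj, if_neg hj', if_pos (Finset.mem_union_left T hj), mul_one]
  · by_cases hj' : j ∈ T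
    · simp only [if_neg hj, if_pos hj', if_pos (Finset.mem_union_right I hj')]
      have hu : IsUnit (Z j).det := by rw [(hZm j).1]; exact isUnit_one
      rw [← Matrix.mul_assoc, Matrix.mul_nonsing_inv _ hu, one_mul]
    · have hj2 : j ∉ I ∪ T := by
        rw [Finset.mem_union]
        exact not_or.2 ⟨hj, hj'⟩
      simp only [if_neg hj, if_neg hj', if_neg hj2, mul_one]

theorem s_ne (hD : DatL n Q g c L) (j : Fin r) : c j + g j ≠ 0 := by
  intro h0
  have h1 := hD.gc j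
  have h2 := hD.c0 j
  have h3 : g j = -c j := by linarith
  rw [h3] at h1
  have h4 : 0 < c j * c j := mul_self_pos.2 h2
  nlinarith

theorem all_stepsB (hASY : S_ASY) (hEXT : S_EXT) (hD : DatL n Q g c L)
    {X : ∀ j, Matrix (Fin (n j)) (Fin (n j)) ℂ} (hX : ∀ j, X j ∈ Gp (n j) (Q j)) {P : MvPolynomial _ ℂ} :
    ∀ (m : ℕ) (I : Finset (Fin r)), Iᶜ.card = m → P ∈ RelL L (ZIB n Q g c I X) →
      P ∈ RelL L (ZIB n Q g c Finset.univ X) := by
  classical
  intro m
  induction m using Nat.strong_induction_on with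
  | _ m ih =>
    intro I hI hP
    by_cases h0 : Iᶜ.Nonempty
    · obtain ⟨j0, hj0, hmax⟩ := Finset.exists_max_image Iᶜ (fun j => |c j + g j|) h0
      set T : Finset (Fin r) := Finset.univ.filter fun j => j ∉ I ∧ c j + g j = c j0 + g j0 with hT
      have h1 := stepB hASY hEXT hD I T hX (s_ne hD j0) ((abs_add_le _ _).trans (hD.cL j0))
        (fun j hj => hmax j (Finset.mem_compl.2 hj))
        (fun j => by rw [hT, Finset.mem_filter]; exact ⟨fun h => h.2, fun h => ⟨Finset.mem_univ _, h⟩⟩) hP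
      refine ih (I ∪ T)ᶜ.card ?_ (I ∪ T) rfl h1
      rw [← hI]
      refine Finset.card_lt_card ?_
      rw [Finset.ssubset_iff_of_subset (Finset.compl_subset_compl.2 Finset.subset_union_left)]
      refine ⟨j0, hj0, ?_⟩
      rw [Finset.mem_compl, not_not]
      refine Finset.mem_union_right _ ?_
      rw [hT, Finset.mem_filter]
      exact ⟨Finset.mem_univ _, Finset.mem_compl.1 hj0, rfl⟩
    · have h1 : I = Finset.univ := by
        rw [Finset.not_nonempty_iff_eq_empty] at h0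
        rwa [Finset.compl_eq_empty_iff] at h0
      rw [h1] at hP
      exact hP

/-- the direct sum of the solutions at the fibres `c_j z / (1 - g_j z)` -/
noncomputable def ZZB (n : Fin r → ℕ) (Q : Fin r → Polynomial ℚ) (g c : Fin r → ℝ) (z : ℂ) :
    Matrix (Fin (∑ j, n j)) (Fin (∑ j, n j)) ℂ :=
  blk n ℂ fun j => Fj (n j) (Q j) (g j) (c j) z * E (cm (Am (n j))) (Complex.log z)

/-- **all relations vanish on the group** -/
theorem rel_constB (hASY : S_ASY) (hEXT : S_EXT) (hD : DatL n Q g c L) {P : MvPolynomial _ ℂ}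
    (hP : P ∈ RelL L (ZZB n Q g c)) {X : ∀ j, Matrix (Fin (n j)) (Fin (n j)) ℂ} (hX : ∀ j, X j ∈ Gp (n j) (Q j))
    (z l : ℂ) : ev P z l (blk n ℂ X) = 0 := by
  have hn : ∀ j, 2 ≤ n j := fun j => (hD.q j).two
  have hβ : 0 < 1 / L := by have := hD.L0; positivity
  have h0 : P ∈ RelL L (ZIB n Q g c ∅ X) := by
    intro x hx hx1
    rw [ZIB_eq hn]
    have h1 := hP x hx hx1
    unfold ZZB at h1
    simp only [Finset.notMem_empty, if_false]
    exact h1
  have h1 := all_stepsB hASY hEXT hD hX _ ∅ rfl h0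
  have h2 : ∀ x : ℝ, 0 < x → x < 1 / L → ev P (x : ℂ) (Complex.log x) (blk n ℂ X) = 0 := by
    intro x hx hx1
    have h3 := h1 x hx hx1
    rw [ZIB_eq hn] at h3
    simp only [Finset.mem_univ, if_true] at h3
    exact h3
  -- all logarithms
  have h3 : ∀ w ∈ Metric.ball (0 : ℂ) (1 / L), Pool.Agent.Y119.HY.evp P (Polynomial.C w) Polynomial.X
      ((blk n ℂ X).map Polynomial.C) = 0 := by
    refine log_zero_r hβ
      (f := fun w => Pool.Agent.Y119.HY.evp P (Polynomial.C w) Polynomial.X ((blk n ℂ X).map Polynomial.C)) ?_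
      fun y hy hy1 => ?_
    · refine Pool.Agent.Y119.HY.PA.aeval (fun o => ?_) P
      rcases o with _ | _ | x
      · exact Pool.Agent.Y119.HY.PA.ofFun analyticOnNhd_id
      · exact Pool.Agent.Y119.HY.PA.const _
      · exact Pool.Agent.Y119.HY.PA.const _
    · rw [Pool.Agent.Y119.HY.eval_evp, Pool.Agent.Y119.HY.map_C_eval, Complex.ofReal_log hy.le, Polynomial.eval_C,
        Polynomial.eval_X]
      exact h2 y hy hy1
  -- all points
  set q : Polynomial ℂ := Pool.Agent.Y119.HY.evp P Polynomial.X (Polynomial.C l) ((blk n ℂ X).map Polynomial.C) with hq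
  have hqe : ∀ w, q.eval w = ev P w l (blk n ℂ X) := by
    intro w
    rw [hq, Pool.Agent.Y119.HY.eval_evp, Pool.Agent.Y119.HY.map_C_eval, Polynomial.eval_C, Polynomial.eval_X]
  have hq0 : q = 0 := by
    refine Polynomial.eq_zero_of_infinite_isRoot q (Set.Infinite.mono (s := Metric.ball (0 : ℂ) (1 / L)) ?_ ?_)
    · intro w hw
      show q.eval w = 0
      rw [hqe]
      have h4 := congrArg (Polynomial.eval l) (h3 w hw)
      rwa [Pool.Agent.Y119.HY.eval_evp, Pool.Agent.Y119.HY.map_C_eval, Polynomial.eval_C, Polynomial.eval_X,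
        Polynomial.eval_zero] at h4
    · exact infinite_of_mem_nhds (0 : ℂ) (Metric.ball_mem_nhds _ hβ)
  rw [← hqe, hq0, Polynomial.eval_zero]

/-- **the group preserves the relations** -/
theorem gal_allB (hASY : S_ASY) (hEXT : S_EXT) (hD : DatL n Q g c L) {x : ∀ j, Matrix (Fin (n j)) (Fin (n j)) ℂ}
    (hx : ∀ j, x j ∈ Gp (n j) (Q j)) : blk n ℂ x ∈ GalL L (ZZB n Q g c) := by
  intro P hP y hy hy1
  unfold ZZB
  rw [← map_mul]
  exact rel_constB hASY hEXT hD hP (fun j => Gp_mul (ZjB_mem hD j hy hy1 _) (hx j)) _ _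

end Pool.Agent.Run7.h696.CF
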