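import Pool.Agent.Run7.h225.HG.Jg

/-!
# The group of one family: submonoids which contain the local monodromy at `1` and are closed under conjugation
-/

set_option autoImplicit false

open Matrix PowerSeries
open Pool.Agent.Y113 hiding Bm
open Pool.Agent.Y119.HZ
open Pool.Agent.Y119.HY (Am Jm Bm Hq cm E Hf Hc Yf Gal Sol PG Lens cm_mul cm_add ec uc Ac_ec Ac_last
  cm_zero cm_one cm_transpose cm_apply Ac_nil mem_Lens symm_Lens Jm_rel conj_E E_mul_neg QD om om_eq tv cm_Bm Jc_skew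
  Jc_det Jc_rel sp_all connect tv_skew real_mem_Lens E_isom E_zero E_add)
open Run7.h893.HO
open Pool.Agent.Run7.h225.HG

namespace Pool.Agent.Run7.h696.CF

variable {n : ℕ} {Q : Polynomial ℚ} {H' K K' : ℕ → Matrix (Fin n) (Fin n) ℂ} {M Mi : Matrix (Fin n) (Fin n) ℂ}

theorem grp_one (hASY : S_ASY) (hQ : QG n Q) (hQ' : QG n (dq n Q)) (htr : Q.coeff (n - 1) = 0)
    (hty : QD n Q ∨ ¬ RatEq Q (dq n Q)) (h : CD (cm (Am n)) (cm (Bm n Q)) (Hc n Q) H' K K' M Mi)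
    (S : Submonoid (Matrix (Fin n) (Fin n) ℂ)) (hE : ∀ c : ℂ, ∀ g ∈ S, E (cm (Am n)) c * g * E (cm (Am n)) (-c) ∈ S)
    (hcl : ∀ M : Matrix (Fin n) (Fin n) (Polynomial ℂ), (∀ c : ℂ, c ≠ 0 → M.map (Polynomial.eval c) ∈ S) →
      M.map (Polynomial.eval 0) ∈ S)
    (h1 : ∀ s : ℂ, 1 + s • vecMulVec (Mi *ᵥ uc n) (bb n Q ᵥ* M) ∈ S)
    (g : Matrix (Fin n) (Fin n) ℂ) (hg : g.det = 1)
    (hgJ : QD n Q → g.transpose * cm (Jm n Q) * g = cm (Jm n Q)) : g ∈ S := by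
  have hn := hQ.two
  obtain ⟨f1, f2, -⟩ := unip_facts hQ hQ' htr h
  by_cases hQD : QD n Q
  · have hμ := mu_eq hQD hQ h
    rw [hμ] at h1 f2
    refine sp_all (Jc_skew hQD) (N := cm (Am n)) Ac_nil Jc_rel (v := Mi *ᵥ uc n) ?_ S hE (fun s => ?_) hcl (Jc_det hQD) g
      (hgJ hQD)
    · rw [om_eq]
      rw [neg_dotProduct] at f2
      exact neg_ne_zero.1 f2
    · have h2 := h1 (-s)
      rw [vecMulVec_neg, smul_neg, neg_smul, neg_neg] at h2
      exact h2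
  · have hne := hty.resolve_left hQD
    refine p_SLG n S (fun w ξ hw => ?_) g hg
    refine t_slt n (cm (Am n)) (Mi *ᵥ uc n) (bb n Q ᵥ* M) S Ac_nil f1 f2 hE h1 ?_ w ξ hw
    by_contra hcon
    push Not at hcon
    apply hne
    refine intw_dual p_INT hASY p_REC hQ hQ' hQ hQ' htr htr h h fun x => ?_
    rw [XX_vec, ← qf_trace, ← qf_trace]
    have h2 := p_SEPQ.2 (Pool.Agent.Run7.h225.HG.qp (cm (Am n)) (Mi *ᵥ uc n) (bb n Q ᵥ* M)) ?_ ?_ x
    · rw [Pool.Agent.Run7.h225.HG.qp_eval, Pool.Agent.Run7.h225.HG.qp_eval] at h2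
      exact h2
    · intro h0
      have h2 := qp_deg (N := cm (Am n)) (Mi *ᵥ uc n) (bb n Q ᵥ* M) (by omega) f2
      rw [h0, Polynomial.natDegree_zero] at h2
      omega
    · intro b c
      simp only [Pool.Agent.Run7.h225.HG.qp_eval]
      exact hcon b c

end Pool.Agent.Run7.h696.CF
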