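import Pool.Agent.Run7.h225.HG.JFIN
import Pool.Agent.Y119.J.Gen

/-!
# Interface of the project CF: hypergeometric families at proportional fibres

Systems with arbitrary singular points, all of whose solutions are `H z^N` at the origin. The direct sum of the rescaled
hypergeometric systems `Y_j(c_j z)`, `c_j` rational numbers with `0 < c_j ≤ 1`, is such a system.
-/

set_option autoImplicit false

open PowerSeries Matrix
open Pool.Agent.Y113 hiding Bm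
open Pool.Agent.Y120.GF Pool.Agent.Y120.GH Pool.Agent.Y119.HZ
open Pool.Agent.Y119.HY (cm E Hf Yf Rel Gal)
open Pool.Agent.Run7.h225.HG

namespace Pool.Agent.Run7.h696.CF

/-- A fundamental solution `H z^N` over `ℚ` of a system `T z Y' = A Y` with polynomials `T ≠ 0` and `A`, `N` nilpotent with
integral entries, with the inverse matrix `W`, and the arithmetic properties of the coefficients; convergent for
`|z| < 1`. -/
structure SysG (n : ℕ) (N : Matrix (Fin n) (Fin n) ℚ) (H W : Matrix (Fin n) (Fin n) ℚ⟦X⟧) : Prop where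
  int : ∃ N' : Fin n → Fin n → ℤ, ∀ i j, (N' i j : ℚ) = N i j
  nil : N ^ n = 0
  zero : ∀ i j, coeff 0 (H i j) = if i = j then 1 else 0
  ode : ∃ (T : Polynomial ℤ) (A : Fin n → Fin n → Polynomial ℤ), T ≠ 0 ∧
    ∀ i j, ps T * (X * d⁄dX ℚ (H i j) + ∑ k, H i k * C (N k j)) = ∑ k, ps (A i k) * H k j
  inv : H * W = 1
  sH : ∀ i j, SDc (H i j)
  sW : ∀ i j, SDc (W i j)
  cv : ∀ t : ℝ, 1 < t → ∀ i j, Cv t (H i j)

/-- rescaling `z ↦ c z` -/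
noncomputable def rs {n : ℕ} (c : ℚ) (H : Matrix (Fin n) (Fin n) ℚ⟦X⟧) : Matrix (Fin n) (Fin n) ℚ⟦X⟧ :=
  H.map (PowerSeries.rescale c)

/-- **RES.** The rescaled systems. `ode` for `H` is `SYS1.ode_int_s` in `Run7/h225/HG/SYS1.lean` (with `T1 D`, `A1g`);
`rescale c` is a ring homomorphism which commutes with `X * d⁄dX`; multiply by a common denominator of the coefficients of
`T(c X)` and of all `A_ij(c X)`. `SDc` of a rescaled series: multiply the denominator `d` up to `m` by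
`c.den ^ m`, sizes `|c|^m ≤ 1`; enlarge the power of two. `cv`: `SYS2.Cv_H` in `Run7/h225/HG/SYS2.lean` and `|c|^m ≤ 1`. -/
def S_RES : Prop := ∀ (n : ℕ) (N B : Matrix (Fin n) (Fin n) ℚ) (H W : Matrix (Fin n) (Fin n) ℚ⟦X⟧), Sys n N B H W →
  ∀ c : ℚ, 0 < c → c ≤ 1 → SysG n N (rs c H) (rs c W)

/-- **BLKG.** Direct sums. As `Sys_blk` in `Run7/h225/HG/BLK.lean` (`blk_apply`, `blk_cases`, `blk_map`). For `ode` write the
equation as an identity of matrices over `ℚ⟦X⟧`: `ps T • (th H + H * km N) = (A.map ps) * H`, apply the ring homomorphism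
`blk`, with `T = ∏_j T_j` and `A_j` multiplied by `∏_{i ≠ j} T_i`. -/
def S_BLKG : Prop := ∀ (r : ℕ) (n : Fin r → ℕ) (N : ∀ j, Matrix (Fin (n j)) (Fin (n j)) ℚ)
  (H W : ∀ j, Matrix (Fin (n j)) (Fin (n j)) ℚ⟦X⟧), (∀ j, SysG (n j) (N j) (H j) (W j)) →
  SysG (∑ j, n j) (blk n ℚ N) (blk n ℚ⟦X⟧ H) (blk n ℚ⟦X⟧ W)

/-- **TUPG.** The theorem on tuples for direct sums of general systems. This is `p_SYS2` followed by `p_JFIN`
(`Run7/h225/HG/SYS2.lean`, `JFIN.lean`) with `Sys` replaced by `SysG`: `S_SYS1` is replaced by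
`Pool.Agent.Y119.HZ.fam_gen` (`Y119/J/Gen.lean`; its second component is the conclusion of `S_SYS1`), `SYS2.Cv_H` by
`SysG.cv`, `SYS2.sol` is not needed. The facts on `blk` are `BLK.Yf_blk`, `BLK.E_blk`, `BLK.Hcg_blk`, `BLK.cm_blk`. -/
def S_TUPG : Prop := ∀ (k δ D : ℕ) (r : Fin k → ℕ) (n : ∀ i, Fin (r i) → ℕ)
  (N : ∀ i j, Matrix (Fin (n i j)) (Fin (n i j)) ℚ) (H W : ∀ i j, Matrix (Fin (n i j)) (Fin (n i j)) ℚ⟦X⟧)
  (T : ∀ i, ℂ → Set (∀ j, Matrix (Fin (n i j)) (Fin (n i j)) ℂ)),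
  (∀ i j, N i j ^ n i j = 0) →
  (∀ i, SysG (∑ j, n i j) (blk (n i) ℚ (N i)) (blk (n i) ℚ⟦X⟧ (H i)) (blk (n i) ℚ⟦X⟧ (W i))) →
  (∀ i, ∀ x : ℝ, 0 < x → x < 1 → ∀ X ∈ T i x, ∀ c : ℂ, ∃ g : ∀ j, Matrix (Fin (n i j)) (Fin (n i j)) ℂ,
    blk (n i) ℂ g ∈ Gal (Yf (cm (blk (n i) ℚ (N i))) (Hcg (blk (n i) ℚ⟦X⟧ (H i)))) ∧
    ∀ j, Yf (cm (N i j)) (Hcg (H i j)) x * g j = X j * E (cm (N i j)) c) →
    ∃ c C : ℝ, 0 < c ∧ 0 ≤ C ∧ ∀ (V : Submodule ℚ ℂ) [Module.Finite ℚ V], Module.finrank ℚ V ≤ D →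
      ∀ Ω : (∀ i j, Matrix (Fin (n i j)) (Fin (n i j)) ℂ), ∀ (x : Fin k → ℕ) (N' : ℕ), (∀ i, 1 ≤ x i) → 1 ≤ N' →
      ∀ S : Finset (Fin k → ℕ), (∀ t ∈ S, (∀ i, x i < t i ∧ t i ≤ x i + N') ∧
        ∃ P : MvPolynomial (Σ i : Fin k, Option (Σ j : Fin (r i), Fin (n i j) × Fin (n i j))) ℂ,
        P.totalDegree ≤ δ ∧ (∀ s, P.coeff s ∈ V) ∧
        MvPolynomial.aeval (pj (fun i => ((Real.log (t i) : ℝ) : ℂ)) fun i j => Ytg (N i j) (H i j) (t i) * Ω i j) P = 0 ∧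
        ∃ (l : Fin k → ℂ) (g : ∀ i j, Matrix (Fin (n i j)) (Fin (n i j)) ℂ),
          (∀ i, g i ∈ T i (((1 / (t i : ℝ) : ℝ)) : ℂ)) ∧
          MvPolynomial.aeval (pj l fun i j => g i j * Ω i j) P ≠ 0) →
      (S.card : ℝ) ≤ C * (N' : ℝ) ^ (k - 1) * ∑ i, (1 + N' / ((x i : ℝ) + N') ^ c)

end Pool.Agent.Run7.h696.CF
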