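import Pool.Agent.Run7.h696.CF.Iface

/-!
# Interface of the project CF, second part: negative scaling factors
-/

set_option autoImplicit false

open PowerSeries Matrix
open Pool.Agent.Y113 hiding Bm
open Pool.Agent.Y120.GF Pool.Agent.Y120.GH Pool.Agent.Y119.HZ
open Pool.Agent.Y119.HY (cm E Hf Yf Rel Gal Sol)
open Pool.Agent.Run7.h225.HG

namespace Pool.Agent.Run7.h696.CF

/-- **RESN.** As `S_RES` with `-1 ≤ c ≤ 1`, `c ≠ 0` (the same proof with `|c|`). -/
def S_RESN : Prop := ∀ (n : ℕ) (N B : Matrix (Fin n) (Fin n) ℚ) (H W : Matrix (Fin n) (Fin n) ℚ⟦X⟧), Sys n N B H W →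
  ∀ c : ℚ, c ≠ 0 → |c| ≤ 1 → SysG n N (rs c H) (rs c W)

/-- **EXT.** The holomorphic part of the solution extends to the union of the unit disk and the half plane `Re z < 1/2`.

Proof. `exists_sol` (`HY/Loc.lean`) gives `H'` with `Sol A (A - B) H'`. For `Re z < 1/2` put `w = z / (z - 1)`, `|w| < 1`,
`1 - w = 1 / (1 - z)`, and `V z = Hf H' w * E A (-log (1 - z))` (sign to be checked), an analytic function in the half plane
with `V 0 = 1`, and `V z = Hf H z` in the intersection `D` of the half plane and the unit disk: both satisfy the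
differential equation of `Hf_ode` in `D` minus `0`; so with `U = V * E A (log z)` and `Yf A H z = Hf H z * E A (log z)` the
matrix `(Yf (-Aᵀ) H₁ z)ᵀ * U z` (`H₁` the dual solution, `Sol (-Aᵀ) (-Bᵀ) H₁`, see `p_CON` in `HG/Conn.lean` and `self_pair`
in `HY/Main.lean`) is constant on `D` without the negative real axis, so `Hf H₁ᵀ * V = E(log z) C E(-log z)`, and by
`PA.log_zero` and the value at `0` it is `1`. On the negative real axis use continuity or the identity theorem. -/
def S_EXT : Prop := ∀ (n : ℕ) (A B : Matrix (Fin n) (Fin n) ℂ) (H : ℕ → Matrix (Fin n) (Fin n) ℂ), A ^ n = 0 →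
  Sol A B H → ∃ F : ℂ → Matrix (Fin n) (Fin n) ℂ, (∀ z : ℂ, ‖z‖ < 1 → F z = Hf H z) ∧
    ∀ z : ℂ, ‖z‖ < 1 ∨ z.re < 1 / 2 → ∀ i j, AnalyticAt ℂ (fun w => F w i j) z

end Pool.Agent.Run7.h696.CF
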