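import Pool.Agent.Run7.h696.CF.Iface
import Pool.Agent.Y120.H.Shift

/-!
# Interface of the second part of the project CF: fibres `c / (t - g)`

For `z = 1 / t` the fibre is `φ(z) = c z / (1 - g z)`. The hypergeometric system `Y = H z^N` at `φ(z)` is, up to the constant
`c^N`, the system `H(φ(z)) (1 - g z)^(-N) z^N`, with singular points `t = g`, `t = g + c` and `t = ∞`.
-/

set_option autoImplicit false

open PowerSeries Matrix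
open Pool.Agent.Y113 hiding Bm
open Pool.Agent.Y120.GF Pool.Agent.Y120.GH Pool.Agent.Y119.HZ
open Pool.Agent.Y119.HY (cm E Hf Yf Vr ev)
open Pool.Agent.Run7.h225.HG

namespace Pool.Agent.Run7.h696.CF

/-- As `SysG`, with the radius of convergence at least `1 / L`. -/
structure SysL (L : ℝ) (n : ℕ) (N : Matrix (Fin n) (Fin n) ℚ) (H W : Matrix (Fin n) (Fin n) ℚ⟦X⟧) : Prop where
  int : ∃ N' : Fin n → Fin n → ℤ, ∀ i j, (N' i j : ℚ) = N i j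
  nil : N ^ n = 0
  zero : ∀ i j, coeff 0 (H i j) = if i = j then 1 else 0
  ode : ∃ (T : Polynomial ℤ) (A : Fin n → Fin n → Polynomial ℤ), T ≠ 0 ∧
    ∀ i j, ps T * (X * d⁄dX ℚ (H i j) + ∑ k, H i k * C (N k j)) = ∑ k, ps (A i k) * H k j
  inv : H * W = 1
  sH : ∀ i j, SDc (H i j)
  sW : ∀ i j, SDc (W i j)
  cv : ∀ t : ℝ, L < t → ∀ i j, Cv t (H i j)

/-- relations on `(0, 1 / L)` -/
def RelL (L : ℝ) {m : ℕ} (Y : ℂ → Matrix (Fin m) (Fin m) ℂ) : Set (MvPolynomial (Vr m) ℂ) :=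
  {P | ∀ x : ℝ, 0 < x → x < 1 / L → Pool.Agent.Y119.HY.ev P (x : ℂ) (Complex.log x) (Y (x : ℂ)) = 0}

/-- matrices which preserve the relations on `(0, 1 / L)` -/
def GalL (L : ℝ) {m : ℕ} (Y : ℂ → Matrix (Fin m) (Fin m) ℂ) : Set (Matrix (Fin m) (Fin m) ℂ) :=
  {g | ∀ P ∈ RelL L Y, ∀ x : ℝ, 0 < x → x < 1 / L →
    Pool.Agent.Y119.HY.ev P (x : ℂ) (Complex.log x) (Y (x : ℂ) * g) = 0}

/-- **TUPL.** As `S_TUPG` for systems with a smaller radius of convergence and boxes with `x_i ≥ L` (copy of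
`Run7/h160/CF/TUPG.lean`: `1 < t` becomes `L < t`, `x < 1` becomes `x < 1 / L`, `2 ≤ t i` becomes `L < t i`, `Rel`, `Gal`
become `RelL L`, `GalL L`). -/
def S_TUPL : Prop := ∀ (k δ D L : ℕ) (r : Fin k → ℕ) (n : ∀ i, Fin (r i) → ℕ)
  (N : ∀ i j, Matrix (Fin (n i j)) (Fin (n i j)) ℚ) (H W : ∀ i j, Matrix (Fin (n i j)) (Fin (n i j)) ℚ⟦X⟧)
  (T : ∀ i, ℂ → Set (∀ j, Matrix (Fin (n i j)) (Fin (n i j)) ℂ)), 1 ≤ L →
  (∀ i j, N i j ^ n i j = 0) →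
  (∀ i, SysL L (∑ j, n i j) (blk (n i) ℚ (N i)) (blk (n i) ℚ⟦X⟧ (H i)) (blk (n i) ℚ⟦X⟧ (W i))) →
  (∀ i, ∀ x : ℝ, 0 < x → x < 1 / L → ∀ X ∈ T i x, ∀ c : ℂ, ∃ g : ∀ j, Matrix (Fin (n i j)) (Fin (n i j)) ℂ,
    blk (n i) ℂ g ∈ GalL L (Yf (cm (blk (n i) ℚ (N i))) (Hcg (blk (n i) ℚ⟦X⟧ (H i)))) ∧
    ∀ j, Yf (cm (N i j)) (Hcg (H i j)) x * g j = X j * E (cm (N i j)) c) →
    ∃ c C : ℝ, 0 < c ∧ 0 ≤ C ∧ ∀ (V : Submodule ℚ ℂ) [Module.Finite ℚ V], Module.finrank ℚ V ≤ D →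
      ∀ Ω : (∀ i j, Matrix (Fin (n i j)) (Fin (n i j)) ℂ), ∀ (x : Fin k → ℕ) (N' : ℕ), (∀ i, L ≤ x i) → 1 ≤ N' →
      ∀ S : Finset (Fin k → ℕ), (∀ t ∈ S, (∀ i, x i < t i ∧ t i ≤ x i + N') ∧
        ∃ P : MvPolynomial (Σ i : Fin k, Option (Σ j : Fin (r i), Fin (n i j) × Fin (n i j))) ℂ,
        P.totalDegree ≤ δ ∧ (∀ s, P.coeff s ∈ V) ∧
        MvPolynomial.aeval (pj (fun i => ((Real.log (t i) : ℝ) : ℂ)) fun i j => Ytg (N i j) (H i j) (t i) * Ω i j) P = 0 ∧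
        ∃ (l : Fin k → ℂ) (g : ∀ i j, Matrix (Fin (n i j)) (Fin (n i j)) ℂ),
          (∀ i, g i ∈ T i (((1 / (t i : ℝ) : ℝ)) : ℂ)) ∧
          MvPolynomial.aeval (pj l fun i j => g i j * Ω i j) P ≠ 0) →
      (S.card : ℝ) ≤ C * (N' : ℝ) ^ (k - 1) * ∑ i, (1 + N' / ((x i : ℝ) + N') ^ c)

/-- **BLKL.** Direct sums (copy of `Run7/h882/CF/BLKG.lean`). -/
def S_BLKL : Prop := ∀ (L : ℝ) (r : ℕ) (n : Fin r → ℕ) (N : ∀ j, Matrix (Fin (n j)) (Fin (n j)) ℚ)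
  (H W : ∀ j, Matrix (Fin (n j)) (Fin (n j)) ℚ⟦X⟧), (∀ j, SysL L (n j) (N j) (H j) (W j)) →
  SysL L (∑ j, n j) (blk n ℚ N) (blk n ℚ⟦X⟧ H) (blk n ℚ⟦X⟧ W)

/-- the matrix `exp(f N) = ∑_l f^l N^l / l!` -/
noncomputable def ES {n : ℕ} (N : Matrix (Fin n) (Fin n) ℚ) (f : ℚ⟦X⟧) : Matrix (Fin n) (Fin n) ℚ⟦X⟧ :=
  ∑ l ∈ Finset.range n, (C (1 / (l.factorial : ℚ)) * f ^ l) • (N ^ l).map (C (R := ℚ))

/-- `H(c z / (1 - g z)) (1 - g z)^(-N)`; here `sf g f = f(z / (1 - g z))` and `lg g = log(1 - g z)` -/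
noncomputable def mbH {n : ℕ} (g : ℕ) (c : ℚ) (N : Matrix (Fin n) (Fin n) ℚ) (H : Matrix (Fin n) (Fin n) ℚ⟦X⟧) :
    Matrix (Fin n) (Fin n) ℚ⟦X⟧ := (rs c H).map (sf g) * ES N (-lg g)

/-- the inverse matrix -/
noncomputable def mbW {n : ℕ} (g : ℕ) (c : ℚ) (N : Matrix (Fin n) (Fin n) ℚ) (W : Matrix (Fin n) (Fin n) ℚ⟦X⟧) :
    Matrix (Fin n) (Fin n) ℚ⟦X⟧ := ES N (lg g) * (rs c W).map (sf g)

/-- **MOBA.** The algebraic part. With `φ = c z / (1 - g z)` the system `Ỹ = H̃ z^N` satisfies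
`z Ỹ' = ((1 - g z)⁻¹ N + c z ((1 - g z) (1 - (g + c) z))⁻¹ B) Ỹ`, so `T` is a multiple of `(1 - g z) (1 - (g + c) z)`.
Formally: `SYS1.ode_int_s` or `Sys.step` for `H`, the chain rule `sf_der` in `Y120/H/Shift.lean`, the derivative
`lg' = -g / (1 - g z)` and `(exp(f N))' = f' N exp(f N)`. `SysG` of `rs c H` without `cv` is in
`Run7/h882/CF/RES.lean` (there `c ≤ 1` is only used for the sizes). -/
def S_MOBA : Prop := ∀ (n : ℕ) (N B : Matrix (Fin n) (Fin n) ℚ) (H W : Matrix (Fin n) (Fin n) ℚ⟦X⟧), Sys n N B H W →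
  ∀ (g : ℕ) (c : ℚ), 0 < c →
  (∀ i j, coeff 0 (mbH g c N H i j) = if i = j then 1 else 0) ∧ mbH g c N H * mbW g c N W = 1 ∧
  ∃ (T : Polynomial ℤ) (A : Fin n → Fin n → Polynomial ℤ), T ≠ 0 ∧
    ∀ i j, ps T * (X * d⁄dX ℚ (mbH g c N H i j) + ∑ k, mbH g c N H i k * C (N k j)) =
      ∑ k, ps (A i k) * mbH g c N H k j

/-- **MOBS.** Sizes and denominators: `SDp.subst_sh`, `SDp.lg` in `Y113/P/SD.lean`, `SDc_rescale` in
`Run7/h882/CF/RES.lean` (for `c > 1` the sizes are multiplied by `c^m`, allowed). -/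
def S_MOBS : Prop := ∀ (n : ℕ) (N : Matrix (Fin n) (Fin n) ℚ) (H : Matrix (Fin n) (Fin n) ℚ⟦X⟧), (∀ i j, SDc (H i j)) →
  ∀ (g : ℕ) (c : ℚ), 0 < c → ∀ i j, SDc (mbH g c N H i j) ∧ SDc (mbW g c N H i j)

/-- **MOBC.** Convergence and values at real points. The coefficients of `(z / (1 - g z))^d` are nonnegative, so the sum of
the absolute values at `z = 1 / t` is at most `∑_d |h_d| (c / (t - g))^d`; there may be lemmas on `Cv` and `ev` of a shift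
in `Y113` or `Y120` (search for `sh g` together with `Cv`). -/
def S_MOBC : Prop := ∀ (n : ℕ) (N : Matrix (Fin n) (Fin n) ℚ) (H : Matrix (Fin n) (Fin n) ℚ⟦X⟧),
  (∀ t : ℝ, 1 < t → ∀ i j, Cv t (H i j)) → ∀ (g : ℕ) (c : ℚ), 0 < c →
  (∀ t : ℝ, g + c < t → ∀ i j, Cv t (mbH g c N H i j)) ∧
  ∀ x : ℝ, 0 < x → (g + c) * x < 1 → Hf (Hcg (mbH g c N H)) (x : ℂ) =
    Hf (Hcg H) ((c : ℂ) * x / (1 - g * x)) * E (cm N) (-Complex.log (1 - (g : ℂ) * x))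

end Pool.Agent.Run7.h696.CF
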