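import Pool.Agent.Run7.h696.CF.Mono2
import Pool.Agent.Run7.h696.CF.Sep1
import Pool.Agent.Run7.h696.CF.Grp1
import Pool.Agent.Run7.h696.CF.Iface2
import Pool.Agent.Run7.h225.HG.Pair

/-!
# The group generated at one singular point
-/

set_option autoImplicit false

open Matrix PowerSeries
open Pool.Agent.Y113 hiding Bm
open Pool.Agent.Y119.HZ
open Pool.Agent.Y119.HY (Am Jm Bm Hq cm E Hf Hc Yf Gal Rel Sol PG Lens cm_mul cm_add ec uc Ac_ec Ac_last
  cm_zero cm_one cm_transpose cm_apply Ac_nil mem_Lens symm_Lens Jm_rel conj_E E_mul_neg QD om om_eq tv cm_Bm Jc_skew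
  Jc_det Jc_rel sp_all connect tv_skew real_mem_Lens E_isom E_zero E_add ev)
open Run7.h893.HO
open Pool.Agent.Run7.h225.HG

namespace Pool.Agent.Run7.h696.CF

/-- the group of one family -/
def Gp (n : ℕ) (Q : Polynomial ℚ) : Set (Matrix (Fin n) (Fin n) ℂ) :=
  {X | X.det = 1 ∧ (QD n Q → X.transpose * cm (Jm n Q) * X = cm (Jm n Q))}

variable {r : ℕ} {n : Fin r → ℕ} {Q : Fin r → Polynomial ℚ}

/-- **the group generated by the local monodromy at one singular point and its conjugates** -/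
theorem grp_level (hASY : S_ASY) (hq : ∀ j, QG (n j) (Q j)) (hq' : ∀ j, QG (n j) (dq (n j) (Q j)))
    (htr : ∀ j, (Q j).coeff (n j - 1) = 0) (hty : ∀ j, QD (n j) (Q j) ∨ ¬ RatEq (Q j) (dq (n j) (Q j)))
    (T : Finset (Fin r))
    (hsep : ∀ i ∈ T, ∀ j ∈ T, i ≠ j → n i = n j → ¬ RatEq (Q i) (Q j) ∧ ¬ RatEq (Q i) (dq (n j) (Q j)))
    {H' K K' : ∀ j, ℕ → Matrix (Fin (n j)) (Fin (n j)) ℂ} {M Mi : ∀ j, Matrix (Fin (n j)) (Fin (n j)) ℂ}
    (h : ∀ j, CD (cm (Am (n j))) (cm (Bm (n j) (Q j))) (Hc (n j) (Q j)) (H' j) (K j) (K' j) (M j) (Mi j))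
    (S : Submonoid (∀ j, Matrix (Fin (n j)) (Fin (n j)) ℂ))
    (hE : ∀ c : ℂ, ∀ g ∈ S, (fun j => E (cm (Am (n j))) c * g j * E (cm (Am (n j))) (-c)) ∈ S)
    (hcl : ∀ M : ∀ j, Matrix (Fin (n j)) (Fin (n j)) (Polynomial ℂ),
      (∀ c : ℂ, c ≠ 0 → (fun j => (M j).map (Polynomial.eval c)) ∈ S) → (fun j => (M j).map (Polynomial.eval 0)) ∈ S)
    (hoff : ∀ g : (∀ j, Matrix (Fin (n j)) (Fin (n j)) ℂ), (∀ j ∈ T, g j = 1) → g ∈ S)
    (hS : ∀ s : ℂ, (fun j => if j ∈ T then 1 + s • vecMulVec (Mi j *ᵥ uc (n j)) (bb (n j) (Q j) ᵥ* M j) else 1) ∈ S)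
    (g : ∀ j, Matrix (Fin (n j)) (Fin (n j)) ℂ) (hg : ∀ j ∈ T, g j ∈ Gp (n j) (Q j)) : g ∈ S := by
  classical
  set v : ∀ j, Fin (n j) → ℂ := fun j => if j ∈ T then Mi j *ᵥ uc (n j) else 0 with hv
  set μ : ∀ j, Fin (n j) → ℂ := fun j => if j ∈ T then bb (n j) (Q j) ᵥ* M j else 0 with hμ
  have hf := fun j => unip_facts (hq j) (hq' j) (htr j) (h j)
  have hμv : ∀ j, μ j ⬝ᵥ v j = 0 := by
    intro j
    rw [hμ, hv]
    by_cases hj : j ∈ T
    · simp only [if_pos hj]
      exact (hf j).1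
    · simp only [if_neg hj, zero_dotProduct]
  have hS' : ∀ s : ℂ, (fun j => 1 + s • vecMulVec (v j) (μ j)) ∈ S := by
    intro s
    refine (congrArg (· ∈ S) ?_).mp (hS s)
    funext j
    rw [hμ, hv]
    by_cases hj : j ∈ T
    · simp only [if_pos hj]
    · simp only [if_neg hj, zero_vecMulVec, smul_zero, add_zero]
  have h1 : ∀ j ∈ T, ∀ s : ℂ, Function.update (fun _ => 1) j (1 + s • vecMulVec (v j) (μ j)) ∈ S := by
    intro j hj s
    refine sep_one r n (fun j => cm (Am (n j))) v μ S (fun j => Ac_nil) hμv hE hS' hcl j (fun i hij => ?_) s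
    have hn := (hq j).two
    by_cases hi : i ∈ T
    · refine sepU_pair hASY (hq j) (hq' j) (hq i) (hq' i) (htr j) (htr i) (h j) (h i) (fun hnn => hsep j hj i hi hij hnn)
        ?_ ?_ ?_ ?_
      · rw [hv]; simp only [if_pos hj]
      · rw [hμ]; simp only [if_pos hj]
      · rw [hv]; simp only [if_pos hi]
      · rw [hμ]; simp only [if_pos hi]
    · left
      have hz : ∀ a : ℂ, qf (cm (Am (n i))) (v i) (μ i) a = 0 := by
        intro a
        unfold qf
        rw [hμ]
        simp only [if_neg hi, zero_dotProduct]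
      set q := Pool.Agent.Run7.h225.HG.qp (cm (Am (n j))) (v j) (μ j) with hqd
      have hdeg : q.natDegree = n j - 1 := by
        refine qp_deg _ _ (by omega) ?_
        rw [hv, hμ]
        simp only [if_pos hj]
        exact (hf j).2.1
      have hq0 : q ≠ 0 := by
        intro h0
        rw [h0, Polynomial.natDegree_zero] at hdeg
        omega
      have hq1 : q.comp (-Polynomial.X) ≠ 0 := by
        intro h0
        have h2 := congrArg (fun p : Polynomial ℂ => p.comp (-Polynomial.X)) h0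
        simp only [Polynomial.comp_assoc, Polynomial.neg_comp, Polynomial.X_comp, neg_neg, Polynomial.comp_X,
          Polynomial.zero_comp] at h2
        exact hq0 h2
      by_contra hcon
      push Not at hcon
      have h3 : q * q.comp (-Polynomial.X) = 0 := by
        refine Polynomial.funext fun x => ?_
        have h4 := hcon x
        rw [hz, hz, mul_zero] at h4
        rw [Polynomial.eval_mul, Polynomial.eval_comp, Polynomial.eval_neg, Polynomial.eval_X, Polynomial.eval_zero, hqd,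
          Pool.Agent.Run7.h225.HG.qp_eval, Pool.Agent.Run7.h225.HG.qp_eval]
        exact h4
      exact (mul_ne_zero hq0 hq1) h3
  -- the blocks
  have h2 : ∀ j ∈ T, ∀ X ∈ Gp (n j) (Q j), Pi.mulSingle j X ∈ S := by
    intro j hj X hX
    have hms : ∀ X : Matrix (Fin (n j)) (Fin (n j)) ℂ,
        (Pi.mulSingle j X : ∀ j, Matrix (Fin (n j)) (Fin (n j)) ℂ) = Function.update (fun _ => 1) j X := fun X => rfl
    have h3 := grp_one hASY (hq j) (hq' j) (htr j) (hty j) (h j)
      (S.comap (MonoidHom.mulSingle (fun j => Matrix (Fin (n j)) (Fin (n j)) ℂ) j)) (fun c g hg => ?_) (fun M hM => ?_)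
      (fun s => ?_) X hX.1 hX.2
    · exact h3
    · have hg' : Pi.mulSingle j g ∈ S := hg
      show Pi.mulSingle j (E (cm (Am (n j))) c * g * E (cm (Am (n j))) (-c)) ∈ S
      refine (congrArg (· ∈ S) ?_).mp (hE c _ hg')
      funext i
      by_cases hi : i = j
      · subst hi
        rw [Pi.mulSingle_eq_same, Pi.mulSingle_eq_same]
      · rw [Pi.mulSingle_eq_of_ne hi, Pi.mulSingle_eq_of_ne hi, mul_one, E_mul_neg Ac_nil]
    · set M' : ∀ j, Matrix (Fin (n j)) (Fin (n j)) (Polynomial ℂ) := Pi.mulSingle j M with hM'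
      have e : ∀ c : ℂ, (fun i => (M' i).map (Polynomial.eval c)) = Pi.mulSingle j (M.map (Polynomial.eval c)) := by
        intro c
        funext i
        by_cases hi : i = j
        · subst hi
          rw [hM', Pi.mulSingle_eq_same, Pi.mulSingle_eq_same]
        · rw [hM', Pi.mulSingle_eq_of_ne hi, Pi.mulSingle_eq_of_ne hi]
          ext a b
          rw [Matrix.map_apply, Matrix.one_apply, Matrix.one_apply]
          split_ifs <;> simp
      have h4 := hcl M' (fun c hc => by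
        rw [e]
        exact hM c hc)
      rw [e] at h4
      exact h4
    · show Pi.mulSingle j (1 + s • vecMulVec (Mi j *ᵥ uc (n j)) (bb (n j) (Q j) ᵥ* M j)) ∈ S
      have h4 := h1 j hj s
      rw [hv, hμ] at h4
      simp only [if_pos hj] at h4
      exact h4
  refine Submonoid.pi_mem_of_mulSingle_mem g fun j => ?_
  by_cases hj : j ∈ T
  · exact h2 j hj _ (hg j hj)
  · refine hoff _ fun i hi => ?_
    have hij : i ≠ j := fun h0 => hj (h0 ▸ hi)
    exact Pi.mulSingle_eq_of_ne hij _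

end Pool.Agent.Run7.h696.CF
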