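import Pool.Agent.Run7.h696.CF.Lev1

/-!
# One singular point: all relations are invariant under the groups of the families which are singular there
-/

set_option autoImplicit false

open Matrix PowerSeries Filter Topology
open Pool.Agent.Y113 hiding Bm
open Pool.Agent.Y119.HZ
open Pool.Agent.Y119.HY (Am Jm Bm Hq cm E Hf Hc Yf Gal Rel Sol PG Lens cm_mul cm_add ec uc Ac_ec Ac_last
  cm_zero cm_one cm_transpose cm_apply Ac_nil mem_Lens symm_Lens Jm_rel conj_E E_mul_neg QD om om_eq tv cm_Bm Jc_skew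
  Jc_det Jc_rel sp_all connect tv_skew real_mem_Lens E_isom E_zero E_add ev)
open Run7.h893.HO
open Pool.Agent.Run7.h225.HG

namespace Pool.Agent.Run7.h696.CF

variable {r : ℕ} {n : Fin r → ℕ} {Q : Fin r → Polynomial ℚ} {c : Fin r → ℝ}

/-- hypergeometric families at the fibres `c_j z` -/
structure Dat {r : ℕ} (n : Fin r → ℕ) (Q : Fin r → Polynomial ℚ) (c : Fin r → ℝ) : Prop where
  q : ∀ j, QG (n j) (Q j)
  q' : ∀ j, QG (n j) (dq (n j) (Q j))
  tr : ∀ j, (Q j).coeff (n j - 1) = 0
  ty : ∀ j, QD (n j) (Q j) ∨ ¬ RatEq (Q j) (dq (n j) (Q j))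
  c0 : ∀ j, c j ≠ 0
  c1 : ∀ j, |c j| ≤ 1
  sep : ∀ i j, i ≠ j → c i = c j → n i = n j → ¬ RatEq (Q i) (Q j) ∧ ¬ RatEq (Q i) (dq (n j) (Q j))

/-- the holomorphic part: some blocks are constant -/
noncomputable def FI (n : Fin r → ℕ) (Q : Fin r → Polynomial ℚ) (c : Fin r → ℝ) (I : Finset (Fin r))
    (X : ∀ j, Matrix (Fin (n j)) (Fin (n j)) ℂ) (z : ℂ) : Matrix (Fin (∑ j, n j)) (Fin (∑ j, n j)) ℂ :=
  blk n ℂ fun j => if j ∈ I then X j else Hf (Hc (n j) (Q j)) ((c j : ℂ) * z)

/-- the exponent at `0` -/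
noncomputable def NI (n : Fin r → ℕ) (I : Finset (Fin r)) : Matrix (Fin (∑ j, n j)) (Fin (∑ j, n j)) ℂ :=
  blk n ℂ fun j => if j ∈ I then 0 else cm (Am (n j))

/-- the solution with constant blocks in `I` -/
noncomputable def ZI (n : Fin r → ℕ) (Q : Fin r → Polynomial ℚ) (c : Fin r → ℝ) (I : Finset (Fin r))
    (X : ∀ j, Matrix (Fin (n j)) (Fin (n j)) ℂ) (z : ℂ) : Matrix (Fin (∑ j, n j)) (Fin (∑ j, n j)) ℂ :=
  FI n Q c I X z * E (NI n I) (Complex.log z)

lemma blk_an {M : ℂ → ∀ j, Matrix (Fin (n j)) (Fin (n j)) ℂ} {z : ℂ}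
    (h : ∀ j a b, AnalyticAt ℂ (fun w => M w j a b) z) (a b : Fin (∑ j, n j)) :
    AnalyticAt ℂ (fun w => blk n ℂ (M w) a b) z := by
  rcases BLK.blk_cases (n := n) a b with h1 | ⟨j, i, k, h1⟩
  · simp only [h1]
    exact analyticAt_const
  · simp only [h1]
    exact h j i k

lemma mul_an {m : ℕ} {A B : ℂ → Matrix (Fin m) (Fin m) ℂ} {z : ℂ} (hA : ∀ a b, AnalyticAt ℂ (fun w => A w a b) z)
    (hB : ∀ a b, AnalyticAt ℂ (fun w => B w a b) z) (a b : Fin m) : AnalyticAt ℂ (fun w => (A w * B w) a b) z := by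
  simp only [Matrix.mul_apply]
  exact Finset.analyticAt_fun_sum _ fun l _ => (hA a l).mul (hB l b)

lemma E_an {m : ℕ} (N : Matrix (Fin m) (Fin m) ℂ) {f : ℂ → ℂ} {z : ℂ} (hf : AnalyticAt ℂ f z) (a b : Fin m) :
    AnalyticAt ℂ (fun w => E N (f w) a b) z := by
  unfold E
  simp only [Matrix.sum_apply, Matrix.smul_apply, smul_eq_mul]
  refine Finset.analyticAt_fun_sum _ fun l _ => ?_
  exact ((hf.pow l).div analyticAt_const (by exact_mod_cast l.factorial_ne_zero)).mul analyticAt_const

lemma nil_if (hn : ∀ j, 2 ≤ n j) (I : Finset (Fin r)) (N : ∀ j, Matrix (Fin (n j)) (Fin (n j)) ℂ)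
    (hN : ∀ j, N j ^ n j = 0) (j : Fin r) : (if j ∈ I then 0 else N j) ^ n j = 0 := by
  split_ifs
  · exact zero_pow (by have := hn j; omega)
  · exact hN j

lemma nil_if' (hn : ∀ j, 2 ≤ n j) (I : Finset (Fin r)) (N : ∀ j, Matrix (Fin (n j)) (Fin (n j)) ℂ)
    (hN : ∀ j, N j ^ n j = 0) (j : Fin r) : (if j ∈ I then N j else 0) ^ n j = 0 := by
  split_ifs
  · exact hN j
  · exact zero_pow (by have := hn j; omega)

lemma E_NI (hn : ∀ j, 2 ≤ n j) (I : Finset (Fin r)) (s : ℂ) :
    E (NI n I) s = blk n ℂ fun j => if j ∈ I then 1 else E (cm (Am (n j))) s := by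
  unfold NI
  rw [BLK.E_blk _ (nil_if hn I (fun j => cm (Am (n j))) fun j => Ac_nil)]
  congr 1
  funext j
  split_ifs
  · exact E_zeroN s
  · rfl

lemma NI_nil (hn : ∀ j, 2 ≤ n j) (I : Finset (Fin r)) : NI n I ^ (∑ j, n j) = 0 :=
  BLK.blk_pow_zero _ (nil_if hn I (fun j => cm (Am (n j))) fun j => Ac_nil)

lemma ZI_eq (hn : ∀ j, 2 ≤ n j) (I : Finset (Fin r)) (X : ∀ j, Matrix (Fin (n j)) (Fin (n j)) ℂ) (z : ℂ) :
    ZI n Q c I X z = blk n ℂ fun j => if j ∈ I then X j else
      Hf (Hc (n j) (Q j)) ((c j : ℂ) * z) * E (cm (Am (n j))) (Complex.log z) := by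
  unfold ZI FI
  rw [E_NI hn, ← map_mul]
  congr 1
  funext j
  rw [Pi.mul_apply]
  split_ifs
  · rw [mul_one]
  · rfl

lemma FI_an (hD : Dat n Q c) (I : Finset (Fin r)) (X : ∀ j, Matrix (Fin (n j)) (Fin (n j)) ℂ) (a b : Fin (∑ j, n j)) :
    AnalyticOnNhd ℂ (fun z => FI n Q c I X z a b) (Metric.ball 0 1) := by
  intro z hz
  unfold FI
  refine blk_an (M := fun z j => if j ∈ I then X j else Hf (Hc (n j) (Q j)) ((c j : ℂ) * z)) (fun j a b => ?_) a b
  by_cases hj : j ∈ I
  · simp only [if_pos hj]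
    exact analyticAt_const
  · simp only [if_neg hj]
    have h1 := Pool.Agent.Y119.HY.Hf_an (sol_c_g (hD.q j)) Ac_nil a b ((c j : ℂ) * z) (by
      rw [Metric.mem_ball, dist_zero_right] at hz ⊢
      rw [norm_mul, Complex.norm_real, Real.norm_eq_abs]
      have h2 := hD.c1 j
      have h3 := norm_nonneg z
      nlinarith [abs_nonneg (c j)])
    exact h1.fun_comp (analyticAt_const.mul analyticAt_id)

/-- **One singular point.** -/
theorem level (hASY : S_ASY) (hEXT : S_EXT) (hD : Dat n Q c) (I T : Finset (Fin r))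
    (X : ∀ j, Matrix (Fin (n j)) (Fin (n j)) ℂ) {c0 : ℝ} (hc0 : c0 ≠ 0) (hc1 : |c0| ≤ 1)
    (hmax : ∀ j, j ∉ I → |c j| ≤ |c0|) (hT : ∀ j, j ∈ T ↔ j ∉ I ∧ c j = c0)
    (g : ∀ j, Matrix (Fin (n j)) (Fin (n j)) ℂ) (hg : ∀ j ∈ T, g j ∈ Gp (n j) (Q j)) :
    blk n ℂ (fun j => if j ∈ T then g j else 1) ∈ Gal (ZI n Q c I X) := by
  classical
  have hn : ∀ j, 2 ≤ n j := fun j => (hD.q j).two
  -- local data
  have hCD := fun j => p_CON (n j) _ _ _ Ac_nil (nB0 (hn j) (hD.tr j)) (sol_c_g (hD.q j))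
  choose H' K K' M Mi h using hCD
  have hF := fun j => hEXT (n j) _ _ _ Ac_nil (sol_c_g (hD.q j))
  choose Fx hFx hFa using hF
  -- the monoid
  set Y := ZI n Q c I X with hY
  set S0 : Submonoid (∀ j, Matrix (Fin (n j)) (Fin (n j)) ℂ) := (Gal Y).comap (blk n ℂ : _ →* _) with hS0
  have mS0 : ∀ g, g ∈ S0 ↔ blk n ℂ g ∈ Gal Y := fun _ => Iff.rfl
  set R : (∀ j, Matrix (Fin (n j)) (Fin (n j)) ℂ) →* (∀ j, Matrix (Fin (n j)) (Fin (n j)) ℂ) :=
    { toFun := fun g j => if j ∈ T then g j else 1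
      map_one' := by
        funext j
        simp only [Pi.one_apply, ite_self]
      map_mul' := fun g h => by
        funext j
        simp only [Pi.mul_apply]
        split_ifs
        · rfl
        · rw [mul_one] } with hR
  have hRa : ∀ g j, R g j = if j ∈ T then g j else 1 := fun _ _ => rfl
  set S := S0.comap R with hS
  have mS : ∀ g, g ∈ S ↔ blk n ℂ (fun j => if j ∈ T then g j else 1) ∈ Gal Y := fun _ => Iff.rfl
  rw [← mS]
  -- conjugation
  have hconj : ∀ (s : ℂ) (g : ∀ j, Matrix (Fin (n j)) (Fin (n j)) ℂ), g ∈ S0 →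
      (fun j => if j ∈ I then g j else E (cm (Am (n j))) s * g j * E (cm (Am (n j))) (-s)) ∈ S0 := by
    intro s g hg
    have h1 := gconj (NI_nil hn I) (FI_an hD I X) s (blk n ℂ g) hg
    rw [E_NI hn, E_NI hn, ← map_mul, ← map_mul] at h1
    refine (congrArg (· ∈ Gal Y) (congrArg (blk n ℂ) ?_)).mp h1
    funext j
    rw [Pi.mul_apply, Pi.mul_apply]
    split_ifs
    · rw [one_mul, mul_one]
    · rfl
  refine grp_level hASY hD.q hD.q' hD.tr hD.ty T (fun i hi j hj hij => ?_) h S (fun s g hg => ?_) (fun P hP => ?_)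
    (fun g hg => ?_) (fun s => ?_) g hg
  · exact hD.sep i j hij (((hT i).1 hi).2.trans ((hT j).1 hj).2.symm)
  · have h1 := hconj s _ ((mS g).1 hg)
    rw [mS]
    refine (congrArg (· ∈ Gal Y) (congrArg (blk n ℂ) ?_)).mp h1
    funext j
    by_cases hj : j ∈ T
    · simp only [if_pos hj, if_neg ((hT j).1 hj).1]
    · simp only [if_neg hj, mul_one]
      split_ifs
      · rfl
      · exact E_mul_neg Ac_nil s
  · have e : ∀ s : ℂ, (blk n (Polynomial ℂ) (fun j => if j ∈ T then P j else 1)).map (Polynomial.eval s) =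
        blk n ℂ (fun j => if j ∈ T then (P j).map (Polynomial.eval s) else 1) := by
      intro s
      rw [BLK.blk_map _ (Polynomial.eval_zero)]
      congr 1
      funext j
      split_ifs
      · rfl
      · ext a b
        rw [Matrix.map_apply, Matrix.one_apply, Matrix.one_apply]
        split_ifs <;> simp
    have h1 := Pool.Agent.Y119.HY.Gal_closed Y (blk n (Polynomial ℂ) fun j => if j ∈ T then P j else 1) (fun s hs => by
      rw [e]
      exact hP s hs)
    rw [e] at h1
    exact h1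
  · rw [mS]
    have h1 : (fun j => if j ∈ T then g j else 1) = 1 := by
      funext j
      split_ifs with hj
      · exact hg j hj
      · rfl
    rw [h1, map_one]
    exact (Gal Y).one_mem
  · -- the local monodromy
    set b : ℂ := ((1 / c0 : ℝ) : ℂ) with hb
    have hbn : ‖b‖ = 1 / |c0| := by
      rw [hb, Complex.norm_real, Real.norm_eq_abs, abs_div, abs_one]
    have hc0' : 0 < |c0| := abs_pos.2 hc0
    have hb1 : 1 ≤ ‖b‖ := by
      rw [hbn, le_div_iff₀ hc0', one_mul]
      exact hc1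
    have hbi : 1 / ‖b‖ = |c0| := by
      rw [hbn, one_div_one_div]
    set ζ : Fin r → ℝ := fun j => c j / c0 with hζ
    have hζ1 : ∀ j, j ∉ I → |ζ j| ≤ 1 := by
      intro j hj
      rw [hζ]
      simp only
      rw [abs_div, div_le_one hc0']
      exact hmax j hj
    have hζT : ∀ j ∈ T, ζ j = 1 := by
      intro j hj
      rw [hζ]
      simp only
      rw [((hT j).1 hj).2, div_self hc0]
    have hζn : ∀ j, j ∉ I → j ∉ T → ζ j < 1 := by
      intro j hj hj'
      refine lt_of_le_of_ne (le_of_abs_le (hζ1 j hj)) fun h1 => hj' ((hT j).2 ⟨hj, ?_⟩)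
      rw [hζ] at h1
      simp only at h1
      rwa [div_eq_one_iff_eq hc0] at h1
    -- the radius
    obtain ⟨ρ, hρ0, hρ1, hρ⟩ : ∃ ρ : ℝ, 0 < ρ ∧ ρ ≤ 1 ∧ ∀ j, j ∉ I → j ∉ T → ζ j * (1 + ρ) < 1 := by
      have h1 : ∀ᶠ ρ : ℝ in 𝓝 0, ∀ j, j ∉ I → j ∉ T → ζ j * (1 + ρ) < 1 := by
        rw [eventually_all]
        intro j
        by_cases hj : j ∉ I ∧ j ∉ T
        · have h2 : Tendsto (fun ρ : ℝ => ζ j * (1 + ρ)) (𝓝 0) (𝓝 (ζ j * (1 + 0))) :=
            (tendsto_const_nhds.mul (tendsto_const_nhds.add tendsto_id))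
          have h3 : ζ j * (1 + 0) < 1 := by rw [add_zero, mul_one]; exact hζn j hj.1 hj.2
          filter_upwards [h2.eventually (gt_mem_nhds h3)] with ρ hρ _ _
          exact hρ
        · exact Eventually.of_forall fun ρ h3 h4 => absurd ⟨h3, h4⟩ hj
      have h2 : ∀ᶠ ρ : ℝ in 𝓝[>] 0, 0 < ρ ∧ ρ ≤ 1 ∧ ∀ j, j ∉ I → j ∉ T → ζ j * (1 + ρ) < 1 := by
        filter_upwards [self_mem_nhdsWithin, nhdsWithin_le_nhds h1,
          nhdsWithin_le_nhds (gt_mem_nhds (show (0 : ℝ) < 1 by norm_num))] with ρ h3 h4 h5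
        exact ⟨h3, h5.le, h4⟩
      exact h2.exists
    have hcj : ∀ j, ∀ z : ℂ, (c j : ℂ) * (b * z) = (ζ j : ℂ) * z := by
      intro j z
      rw [hb, hζ]
      push_cast
      ring
    have hlog1 : ∀ w : ℂ, ‖w‖ < 1 → AnalyticAt ℂ (fun w : ℂ => Complex.log (1 - w)) w := fun w hw =>
      AnalyticAt.clog (analyticAt_const.sub analyticAt_id) (by
        left
        have h1 : w.re ≤ ‖w‖ := Complex.re_le_norm _
        show 0 < (1 - w).re
        rw [Complex.sub_re, Complex.one_re]
        linarith)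
    set N2 : Matrix (Fin (∑ j, n j)) (Fin (∑ j, n j)) ℂ := blk n ℂ fun j => if j ∈ T then -cm (Bm (n j) (Q j)) else 0
      with hN2
    have hN2n : ∀ j, (if j ∈ T then -cm (Bm (n j) (Q j)) else 0) ^ n j = 0 :=
      nil_if' hn T (fun j => -cm (Bm (n j) (Q j))) fun j => nB0 (hn j) (hD.tr j)
    have hEN2 : ∀ s : ℂ, E N2 s = blk n ℂ fun j => if j ∈ T then 1 + (-s) • cm (Bm (n j) (Q j)) else 1 := by
      intro s
      rw [hN2, BLK.E_blk _ hN2n]
      congr 1
      funext j
      split_ifs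
      · exact E_nB (hn j) (hD.tr j) s
      · exact E_zeroN s
    set MM : ∀ j, Matrix (Fin (n j)) (Fin (n j)) ℂ := fun j =>
      if j ∈ T then M j * E (cm (Am (n j))) (Complex.log b) else 1 with hMM
    set MMi : ∀ j, Matrix (Fin (n j)) (Fin (n j)) ℂ := fun j =>
      if j ∈ T then E (cm (Am (n j))) (-Complex.log b) * Mi j else 1 with hMMi
    have hMM1 : blk n ℂ MM * blk n ℂ MMi = 1 := by
      rw [← map_mul, ← map_one (blk n ℂ)]
      congr 1
      funext j
      rw [Pi.mul_apply, Pi.one_apply, hMM, hMMi]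
      by_cases hj : j ∈ T
      · simp only [if_pos hj]
        rw [Matrix.mul_assoc, ← Matrix.mul_assoc (E (cm (Am (n j))) (Complex.log b)), E_mul_neg Ac_nil, one_mul, (h j).l]
      · simp only [if_neg hj, mul_one]
    set G : ℂ → ∀ j, Matrix (Fin (n j)) (Fin (n j)) ℂ := fun w j =>
      if j ∈ I then X j else if j ∈ T then Hf (K j) w else
        Fx j ((ζ j : ℂ) * (1 - w)) * E (cm (Am (n j))) (Complex.log (1 - w) + Complex.log b) with hG
    set Yx : ℂ → ∀ j, Matrix (Fin (n j)) (Fin (n j)) ℂ := fun x j =>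
      if j ∈ I then X j else Fx j ((ζ j : ℂ) * x) * E (cm (Am (n j))) (Complex.log x + Complex.log b) with hYx
    have hTI : ∀ j ∈ T, j ∉ I := fun j hj => ((hT j).1 hj).1
    have key := gloc2 (N0 := NI n I) (NI_nil hn I) (F := FI n Q c I X) (FI_an hD I X) hb1 hρ0 hρ1
      (Yx := fun x => blk n ℂ (Yx x)) (fun x hx hx1 => blk_an fun j a b' => ?_) (fun x hx hx1 => ?_)
      (G := fun w => blk n ℂ (G w)) (fun a b' w hw => blk_an (fun j a b' => ?_) a b') (N2 := N2)
      (BLK.blk_pow_zero _ hN2n) hMM1 (fun y hy hy1 => ?_) (-s)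
    · -- conclusion
      rw [hEN2, ← map_mul, ← map_mul] at key
      have h1 := hconj (Complex.log b) _ key
      rw [mS]
      refine (congrArg (· ∈ Gal Y) (congrArg (blk n ℂ) ?_)).mp h1
      funext j
      rw [Pi.mul_apply, Pi.mul_apply]
      by_cases hj : j ∈ T
      · have e1 : E (cm (Am (n j))) (Complex.log b) * E (cm (Am (n j))) (-Complex.log b) = 1 := E_mul_neg Ac_nil _
        simp only [if_pos hj, if_neg (hTI j hj), hMM, hMMi, neg_neg]
        rw [← XX_vec]
        unfold XX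
        calc E (cm (Am (n j))) (Complex.log b) * (E (cm (Am (n j))) (-Complex.log b) * Mi j *
              (1 + s • cm (Bm (n j) (Q j))) * (M j * E (cm (Am (n j))) (Complex.log b))) * E (cm (Am (n j))) (-Complex.log b)
            = (E (cm (Am (n j))) (Complex.log b) * E (cm (Am (n j))) (-Complex.log b)) * (Mi j *
              (1 + s • cm (Bm (n j) (Q j))) * M j) * (E (cm (Am (n j))) (Complex.log b) *
              E (cm (Am (n j))) (-Complex.log b)) := by simp only [Matrix.mul_assoc]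
          _ = Mi j * (1 + s • cm (Bm (n j) (Q j))) * M j := by rw [e1, one_mul, mul_one]
          _ = _ := by
            rw [mul_add, mul_one, add_mul, (h j).r, mul_smul_comm, smul_mul_assoc]
      · simp only [if_neg hj, hMM, hMMi, mul_one]
        split_ifs
        · rfl
        · exact E_mul_neg Ac_nil _
    · -- analyticity on the interval
      rw [hYx]
      by_cases hj : j ∈ I
      · simp only [if_pos hj]
        exact analyticAt_const
      · simp only [if_neg hj]
        refine mul_an (A := fun x => Fx j ((ζ j : ℂ) * x)) (fun a b' => ?_) (fun a b' => ?_) a b'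
        · have h1 := hFa j ((ζ j : ℂ) * x) (Or.inl (by
            rw [norm_mul, Complex.norm_real, Complex.norm_real, Real.norm_eq_abs, Real.norm_of_nonneg hx.le]
            have := hζ1 j hj
            nlinarith [abs_nonneg (ζ j)])) a b'
          exact h1.fun_comp (analyticAt_const.mul analyticAt_id)
        · refine E_an _ ((analyticAt_clog ?_).add analyticAt_const) a b'
          left
          rw [Complex.ofReal_re]
          exact hx
    · -- the solution
      rw [hbi] at hx1
      show blk n ℂ (Yx x) = _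
      unfold FI
      rw [E_NI hn, ← map_mul]
      congr 1
      funext j
      rw [Pi.mul_apply, hYx]
      by_cases hj : j ∈ I
      · simp only [if_pos hj, mul_one]
      · simp only [if_neg hj]
        rw [hcj, hFx j _ (by
          rw [norm_mul, Complex.norm_real, Complex.norm_real, Real.norm_eq_abs, Real.norm_of_nonneg hx.le]
          have := hζ1 j hj
          nlinarith [abs_nonneg (ζ j)])]
    · -- analyticity near the singular point
      rw [Metric.mem_ball, dist_zero_right] at hw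
      have hw1 : ‖w‖ < 1 := lt_of_lt_of_le hw hρ1
      rw [hG]
      by_cases hj : j ∈ I
      · simp only [if_pos hj]
        exact analyticAt_const
      · by_cases hj' : j ∈ T
        · simp only [if_neg hj, if_pos hj']
          exact Pool.Agent.Y119.HY.Hf_an (h j).hK (nB0 (hn j) (hD.tr j)) a b' w (by
            rwa [Metric.mem_ball, dist_zero_right])
        · simp only [if_neg hj, if_neg hj']
          refine mul_an (A := fun w => Fx j ((ζ j : ℂ) * (1 - w))) (fun a b' => ?_) (fun a b' => ?_) a b'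
          · have h1 := hFa j ((ζ j : ℂ) * (1 - w)) (by
              by_cases hpos : 0 < ζ j
              · left
                rw [norm_mul, Complex.norm_real, Real.norm_of_nonneg hpos.le]
                have h3 : ‖1 - w‖ ≤ 1 + ρ := by
                  refine (norm_sub_le _ _).trans ?_
                  rw [norm_one]
                  linarith
                exact lt_of_le_of_lt (mul_le_mul_of_nonneg_left h3 hpos.le) (hρ j hj hj')
              · right
                rw [Complex.re_ofReal_mul, Complex.sub_re, Complex.one_re]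
                have h3 : w.re ≤ ‖w‖ := Complex.re_le_norm _
                have h4 : 0 ≤ 1 - w.re := by linarith
                have h5 : ζ j * (1 - w.re) ≤ 0 := mul_nonpos_of_nonpos_of_nonneg (not_lt.1 hpos) h4
                linarith) a b'
            have h6 : AnalyticAt ℂ (fun w : ℂ => (ζ j : ℂ) * (1 - w)) w :=
              analyticAt_const.mul (analyticAt_const.sub analyticAt_id)
            exact AnalyticAt.fun_comp (g := fun w => Fx j w a b') (f := fun w : ℂ => (ζ j : ℂ) * (1 - w)) h1 h6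
          · exact E_an _ ((hlog1 w hw1).add analyticAt_const) a b'
    · -- the local form
      have hy1' : y < 1 := lt_of_lt_of_le hy1 hρ1
      rw [hEN2, ← map_mul, ← map_mul]
      show blk n ℂ (Yx _) = _
      congr 1
      funext j
      rw [Pi.mul_apply, Pi.mul_apply, hYx, hG, hMM]
      by_cases hj : j ∈ I
      · have hj' : j ∉ T := fun h1 => hTI j h1 hj
        simp only [if_pos hj, if_neg hj', mul_one]
      · by_cases hj' : j ∈ T
        · simp only [if_neg hj, if_pos hj']
          have hz : (((1 - y : ℝ)) : ℂ) ∈ Lens := real_mem_Lens (by linarith) (by linarith)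
          have h1 := (h j).con _ hz
          rw [hζT j hj', Complex.ofReal_one, one_mul, hFx j _ (mem_Lens.1 hz).1, E_add Ac_nil, ← Matrix.mul_assoc,
            ← Matrix.mul_assoc]
          have h2 : (1 - (((1 - y : ℝ)) : ℂ)) = (y : ℂ) := by push_cast; ring
          rw [h2] at h1
          unfold Yf at h1
          rw [h1, E_nB (hn j) (hD.tr j)]
        · simp only [if_neg hj, if_neg hj', mul_one]
          push_cast
          rfl

end Pool.Agent.Run7.h696.CF
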