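import Pool.Agent.Run7.h696.CF.MonoB
import Pool.Agent.Run7.h696.CF.Fun

/-!
# Fibres `c z / (1 - g z)`: one singular point
-/

set_option autoImplicit false

open Matrix PowerSeries Filter Topology
open Pool.Agent.Y113 hiding Bm
open Pool.Agent.Y119.HZ
open Pool.Agent.Y119.HY (Am Jm Bm Hq cm E Hf Hc Yf Gal Rel Sol PG Lens cm_mul cm_add ec uc Ac_ec Ac_last
  cm_zero cm_one cm_transpose cm_apply Ac_nil mem_Lens symm_Lens Jm_rel conj_E E_mul_neg QD om om_eq tv cm_Bm Jc_skew
  Jc_det Jc_rel sp_all connect tv_skew real_mem_Lens E_isom E_zero E_add ev)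
open Run7.h893.HO
open Pool.Agent.Run7.h225.HG

namespace Pool.Agent.Run7.h696.CF

/-! ### Moebius transformations -/

lemma reg0 {γ η : ℝ} {u : ℂ} (h : (|γ| + |η|) * ‖u‖ < 1) :
    (1 - (η : ℂ) * u) ∈ Complex.slitPlane ∧ ‖(γ : ℂ) * u / (1 - (η : ℂ) * u)‖ < 1 := by
  have h1 : ‖(η : ℂ) * u‖ = |η| * ‖u‖ := by rw [norm_mul, Complex.norm_real, Real.norm_eq_abs]
  have h2 : ((η : ℂ) * u).re ≤ |η| * ‖u‖ := h1 ▸ Complex.re_le_norm _
  have h0 : 0 ≤ |γ| * ‖u‖ := by positivity
  have h3 : 1 - |η| * ‖u‖ ≤ ‖1 - (η : ℂ) * u‖ := by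
    have := norm_sub_norm_le (1 : ℂ) ((η : ℂ) * u)
    rw [norm_one, h1] at this
    exact this
  have h4 : |γ| * ‖u‖ < 1 - |η| * ‖u‖ := by
    have : (|γ| + |η|) * ‖u‖ = |γ| * ‖u‖ + |η| * ‖u‖ := by ring
    linarith
  refine ⟨?_, ?_⟩
  · left
    rw [Complex.sub_re, Complex.one_re]
    linarith
  · rw [norm_div, norm_mul, Complex.norm_real, Real.norm_eq_abs, div_lt_one (by linarith)]
    linarith

lemma reg {γ η : ℝ} (hγ : γ ≠ 0) (hγη : 0 ≤ γ * η) {u : ℂ} (hu : 0 < u.re) (h : 0 < γ → (γ + η) * ‖u‖ < 1) :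
    (1 - (η : ℂ) * u) ∈ Complex.slitPlane ∧
      (‖(γ : ℂ) * u / (1 - (η : ℂ) * u)‖ < 1 ∨ ((γ : ℂ) * u / (1 - (η : ℂ) * u)).re < 1 / 2) := by
  rcases lt_or_gt_of_ne hγ with hneg | hpos
  · have hη : η ≤ 0 := by
      by_contra h1
      push Not at h1
      nlinarith
    have h1 : 0 < (1 - (η : ℂ) * u).re := by
      rw [Complex.sub_re, Complex.one_re, Complex.re_ofReal_mul]
      nlinarith
    refine ⟨Or.inl h1, Or.inr ?_⟩
    have h2 : ((γ : ℂ) * u / (1 - (η : ℂ) * u)).re =
        (γ * u.re - γ * η * Complex.normSq u) / Complex.normSq (1 - (η : ℂ) * u) := by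
      rw [Complex.div_re, ← add_div]
      congr 1
      simp only [Complex.mul_re, Complex.mul_im, Complex.ofReal_re, Complex.ofReal_im, Complex.sub_re, Complex.sub_im,
        Complex.one_re, Complex.one_im, Complex.normSq_apply]
      ring
    rw [h2]
    have h3 : 0 < Complex.normSq (1 - (η : ℂ) * u) := by
      rw [Complex.normSq_pos]
      intro h0
      rw [h0, Complex.zero_re] at h1
      exact lt_irrefl _ h1
    have h4 : γ * u.re - γ * η * Complex.normSq u ≤ 0 := by
      have h5 : γ * u.re < 0 := mul_neg_of_neg_of_pos hneg hu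
      have h6 : 0 ≤ γ * η * Complex.normSq u := mul_nonneg hγη (Complex.normSq_nonneg _)
      linarith
    have h5 := div_nonpos_of_nonpos_of_nonneg h4 h3.le
    linarith
  · have hη : 0 ≤ η := by
      by_contra h1
      push Not at h1
      nlinarith
    have h1 := reg0 (γ := γ) (η := η) (u := u) (by rw [abs_of_pos hpos, abs_of_nonneg hη]; exact h hpos)
    exact ⟨h1.1, Or.inl h1.2⟩

/-- analyticity of a pulled back family -/
lemma W_an {m : ℕ} {Fx : ℂ → Matrix (Fin m) (Fin m) ℂ} {N : Matrix (Fin m) (Fin m) ℂ}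
    (hFa : ∀ z : ℂ, ‖z‖ < 1 ∨ z.re < 1 / 2 → ∀ i j, AnalyticAt ℂ (fun w => Fx w i j) z) {γ η : ℝ} {u : ℂ}
    (h : (1 - (η : ℂ) * u) ∈ Complex.slitPlane ∧
      (‖(γ : ℂ) * u / (1 - (η : ℂ) * u)‖ < 1 ∨ ((γ : ℂ) * u / (1 - (η : ℂ) * u)).re < 1 / 2)) (a b : Fin m) :
    AnalyticAt ℂ (fun u => (Fx ((γ : ℂ) * u / (1 - (η : ℂ) * u)) * E N (-Complex.log (1 - (η : ℂ) * u))) a b) u := by
  have h1 : AnalyticAt ℂ (fun u : ℂ => 1 - (η : ℂ) * u) u := analyticAt_const.sub (analyticAt_const.mul analyticAt_id)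
  have h0 : (1 - (η : ℂ) * u) ≠ 0 := Complex.slitPlane_ne_zero h.1
  have h2 : AnalyticAt ℂ (fun u : ℂ => (γ : ℂ) * u / (1 - (η : ℂ) * u)) u := (analyticAt_const.mul analyticAt_id).div h1 h0
  refine mul_an (A := fun u => Fx ((γ : ℂ) * u / (1 - (η : ℂ) * u))) (fun a b => ?_) (fun a b => ?_) a b
  · exact AnalyticAt.fun_comp (g := fun w => Fx w a b) (f := fun u : ℂ => (γ : ℂ) * u / (1 - (η : ℂ) * u))
      (hFa _ h.2 a b) h2
  · exact E_an _ (h1.clog h.1).neg a b

variable {r : ℕ} {n : Fin r → ℕ} {Q : Fin r → Polynomial ℚ} {g c : Fin r → ℝ} {L : ℝ}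

/-- hypergeometric families at the fibres `c_j z / (1 - g_j z)` -/
structure DatL {r : ℕ} (n : Fin r → ℕ) (Q : Fin r → Polynomial ℚ) (g c : Fin r → ℝ) (L : ℝ) : Prop where
  q : ∀ j, QG (n j) (Q j)
  q' : ∀ j, QG (n j) (dq (n j) (Q j))
  tr : ∀ j, (Q j).coeff (n j - 1) = 0
  ty : ∀ j, QD (n j) (Q j) ∨ ¬ RatEq (Q j) (dq (n j) (Q j))
  c0 : ∀ j, c j ≠ 0
  gc : ∀ j, 0 ≤ c j * g j
  L0 : 0 < L
  cL : ∀ j, |c j| + |g j| ≤ L
  sep : ∀ i j, i ≠ j → c i + g i = c j + g j → n i = n j → ¬ RatEq (Q i) (Q j) ∧ ¬ RatEq (Q i) (dq (n j) (Q j))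

/-- the holomorphic part of a pulled back family -/
noncomputable def Fj (n : ℕ) (Q : Polynomial ℚ) (g c : ℝ) (z : ℂ) : Matrix (Fin n) (Fin n) ℂ :=
  Hf (Hc n Q) ((c : ℂ) * z / (1 - (g : ℂ) * z)) * E (cm (Am n)) (-Complex.log (1 - (g : ℂ) * z))

/-- the holomorphic part: some blocks are constant -/
noncomputable def FIB (n : Fin r → ℕ) (Q : Fin r → Polynomial ℚ) (g c : Fin r → ℝ) (I : Finset (Fin r))
    (X : ∀ j, Matrix (Fin (n j)) (Fin (n j)) ℂ) (z : ℂ) : Matrix (Fin (∑ j, n j)) (Fin (∑ j, n j)) ℂ :=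
  blk n ℂ fun j => if j ∈ I then X j else Fj (n j) (Q j) (g j) (c j) z

/-- the solution with constant blocks in `I` -/
noncomputable def ZIB (n : Fin r → ℕ) (Q : Fin r → Polynomial ℚ) (g c : Fin r → ℝ) (I : Finset (Fin r))
    (X : ∀ j, Matrix (Fin (n j)) (Fin (n j)) ℂ) (z : ℂ) : Matrix (Fin (∑ j, n j)) (Fin (∑ j, n j)) ℂ :=
  FIB n Q g c I X z * E (NI n I) (Complex.log z)

lemma ZIB_eq (hn : ∀ j, 2 ≤ n j) (I : Finset (Fin r)) (X : ∀ j, Matrix (Fin (n j)) (Fin (n j)) ℂ) (z : ℂ) :
    ZIB n Q g c I X z = blk n ℂ fun j => if j ∈ I then X j else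
      Fj (n j) (Q j) (g j) (c j) z * E (cm (Am (n j))) (Complex.log z) := by
  unfold ZIB FIB
  rw [E_NI hn, ← map_mul]
  congr 1
  funext j
  rw [Pi.mul_apply]
  split_ifs
  · rw [mul_one]
  · rfl

lemma Lsmall (hL : 0 < L) {γ η : ℝ} (h : |γ| + |η| ≤ L) {z : ℂ} (hz : ‖z‖ < 1 / L) : (|γ| + |η|) * ‖z‖ < 1 := by
  rw [lt_div_iff₀ hL] at hz
  have h1 : (|γ| + |η|) * ‖z‖ ≤ L * ‖z‖ := mul_le_mul_of_nonneg_right h (norm_nonneg _)
  linarith [mul_comm L ‖z‖]

lemma FIB_an (hD : DatL n Q g c L) (I : Finset (Fin r)) (X : ∀ j, Matrix (Fin (n j)) (Fin (n j)) ℂ)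
    (a b : Fin (∑ j, n j)) : AnalyticOnNhd ℂ (fun z => FIB n Q g c I X z a b) (Metric.ball 0 (1 / L)) := by
  intro z hz
  rw [Metric.mem_ball, dist_zero_right] at hz
  unfold FIB
  refine blk_an (M := fun z j => if j ∈ I then X j else Fj (n j) (Q j) (g j) (c j) z) (fun j a b => ?_) a b
  by_cases hj : j ∈ I
  · simp only [if_pos hj]
    exact analyticAt_const
  · simp only [if_neg hj]
    have h1 := reg0 (Lsmall hD.L0 (hD.cL j) hz)
    unfold Fj
    have h3 : AnalyticAt ℂ (fun u : ℂ => 1 - (g j : ℂ) * u) z :=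
      analyticAt_const.sub (analyticAt_const.mul analyticAt_id)
    have h0 : (1 - (g j : ℂ) * z) ≠ 0 := Complex.slitPlane_ne_zero h1.1
    have h2 : AnalyticAt ℂ (fun u : ℂ => (c j : ℂ) * u / (1 - (g j : ℂ) * u)) z :=
      (analyticAt_const.mul analyticAt_id).div h3 h0
    refine mul_an (A := fun u => Hf (Hc (n j) (Q j)) ((c j : ℂ) * u / (1 - (g j : ℂ) * u))) (fun a b => ?_)
      (fun a b => ?_) a b
    · exact AnalyticAt.fun_comp (g := fun w => Hf (Hc (n j) (Q j)) w a b)
        (f := fun u : ℂ => (c j : ℂ) * u / (1 - (g j : ℂ) * u))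
        (Pool.Agent.Y119.HY.Hf_an (sol_c_g (hD.q j)) Ac_nil a b _ (by rw [Metric.mem_ball, dist_zero_right]; exact h1.2)) h2
    · exact E_an _ (h3.clog h1.1).neg a b

/-- **One singular point.** -/
theorem levelB (hASY : S_ASY) (hEXT : S_EXT) (hD : DatL n Q g c L) (I T : Finset (Fin r))
    (X : ∀ j, Matrix (Fin (n j)) (Fin (n j)) ℂ) {s0 : ℝ} (hs0 : s0 ≠ 0) (hsL : |s0| ≤ L)
    (hmax : ∀ j, j ∉ I → |c j + g j| ≤ |s0|) (hT : ∀ j, j ∈ T ↔ j ∉ I ∧ c j + g j = s0)
    (x : ∀ j, Matrix (Fin (n j)) (Fin (n j)) ℂ) (hx : ∀ j ∈ T, x j ∈ Gp (n j) (Q j)) :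
    blk n ℂ (fun j => if j ∈ T then x j else 1) ∈ GalM L (ZIB n Q g c I X) := by
  classical
  have hn : ∀ j, 2 ≤ n j := fun j => (hD.q j).two
  -- local data
  have hCD := fun j => p_CON (n j) _ _ _ Ac_nil (nB0 (hn j) (hD.tr j)) (sol_c_g (hD.q j))
  choose H' K K' M Mi h using hCD
  have hF := fun j => hEXT (n j) _ _ _ Ac_nil (sol_c_g (hD.q j))
  choose Fx hFx hFa using hF
  -- the direction
  set b : ℂ := ((1 / s0 : ℝ) : ℂ) with hb
  have hs0' : 0 < |s0| := abs_pos.2 hs0
  have hbn : ‖b‖ = 1 / |s0| := by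
    rw [hb, Complex.norm_real, Real.norm_eq_abs, abs_div, abs_one]
  have hb1 : 1 ≤ L * ‖b‖ := by
    rw [hbn, mul_one_div, le_div_iff₀ hs0', one_mul]
    exact hsL
  set γ : Fin r → ℝ := fun j => c j / s0 with hγ
  set η : Fin r → ℝ := fun j => g j / s0 with hη
  have hγ0 : ∀ j, γ j ≠ 0 := fun j => div_ne_zero (hD.c0 j) hs0
  have hγη : ∀ j, 0 ≤ γ j * η j := by
    intro j
    have e : γ j * η j = (c j * g j) / s0 ^ 2 := by
      rw [hγ, hη]
      field_simp
    rw [e]
    exact div_nonneg (hD.gc j) (sq_nonneg _)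
  have hσ : ∀ j, j ∉ I → γ j + η j ≤ 1 := by
    intro j hj
    have e : γ j + η j = (c j + g j) / s0 := by rw [hγ, hη]; ring
    rw [e]
    refine le_of_abs_le ?_
    rw [abs_div, div_le_one hs0']
    exact hmax j hj
  have hσT : ∀ j ∈ T, γ j + η j = 1 := by
    intro j hj
    have e : γ j + η j = (c j + g j) / s0 := by rw [hγ, hη]; ring
    rw [e, ((hT j).1 hj).2, div_self hs0]
  have hσn : ∀ j, j ∉ I → j ∉ T → γ j + η j < 1 := by
    intro j hj hj'
    refine lt_of_le_of_ne (hσ j hj) fun h1 => hj' ((hT j).2 ⟨hj, ?_⟩)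
    have e : γ j + η j = (c j + g j) / s0 := by rw [hγ, hη]; ring
    rw [e, div_eq_one_iff_eq hs0] at h1
    exact h1
  have hγT : ∀ j ∈ T, 0 < γ j ∧ 0 ≤ η j := by
    intro j hj
    have h1 := hσT j hj
    have h2 := hγη j
    rcases lt_or_gt_of_ne (hγ0 j) with h3 | h3
    · exfalso
      have h4 : η j ≤ 0 := by
        by_contra h5
        push Not at h5
        nlinarith
      linarith
    · refine ⟨h3, ?_⟩
      by_contra h5
      push Not at h5
      nlinarith
  -- the monoid
  set Y := ZIB n Q g c I X with hY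
  set S0 : Submonoid (∀ j, Matrix (Fin (n j)) (Fin (n j)) ℂ) := (GalM L Y).comap (blk n ℂ : _ →* _) with hS0
  set R : (∀ j, Matrix (Fin (n j)) (Fin (n j)) ℂ) →* (∀ j, Matrix (Fin (n j)) (Fin (n j)) ℂ) :=
    { toFun := fun x j => if j ∈ T then x j else 1
      map_one' := by
        funext j
        simp only [Pi.one_apply, ite_self]
      map_mul' := fun x h => by
        funext j
        simp only [Pi.mul_apply]
        split_ifs
        · rfl
        · rw [mul_one] } with hR
  -- conjugation by constants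
  set θ : Fin r → ℂ := fun j => Complex.log (γ j) with hθ
  have hEE : ∀ j (s : ℂ), E (cm (Am (n j))) (-s) * E (cm (Am (n j))) s = 1 := fun j s => by
    have := E_mul_neg (Ac_nil (n := n j)) (-s)
    rwa [neg_neg] at this
  set Θ : (∀ j, Matrix (Fin (n j)) (Fin (n j)) ℂ) →* (∀ j, Matrix (Fin (n j)) (Fin (n j)) ℂ) :=
    { toFun := fun x j => E (cm (Am (n j))) (θ j) * x j * E (cm (Am (n j))) (-θ j)
      map_one' := by
        funext j
        simp only [Pi.one_apply, mul_one]
        exact E_mul_neg Ac_nil _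
      map_mul' := fun x h => by
        funext j
        simp only [Pi.mul_apply]
        calc E (cm (Am (n j))) (θ j) * (x j * h j) * E (cm (Am (n j))) (-θ j) =
              E (cm (Am (n j))) (θ j) * x j * 1 * h j * E (cm (Am (n j))) (-θ j) := by
              simp only [Matrix.mul_assoc, Matrix.one_mul]
          _ = _ := by
            rw [← hEE j (θ j)]
            simp only [Matrix.mul_assoc] } with hΘ
  set S := (S0.comap R).comap Θ with hS
  have mS : ∀ x, x ∈ S ↔ blk n ℂ (fun j => if j ∈ T then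
      E (cm (Am (n j))) (θ j) * x j * E (cm (Am (n j))) (-θ j) else 1) ∈ GalM L Y := fun _ => Iff.rfl
  -- reduction to `S`
  suffices hmain : ∀ x : (∀ j, Matrix (Fin (n j)) (Fin (n j)) ℂ), (∀ j ∈ T, x j ∈ Gp (n j) (Q j)) → x ∈ S by
    have h1 := hmain (fun j => E (cm (Am (n j))) (-θ j) * x j * E (cm (Am (n j))) (θ j))
      (fun j hj => Gp_mul (Gp_mul (Gp_E (hD.q j) _) (hx j hj)) (Gp_E (hD.q j) _))
    rw [mS] at h1
    refine (congrArg (· ∈ GalM L Y) (congrArg (blk n ℂ) ?_)).mp h1
    funext j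
    split_ifs with hj
    · calc E (cm (Am (n j))) (θ j) * (E (cm (Am (n j))) (-θ j) * x j * E (cm (Am (n j))) (θ j)) *
            E (cm (Am (n j))) (-θ j) = (E (cm (Am (n j))) (θ j) * E (cm (Am (n j))) (-θ j)) * x j *
            (E (cm (Am (n j))) (θ j) * E (cm (Am (n j))) (-θ j)) := by simp only [Matrix.mul_assoc]
        _ = x j := by rw [E_mul_neg Ac_nil, one_mul, mul_one]
    · rfl
  -- conjugation
  have hconj : ∀ (s : ℂ) (x : ∀ j, Matrix (Fin (n j)) (Fin (n j)) ℂ), x ∈ S0 →
      (fun j => if j ∈ I then x j else E (cm (Am (n j))) s * x j * E (cm (Am (n j))) (-s)) ∈ S0 := by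
    intro s x hx
    have h1 := gconjB hD.L0 (NI_nil hn I) (FIB_an hD I X) s (blk n ℂ x) hx
    rw [E_NI hn, E_NI hn, ← map_mul, ← map_mul] at h1
    refine (congrArg (· ∈ GalM L Y) (congrArg (blk n ℂ) ?_)).mp h1
    funext j
    rw [Pi.mul_apply, Pi.mul_apply]
    split_ifs
    · rw [one_mul, mul_one]
    · rfl
  intro x hx
  refine grp_level hASY hD.q hD.q' hD.tr hD.ty T (fun i hi j hj hij => ?_) h S (fun s x hx => ?_) (fun P hP => ?_)
    (fun x hx => ?_) (fun s => ?_) x hx
  · exact hD.sep i j hij (((hT i).1 hi).2.trans ((hT j).1 hj).2.symm)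
  · have h1 := hconj s _ ((mS x).1 hx)
    rw [mS]
    refine (congrArg (· ∈ GalM L Y) (congrArg (blk n ℂ) ?_)).mp h1
    funext j
    by_cases hj : j ∈ T
    · simp only [if_pos hj, if_neg ((hT j).1 hj).1]
      have e1 : ∀ a b' : ℂ, E (cm (Am (n j))) a * E (cm (Am (n j))) b' = E (cm (Am (n j))) b' * E (cm (Am (n j))) a :=
        fun a b' => by rw [← E_add Ac_nil, ← E_add Ac_nil, add_comm]
      calc E (cm (Am (n j))) s * (E (cm (Am (n j))) (θ j) * x j * E (cm (Am (n j))) (-θ j)) * E (cm (Am (n j))) (-s) =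
            (E (cm (Am (n j))) s * E (cm (Am (n j))) (θ j)) * x j *
              (E (cm (Am (n j))) (-θ j) * E (cm (Am (n j))) (-s)) := by simp only [Matrix.mul_assoc]
        _ = (E (cm (Am (n j))) (θ j) * E (cm (Am (n j))) s) * x j *
              (E (cm (Am (n j))) (-s) * E (cm (Am (n j))) (-θ j)) := by rw [e1 s, e1 (-θ j)]
        _ = _ := by simp only [Matrix.mul_assoc]
    · simp only [if_neg hj, mul_one]
      split_ifs
      · rfl
      · exact E_mul_neg Ac_nil s
  · set P' : ∀ j, Matrix (Fin (n j)) (Fin (n j)) (Polynomial ℂ) := fun j => if j ∈ T then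
      (E (cm (Am (n j))) (θ j)).map Polynomial.C * P j * (E (cm (Am (n j))) (-θ j)).map Polynomial.C else 1 with hP'
    have e : ∀ s : ℂ, (blk n (Polynomial ℂ) P').map (Polynomial.eval s) =
        blk n ℂ (fun j => if j ∈ T then
          E (cm (Am (n j))) (θ j) * (P j).map (Polynomial.eval s) * E (cm (Am (n j))) (-θ j) else 1) := by
      intro s
      rw [BLK.blk_map _ (Polynomial.eval_zero)]
      congr 1
      funext j
      rw [hP']
      by_cases hj : j ∈ T
      · simp only [if_pos hj]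
        rw [Pool.Agent.Y119.HY.map_mul_eval, Pool.Agent.Y119.HY.map_mul_eval, Pool.Agent.Y119.HY.map_C_eval,
          Pool.Agent.Y119.HY.map_C_eval]
      · simp only [if_neg hj]
        ext a b
        rw [Matrix.map_apply, Matrix.one_apply, Matrix.one_apply]
        split_ifs <;> simp
    have h1 := GalM_closed Y (blk n (Polynomial ℂ) P') (fun s hs => by
      rw [e]
      exact hP s hs)
    rw [e] at h1
    exact h1
  · rw [mS]
    have h1 : (fun j => if j ∈ T then E (cm (Am (n j))) (θ j) * x j * E (cm (Am (n j))) (-θ j) else 1) = 1 := by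
      funext j
      split_ifs with hj
      · rw [hx j hj, mul_one]
        exact E_mul_neg Ac_nil _
      · rfl
    rw [h1, map_one]
    exact (GalM L Y).one_mem
  · -- the radius
    obtain ⟨ρ, hρ0, hρ1, hρ, hρT⟩ : ∃ ρ : ℝ, 0 < ρ ∧ ρ ≤ 1 ∧ (∀ j, j ∉ I → j ∉ T → (γ j + η j) * (1 + ρ) < 1) ∧
        ∀ j ∈ T, (1 + η j) * ρ < γ j := by
      have h1 : ∀ᶠ ρ : ℝ in 𝓝 0, ∀ j, j ∉ I → j ∉ T → (γ j + η j) * (1 + ρ) < 1 := by
        rw [eventually_all]
        intro j
        by_cases hj : j ∉ I ∧ j ∉ T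
        · have h2 : Tendsto (fun ρ : ℝ => (γ j + η j) * (1 + ρ)) (𝓝 0) (𝓝 ((γ j + η j) * (1 + 0))) :=
            (tendsto_const_nhds.mul (tendsto_const_nhds.add tendsto_id))
          have h3 : (γ j + η j) * (1 + 0) < 1 := by rw [add_zero, mul_one]; exact hσn j hj.1 hj.2
          filter_upwards [h2.eventually (gt_mem_nhds h3)] with ρ hρ _ _
          exact hρ
        · exact Eventually.of_forall fun ρ h3 h4 => absurd ⟨h3, h4⟩ hj
      have h1' : ∀ᶠ ρ : ℝ in 𝓝 0, ∀ j, j ∈ T → (1 + η j) * ρ < γ j := by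
        rw [eventually_all]
        intro j
        by_cases hj : j ∈ T
        · have h2 : Tendsto (fun ρ : ℝ => (1 + η j) * ρ) (𝓝 0) (𝓝 ((1 + η j) * 0)) :=
            tendsto_const_nhds.mul tendsto_id
          have h3 : (1 + η j) * 0 < γ j := by rw [mul_zero]; exact (hγT j hj).1
          filter_upwards [h2.eventually (gt_mem_nhds h3)] with ρ hρ _
          exact hρ
        · exact Eventually.of_forall fun ρ h3 => absurd h3 hj
      have h2 : ∀ᶠ ρ : ℝ in 𝓝[>] 0, 0 < ρ ∧ ρ ≤ 1 ∧ (∀ j, j ∉ I → j ∉ T → (γ j + η j) * (1 + ρ) < 1) ∧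
          ∀ j, j ∈ T → (1 + η j) * ρ < γ j := by
        filter_upwards [self_mem_nhdsWithin, nhdsWithin_le_nhds h1, nhdsWithin_le_nhds h1',
          nhdsWithin_le_nhds (gt_mem_nhds (show (0 : ℝ) < 1 by norm_num))] with ρ h3 h4 h4' h5
        exact ⟨h3, h5.le, h4, h4'⟩
      exact h2.exists
    have hgj : ∀ j, ∀ z : ℂ, (g j : ℂ) * (b * z) = (η j : ℂ) * z := by
      intro j z
      rw [hb, hη]
      push_cast
      ring
    have hcj : ∀ j, ∀ z : ℂ, (c j : ℂ) * (b * z) = (γ j : ℂ) * z := by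
      intro j z
      rw [hb, hγ]
      push_cast
      ring
    have hlog1 : ∀ w : ℂ, ‖w‖ < 1 → AnalyticAt ℂ (fun w : ℂ => Complex.log (1 - w)) w := fun w hw =>
      AnalyticAt.clog (analyticAt_const.sub analyticAt_id) (by
        left
        have h1 : w.re ≤ ‖w‖ := Complex.re_le_norm _
        show 0 < (1 - w).re
        rw [Complex.sub_re, Complex.one_re]
        linarith)
    set N2 : Matrix (Fin (∑ j, n j)) (Fin (∑ j, n j)) ℂ := blk n ℂ fun j => if j ∈ T then -cm (Bm (n j) (Q j)) else 0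
      with hN2
    have hN2n : ∀ j, (if j ∈ T then -cm (Bm (n j) (Q j)) else 0) ^ n j = 0 :=
      nil_if' hn T (fun j => -cm (Bm (n j) (Q j))) fun j => nB0 (hn j) (hD.tr j)
    have hEN2 : ∀ s : ℂ, E N2 s = blk n ℂ fun j => if j ∈ T then 1 + (-s) • cm (Bm (n j) (Q j)) else 1 := by
      intro s
      rw [hN2, BLK.E_blk _ hN2n]
      congr 1
      funext j
      split_ifs
      · exact E_nB (hn j) (hD.tr j) s
      · exact E_zeroN s
    set MM : ∀ j, Matrix (Fin (n j)) (Fin (n j)) ℂ := fun j =>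
      if j ∈ T then M j * E (cm (Am (n j))) (Complex.log b - θ j) else 1 with hMM
    set MMi : ∀ j, Matrix (Fin (n j)) (Fin (n j)) ℂ := fun j =>
      if j ∈ T then E (cm (Am (n j))) (-(Complex.log b - θ j)) * Mi j else 1 with hMMi
    have hMM1 : blk n ℂ MM * blk n ℂ MMi = 1 := by
      rw [← map_mul, ← map_one (blk n ℂ)]
      congr 1
      funext j
      rw [Pi.mul_apply, Pi.one_apply, hMM, hMMi]
      by_cases hj : j ∈ T
      · simp only [if_pos hj]
        rw [Matrix.mul_assoc, ← Matrix.mul_assoc (E (cm (Am (n j))) (Complex.log b - θ j)), E_mul_neg Ac_nil, one_mul,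
          (h j).l]
      · simp only [if_neg hj, mul_one]
    set Wj : ∀ j, ℂ → Matrix (Fin (n j)) (Fin (n j)) ℂ := fun j u =>
      Fx j ((γ j : ℂ) * u / (1 - (η j : ℂ) * u)) * E (cm (Am (n j))) (-Complex.log (1 - (η j : ℂ) * u)) with hWj
    set G : ℂ → ∀ j, Matrix (Fin (n j)) (Fin (n j)) ℂ := fun w j =>
      if j ∈ I then X j else if j ∈ T then Hf (K j) (w / ((γ j : ℂ) + (η j : ℂ) * w)) *
        E (-cm (Bm (n j) (Q j))) (-Complex.log ((γ j : ℂ) + (η j : ℂ) * w)) else
        Wj j (1 - w) * E (cm (Am (n j))) (Complex.log (1 - w) + Complex.log b) with hG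
    set Yx : ℂ → ∀ j, Matrix (Fin (n j)) (Fin (n j)) ℂ := fun x j =>
      if j ∈ I then X j else Wj j x * E (cm (Am (n j))) (Complex.log x + Complex.log b) with hYx
    have hTI : ∀ j ∈ T, j ∉ I := fun j hj => ((hT j).1 hj).1
    have key := glocB (N0 := NI n I) hD.L0 (NI_nil hn I) (F := FIB n Q g c I X) (FIB_an hD I X) hb1 hρ0 hρ1
      (Yx := fun x => blk n ℂ (Yx x)) (fun x hx hx1 => blk_an fun j a b' => ?_) (fun x hx hx1 => ?_)
      (G := fun w => blk n ℂ (G w)) (fun a b' w hw => blk_an (fun j a b' => ?_) a b') (N2 := N2)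
      (BLK.blk_pow_zero _ hN2n) hMM1 (fun y hy hy1 => ?_) (-s)
    · -- conclusion
      rw [hEN2, ← map_mul, ← map_mul] at key
      have h1 := hconj (Complex.log b) _ key
      rw [mS]
      refine (congrArg (· ∈ GalM L Y) (congrArg (blk n ℂ) ?_)).mp h1
      funext j
      rw [Pi.mul_apply, Pi.mul_apply]
      by_cases hj : j ∈ T
      · simp only [if_pos hj, if_neg (hTI j hj), hMM, hMMi, neg_neg]
        rw [← XX_vec]
        unfold XX
        have e2 : (1 + s • (Mi j * cm (Bm (n j) (Q j)) * M j)) = Mi j * (1 + s • cm (Bm (n j) (Q j))) * M j := by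
          rw [mul_add, mul_one, add_mul, (h j).r, mul_smul_comm, smul_mul_assoc]
        rw [e2]
        have e3 : E (cm (Am (n j))) (Complex.log b) * E (cm (Am (n j))) (-(Complex.log b - θ j)) =
            E (cm (Am (n j))) (θ j) := by
          rw [← E_add Ac_nil]
          congr 1
          ring
        have e4 : E (cm (Am (n j))) (Complex.log b - θ j) * E (cm (Am (n j))) (-Complex.log b) =
            E (cm (Am (n j))) (-θ j) := by
          rw [← E_add Ac_nil]
          congr 1
          ring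
        calc E (cm (Am (n j))) (Complex.log b) * (E (cm (Am (n j))) (-(Complex.log b - θ j)) * Mi j *
              (1 + s • cm (Bm (n j) (Q j))) * (M j * E (cm (Am (n j))) (Complex.log b - θ j))) *
              E (cm (Am (n j))) (-Complex.log b)
            = (E (cm (Am (n j))) (Complex.log b) * E (cm (Am (n j))) (-(Complex.log b - θ j))) * (Mi j *
              (1 + s • cm (Bm (n j) (Q j))) * M j) * (E (cm (Am (n j))) (Complex.log b - θ j) *
              E (cm (Am (n j))) (-Complex.log b)) := by simp only [Matrix.mul_assoc]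
          _ = _ := by rw [e3, e4]
      · simp only [if_neg hj, hMM, hMMi, mul_one]
        split_ifs
        · rfl
        · exact E_mul_neg Ac_nil _
    · -- analyticity on the interval
      rw [hYx]
      by_cases hj : j ∈ I
      · simp only [if_pos hj]
        exact analyticAt_const
      · simp only [if_neg hj]
        refine mul_an (A := fun x => Wj j x) (fun a b' => ?_) (fun a b' => ?_) a b'
        · refine W_an (hFa j) (reg (hγ0 j) (hγη j) (by rw [Complex.ofReal_re]; exact hx) fun _ => ?_) a b'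
          rw [Complex.norm_real, Real.norm_of_nonneg hx.le]
          have := hσ j hj
          nlinarith
        · refine E_an _ ((analyticAt_clog ?_).add analyticAt_const) a b'
          left
          rw [Complex.ofReal_re]
          exact hx
    · -- the solution
      have hx2 : ‖b * (x : ℂ)‖ < 1 / L := by
        have hx3 : ‖(x : ℂ)‖ = x := by rw [Complex.norm_real, Real.norm_of_nonneg hx.le]
        rw [norm_mul, hx3, lt_div_iff₀ hD.L0]
        rw [lt_div_iff₀ (by linarith)] at hx1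
        calc ‖b‖ * x * L = x * (L * ‖b‖) := by ring
          _ < 1 := hx1
      show blk n ℂ (Yx x) = _
      unfold FIB
      rw [E_NI hn, ← map_mul]
      congr 1
      funext j
      rw [Pi.mul_apply, hYx]
      by_cases hj : j ∈ I
      · simp only [if_pos hj, mul_one]
      · simp only [if_neg hj]
        have h1 := (reg0 (Lsmall hD.L0 (hD.cL j) hx2)).2
        unfold Fj
        rw [hWj]
        simp only
        rw [hcj, hgj] at h1 ⊢
        rw [hFx j _ h1]
    · -- analyticity near the singular point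
      rw [Metric.mem_ball, dist_zero_right] at hw
      have hw1 : ‖w‖ < 1 := lt_of_lt_of_le hw hρ1
      have hre : w.re ≤ ‖w‖ := Complex.re_le_norm _
      have hre' : -‖w‖ ≤ w.re := (abs_le.1 (Complex.abs_re_le_norm w)).1
      have hw0 := norm_nonneg w
      rw [hG]
      by_cases hj : j ∈ I
      · simp only [if_pos hj]
        exact analyticAt_const
      · by_cases hj' : j ∈ T
        · simp only [if_neg hj, if_pos hj']
          obtain ⟨hp, hq⟩ := hγT j hj'
          have h1 := hρT j hj'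
          have h2 : AnalyticAt ℂ (fun w : ℂ => (γ j : ℂ) + (η j : ℂ) * w) w :=
            analyticAt_const.add (analyticAt_const.mul analyticAt_id)
          have h3 : ‖w‖ < ((γ j : ℂ) + (η j : ℂ) * w).re := by
            rw [Complex.add_re, Complex.ofReal_re, Complex.re_ofReal_mul]
            nlinarith
          have h4 : ‖w‖ < ‖(γ j : ℂ) + (η j : ℂ) * w‖ := lt_of_lt_of_le h3 (Complex.re_le_norm _)
          have h5 : ((γ j : ℂ) + (η j : ℂ) * w) ∈ Complex.slitPlane := Or.inl (by linarith)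
          have h6 : ‖w / ((γ j : ℂ) + (η j : ℂ) * w)‖ < 1 := by
            rw [norm_div, div_lt_one (by linarith)]
            exact h4
          refine mul_an (A := fun w => Hf (K j) (w / ((γ j : ℂ) + (η j : ℂ) * w))) (fun a b' => ?_) (fun a b' => ?_) a b'
          · exact AnalyticAt.fun_comp (g := fun w => Hf (K j) w a b')
              (f := fun w : ℂ => w / ((γ j : ℂ) + (η j : ℂ) * w))
              (Pool.Agent.Y119.HY.Hf_an (h j).hK (nB0 (hn j) (hD.tr j)) a b' _ (by
                rw [Metric.mem_ball, dist_zero_right]; exact h6))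
              (analyticAt_id.div h2 (Complex.slitPlane_ne_zero h5))
          · exact E_an _ (h2.clog h5).neg a b'
        · simp only [if_neg hj, if_neg hj']
          refine mul_an (A := fun w => Wj j (1 - w)) (fun a b' => ?_) (fun a b' => ?_) a b'
          · have h1 := W_an (hFa j) (N := cm (Am (n j))) (γ := γ j) (η := η j) (u := 1 - w)
              (reg (hγ0 j) (hγη j) (by rw [Complex.sub_re, Complex.one_re]; linarith) fun hpos => by
                have h3 : ‖1 - w‖ ≤ 1 + ρ := by
                  refine (norm_sub_le _ _).trans ?_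
                  rw [norm_one]
                  linarith
                have h4 : 0 ≤ η j := by
                  by_contra h5
                  push Not at h5
                  have := hγη j
                  nlinarith
                exact lt_of_le_of_lt (mul_le_mul_of_nonneg_left h3 (by linarith)) (hρ j hj hj')) a b'
            have h6 : AnalyticAt ℂ (fun w : ℂ => 1 - w) w := analyticAt_const.sub analyticAt_id
            exact AnalyticAt.fun_comp (g := fun u => (Fx j ((γ j : ℂ) * u / (1 - (η j : ℂ) * u)) *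
              E (cm (Am (n j))) (-Complex.log (1 - (η j : ℂ) * u))) a b') (f := fun w : ℂ => 1 - w) h1 h6
          · exact E_an _ ((hlog1 w hw1).add analyticAt_const) a b'
    · -- the local form
      have hy1' : y < 1 := lt_of_lt_of_le hy1 hρ1
      rw [hEN2, ← map_mul, ← map_mul]
      show blk n ℂ (Yx _) = _
      congr 1
      funext j
      rw [Pi.mul_apply, Pi.mul_apply, hYx, hG, hMM]
      by_cases hj : j ∈ I
      · have hj' : j ∉ T := fun h1 => hTI j h1 hj
        simp only [if_pos hj, if_neg hj', mul_one]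
      · by_cases hj' : j ∈ T
        · simp only [if_neg hj, if_pos hj', hWj]
          obtain ⟨hp, hq⟩ := hγT j hj'
          have hσ1 := hσT j hj'
          -- real quantities
          obtain ⟨d, hd⟩ : ∃ d : ℝ, d = γ j + η j * y := ⟨_, rfl⟩
          have hd0 : 0 < d := by rw [hd]; nlinarith
          obtain ⟨φ, hφ⟩ : ∃ φ : ℝ, φ = γ j * (1 - y) / d := ⟨_, rfl⟩
          have e1 : (1 - (η j : ℂ) * (((1 - y : ℝ)) : ℂ)) = (d : ℂ) := by
            rw [hd]
            have : (1 : ℝ) - η j * (1 - y) = γ j + η j * y := by linear_combination -hσ1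
            exact_mod_cast this
          have e2 : (γ j : ℂ) * (((1 - y : ℝ)) : ℂ) / (1 - (η j : ℂ) * (((1 - y : ℝ)) : ℂ)) = (φ : ℂ) := by
            rw [e1, hφ]
            push_cast
            rfl
          have hφ0 : 0 < φ := by
            rw [hφ]
            exact div_pos (mul_pos hp (by linarith)) hd0
          have hφ1 : 1 - φ = y / d := by
            rw [hφ]
            field_simp
            rw [hd]
            linear_combination y * hσ1
          have hyd : 0 < y / d := div_pos hy hd0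
          have hφ2 : φ < 1 := by linarith
          have hz : (φ : ℂ) ∈ Lens := real_mem_Lens hφ0 hφ2
          have h1 := (h j).con _ hz
          have h2 : (1 - (φ : ℂ)) = ((y / d : ℝ) : ℂ) := by rw [← hφ1]; push_cast; rfl
          rw [h2] at h1
          rw [e2, e1, hFx j _ (mem_Lens.1 hz).1]
          -- the logarithms
          have hlφ : Complex.log (φ : ℂ) = Complex.log (γ j) + Complex.log (((1 - y : ℝ)) : ℂ) - Complex.log (d : ℂ) := by
            rw [← Complex.ofReal_log hφ0.le, ← Complex.ofReal_log hp.le, ← Complex.ofReal_log hd0.le,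
              ← Complex.ofReal_log (by linarith : (0 : ℝ) ≤ 1 - y), hφ, Real.log_div (by
                exact (mul_pos hp (by linarith : (0 : ℝ) < 1 - y)).ne') hd0.ne',
              Real.log_mul hp.ne' (by linarith : (1 - y : ℝ) ≠ 0)]
            push_cast
            rfl
          have hlyd : Complex.log ((y / d : ℝ) : ℂ) = -Complex.log (d : ℂ) + Complex.log (y : ℂ) := by
            rw [← Complex.ofReal_log hyd.le, ← Complex.ofReal_log hy.le, ← Complex.ofReal_log hd0.le,
              Real.log_div hy.ne' hd0.ne']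
            push_cast
            ring
          have hdc : (γ j : ℂ) + (η j : ℂ) * (y : ℂ) = (d : ℂ) := by
            rw [hd]
            push_cast
            rfl
          have hyd' : (y : ℂ) / (d : ℂ) = ((y / d : ℝ) : ℂ) := by push_cast; rfl
          rw [hdc, hyd']
          unfold Yf at h1
          have e3 : E (cm (Am (n j))) (-Complex.log (d : ℂ)) *
              E (cm (Am (n j))) (Complex.log (((1 - y : ℝ)) : ℂ) + Complex.log b) =
              E (cm (Am (n j))) (Complex.log (φ : ℂ)) * E (cm (Am (n j))) (Complex.log b - θ j) := by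
            rw [← E_add Ac_nil, ← E_add Ac_nil, hlφ, hθ]
            congr 1
            ring
          have e4 : E (-cm (Bm (n j) (Q j))) (Complex.log ((y / d : ℝ) : ℂ)) =
              E (-cm (Bm (n j) (Q j))) (-Complex.log (d : ℂ)) * (1 + (-Complex.log (y : ℂ)) • cm (Bm (n j) (Q j))) := by
            rw [hlyd, E_add (nB0 (hn j) (hD.tr j)), E_nB (hn j) (hD.tr j) (Complex.log (y : ℂ))]
          calc Hf (Hc (n j) (Q j)) (φ : ℂ) * E (cm (Am (n j))) (-Complex.log (d : ℂ)) *
                E (cm (Am (n j))) (Complex.log (((1 - y : ℝ)) : ℂ) + Complex.log b) =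
                (Hf (Hc (n j) (Q j)) (φ : ℂ) * E (cm (Am (n j))) (Complex.log (φ : ℂ))) *
                  E (cm (Am (n j))) (Complex.log b - θ j) := by
                rw [Matrix.mul_assoc, e3, ← Matrix.mul_assoc]
            _ = _ := by
                rw [h1, e4]
                simp only [Matrix.mul_assoc]
        · simp only [if_neg hj, if_neg hj', mul_one]
          push_cast
          rfl

end Pool.Agent.Run7.h696.CF
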