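import Pool.Agent.Y119.HY.Main

/-!
# Local monodromy and relations, for functions with several singular points
-/

set_option autoImplicit false

open Filter Topology Matrix Polynomial
open Pool.Agent.Y119.HY

namespace Pool.Agent.Run7.h696.CF

variable {m : ℕ}

/-- separation of the powers of the logarithm, on a disc of any radius -/
theorem log_zero_r {ρ : ℝ} (hρ : 0 < ρ) {f : ℂ → ℂ[X]} (hf : PA (Metric.ball 0 ρ) f)
    (h : ∀ x : ℝ, 0 < x → x < ρ → (f (x : ℂ)).eval ((Real.log x : ℝ) : ℂ) = 0) :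
    ∀ z ∈ Metric.ball (0 : ℂ) ρ, f z = 0 := by
  obtain ⟨h1, d, hd⟩ := hf
  have h0 : (0 : ℂ) ∈ Metric.ball (0 : ℂ) ρ := Metric.mem_ball_self hρ
  have h2 := log_sep (d := d) (fun j z => (f z).coeff j) (fun j _ => h1 j 0 h0) (by
    have : ∀ᶠ x : ℝ in 𝓝[>] 0, x < ρ := tendsto_nhdsWithin_of_tendsto_nhds tendsto_id (gt_mem_nhds hρ)
    filter_upwards [this, self_mem_nhdsWithin] with x hx hx0
    rw [← Polynomial.eval_eq_sum_range' (hd x)]
    exact h x hx0 hx)
  intro z hz
  ext j
  rw [coeff_zero]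
  by_cases hj : j < d
  · exact (h1 j).eqOn_zero_of_preconnected_of_eventuallyEq_zero (convex_ball _ _).isPreconnected h0 (h2 j hj) hz
  · exact coeff_eq_zero_of_natDegree_lt (lt_of_lt_of_le (hd z) (not_lt.1 hj))

/-- the monodromy at `0` -/
theorem gmono {N0 : Matrix (Fin m) (Fin m) ℂ} (h0 : N0 ^ m = 0) {F : ℂ → Matrix (Fin m) (Fin m) ℂ}
    (hF : ∀ i j, AnalyticOnNhd ℂ (fun z => F z i j) (Metric.ball 0 1)) (c : ℂ) {P : MvPolynomial (Vr m) ℂ}
    (hP : P ∈ Rel (fun z => F z * E N0 (Complex.log z))) {x : ℝ} (hx : 0 < x) (hx1 : x < 1) :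
    ev P (x : ℂ) (Complex.log x + c) (F x * E N0 (Complex.log x) * E N0 c) = 0 := by
  have h1 : ∀ w ∈ Metric.ball (0 : ℂ) 1, evp P (C w) X ((F w).map C * Ep N0) = 0 := by
    refine PA.log_zero (f := fun w => evp P (C w) X ((F w).map C * Ep N0)) ?_ fun y hy hy1 => ?_
    · refine PA.aeval (fun o => ?_) P
      rcases o with _ | _ | x
      · exact PA.ofFun analyticOnNhd_id
      · exact PA.const _
      · simp only [pt, Option.elim_some, Matrix.mul_apply, Matrix.map_apply]
        exact PA.sum _ fun l _ => (PA.ofFun (hF _ _)).mul (PA.const _)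
    · rw [eval_evp, map_mul_eval, map_C_eval, Ep_eval, Complex.ofReal_log hy.le, eval_C, eval_X]
      exact hP y hy hy1
  have h2 := congrArg (Polynomial.eval (Complex.log x + c)) (h1 x (by
    rw [Metric.mem_ball, dist_zero_right, Complex.norm_real, Real.norm_of_nonneg hx.le]
    exact hx1))
  rw [eval_evp, map_mul_eval, map_C_eval, Ep_eval, eval_zero, E_add h0, ← Matrix.mul_assoc, eval_C, eval_X] at h2
  exact h2

/-- conjugation by the monodromy at `0` -/
theorem gconj {N0 : Matrix (Fin m) (Fin m) ℂ} (h0 : N0 ^ m = 0) {F : ℂ → Matrix (Fin m) (Fin m) ℂ}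
    (hF : ∀ i j, AnalyticOnNhd ℂ (fun z => F z i j) (Metric.ball 0 1)) (c : ℂ) (g : Matrix (Fin m) (Fin m) ℂ)
    (hg : g ∈ Gal (fun z => F z * E N0 (Complex.log z))) :
    E N0 c * g * E N0 (-c) ∈ Gal (fun z => F z * E N0 (Complex.log z)) := by
  intro P hP x hx hx1
  have h1 : sb (-c) (E N0 (-c)) P ∈ Rel (fun z => F z * E N0 (Complex.log z)) := fun y hy hy1 => by
    rw [ev_sb]
    exact gmono h0 hF (-c) hP hy hy1
  have h2 : sb (-c) (g * E N0 (-c)) P ∈ Rel (fun z => F z * E N0 (Complex.log z)) := fun y hy hy1 => by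
    have h3 := hg _ h1 y hy hy1
    rw [ev_sb, Matrix.mul_assoc] at h3
    rw [ev_sb]
    exact h3
  have h3 := gmono h0 hF c h2 hx hx1
  rw [ev_sb, add_neg_cancel_right] at h3
  simp only [Matrix.mul_assoc] at h3 ⊢
  exact h3

/-- a polynomial in analytic functions is analytic -/
theorem ev_analyticAt (P : MvPolynomial (Vr m) ℂ) {a b : ℂ → ℂ} {Y : ℂ → Matrix (Fin m) (Fin m) ℂ} {z : ℂ}
    (ha : AnalyticAt ℂ a z) (hb : AnalyticAt ℂ b z) (hY : ∀ i j, AnalyticAt ℂ (fun z => Y z i j) z) :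
    AnalyticAt ℂ (fun w => ev P (a w) (b w) (Y w)) z := by
  unfold ev
  induction P using MvPolynomial.induction_on with
  | C a => simpa using analyticAt_const
  | add p q hp hq => simp only [map_add]; exact hp.add hq
  | mul_X p i hp =>
    simp only [map_mul, MvPolynomial.eval_X]
    refine hp.mul ?_
    rcases i with _ | _ | x
    · exact ha
    · exact hb
    · exact hY _ _

/-- relations extend along the interval of analyticity -/
theorem extend_zero {b : ℝ} {f : ℂ → ℂ} (hf : ∀ x : ℝ, 0 < x → x < b → AnalyticAt ℂ f x) {u v : ℝ} (hu : 0 ≤ u)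
    (huv : u < v) (hv : v ≤ b) (h : ∀ x : ℝ, u < x → x < v → f x = 0) {x : ℝ} (hx : 0 < x) (hxb : x < b) : f x = 0 := by
  set U : Set ℂ := (fun x : ℝ => (x : ℂ)) '' Set.Ioo 0 b with hU
  have hpre : IsPreconnected U := isPreconnected_Ioo.image _ Complex.continuous_ofReal.continuousOn
  have han : AnalyticOnNhd ℂ f U := by
    rintro _ ⟨y, hy, rfl⟩
    exact hf y hy.1 hy.2
  set y : ℝ := (u + v) / 2 with hy
  have hyu : u < y := by rw [hy]; linarith
  have hyv : y < v := by rw [hy]; linarith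
  have hyU : (y : ℂ) ∈ U := ⟨y, ⟨by linarith, by linarith⟩, rfl⟩
  have hfreq : ∃ᶠ z in 𝓝[≠] (y : ℂ), f z = 0 := by
    have h1 : Tendsto (fun x : ℝ => (x : ℂ)) (𝓝[≠] y) (𝓝[≠] (y : ℂ)) := by
      refine tendsto_nhdsWithin_of_tendsto_nhds_of_eventually_within _
        (tendsto_nhdsWithin_of_tendsto_nhds Complex.continuous_ofReal.continuousAt) ?_
      filter_upwards [self_mem_nhdsWithin] with x hx
      intro h2
      exact hx (Complex.ofReal_injective h2)
    have h2 : ∀ᶠ x : ℝ in 𝓝[≠] y, f (x : ℂ) = 0 := by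
      have h3 : ∀ᶠ x : ℝ in 𝓝 y, u < x ∧ x < v := (eventually_gt_nhds hyu).and (eventually_lt_nhds hyv)
      filter_upwards [nhdsWithin_le_nhds h3] with x hx
      exact h x hx.1 hx.2
    exact h1.frequently h2.frequently
  exact han.eqOn_zero_of_preconnected_of_frequently_eq_zero hpre hyU hfreq ⟨x, ⟨hx, hxb⟩, rfl⟩

/-- **the local monodromy at the end of the interval of analyticity preserves the relations** -/
theorem gloc {Y : ℂ → Matrix (Fin m) (Fin m) ℂ} {b ρ : ℝ} (hb : 1 ≤ b) (hρ : 0 < ρ) (hρ1 : ρ ≤ 1)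
    (hY : ∀ x : ℝ, 0 < x → x < b → ∀ i j, AnalyticAt ℂ (fun z => Y z i j) x)
    {G : ℂ → Matrix (Fin m) (Fin m) ℂ} (hG : ∀ i j, AnalyticOnNhd ℂ (fun z => G z i j) (Metric.ball 0 ρ))
    {N2 : Matrix (Fin m) (Fin m) ℂ} (h2 : N2 ^ m = 0) {M Mi : Matrix (Fin m) (Fin m) ℂ} (hMi : M * Mi = 1)
    (hloc : ∀ y : ℝ, 0 < y → y < ρ → Y ((b * (1 - y) : ℝ) : ℂ) = G y * E N2 (Complex.log y) * M) (c : ℂ) :
    Mi * E N2 c * M ∈ Gal Y := by
  intro P hP x hx hx1
  have hb0 : 0 < b := by linarith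
  have hlogx : ∀ x : ℝ, 0 < x → AnalyticAt ℂ Complex.log (x : ℂ) := fun x hx =>
    analyticAt_clog (by left; rw [Complex.ofReal_re]; exact hx)
  -- on the whole interval
  have hall : ∀ y : ℝ, 0 < y → y < b → ev P (y : ℂ) (Complex.log y) (Y (y : ℂ)) = 0 := fun y hy hyb =>
    extend_zero (f := fun z => ev P z (Complex.log z) (Y z)) (u := 0) (v := 1)
      (fun x hx hxb => ev_analyticAt P analyticAt_id (hlogx x hx) (hY x hx hxb)) le_rfl one_pos hb
      (fun x hx hx1 => hP x hx hx1) hy hyb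
  -- the local form
  have hball : ∀ w ∈ Metric.ball (0 : ℂ) ρ, (b : ℂ) * (1 - w) ∈ Complex.slitPlane := by
    intro w hw
    rw [Metric.mem_ball, dist_zero_right] at hw
    left
    have h1 : w.re ≤ ‖w‖ := Complex.re_le_norm _
    rw [Complex.re_ofReal_mul, Complex.sub_re, Complex.one_re]
    exact mul_pos hb0 (by linarith)
  have hlog : AnalyticOnNhd ℂ (fun w : ℂ => Complex.log ((b : ℂ) * (1 - w))) (Metric.ball 0 ρ) := fun w hw =>
    AnalyticAt.clog (analyticAt_const.mul (analyticAt_const.sub analyticAt_id)) (hball w hw)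
  have h1 : ∀ w ∈ Metric.ball (0 : ℂ) ρ, evp P (C ((b : ℂ) * (1 - w))) (C (Complex.log ((b : ℂ) * (1 - w))))
      ((G w).map C * Ep N2 * M.map C) = 0 := by
    refine log_zero_r hρ (f := fun w => evp P (C ((b : ℂ) * (1 - w))) (C (Complex.log ((b : ℂ) * (1 - w))))
      ((G w).map C * Ep N2 * M.map C)) ?_ fun y hy hy1 => ?_
    · refine PA.aeval (fun o => ?_) P
      rcases o with _ | _ | x
      · exact PA.ofFun (analyticOnNhd_const.mul (analyticOnNhd_const.sub analyticOnNhd_id))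
      · exact PA.ofFun hlog
      · simp only [pt, Option.elim_some, Matrix.mul_apply, Matrix.map_apply]
        exact PA.sum _ fun l _ => (PA.sum _ fun k _ => (PA.ofFun (hG _ _)).mul (PA.const _)).mul (PA.const _)
    · rw [eval_evp, map_mul_eval, map_mul_eval, map_C_eval, map_C_eval, Ep_eval, Complex.ofReal_log hy.le, eval_C, eval_C]
      have h3 := hall (b * (1 - y)) (mul_pos hb0 (by linarith)) (by nlinarith)
      rw [hloc y hy hy1] at h3
      push_cast at h3
      exact h3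
  -- near the end
  have hend : ∀ y : ℝ, b * (1 - ρ) < y → y < b → ev P (y : ℂ) (Complex.log y) (Y (y : ℂ) * (Mi * E N2 c * M)) = 0 := by
    intro x hx hxb
    obtain ⟨y, hy⟩ : ∃ y : ℝ, y = 1 - x / b := ⟨_, rfl⟩
    have hxy : x = b * (1 - y) := by rw [hy]; field_simp; ring
    have hy0 : 0 < y := by
      rw [hy, sub_pos, div_lt_one hb0]
      exact hxb
    have hyρ : y < ρ := by
      rw [hxy] at hx
      have := lt_of_mul_lt_mul_left hx hb0.le
      linarith
    have h4 := congrArg (Polynomial.eval (Complex.log (y : ℂ) + c)) (h1 y (by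
      rw [Metric.mem_ball, dist_zero_right, Complex.norm_real, Real.norm_of_nonneg hy0.le]
      exact hyρ))
    rw [eval_evp, map_mul_eval, map_mul_eval, map_C_eval, map_C_eval, Ep_eval, eval_zero, E_add h2, eval_C, eval_C] at h4
    have e2 : Y (x : ℂ) * (Mi * E N2 c * M) = G y * (E N2 (Complex.log y) * E N2 c) * M := by
      rw [hxy, hloc y hy0 hyρ]
      calc G y * E N2 (Complex.log y) * M * (Mi * E N2 c * M) =
            G y * E N2 (Complex.log y) * (M * Mi) * E N2 c * M := by simp only [Matrix.mul_assoc]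
        _ = _ := by rw [hMi, mul_one]; simp only [Matrix.mul_assoc]
    rw [e2, hxy]
    push_cast
    exact h4
  have hρb : 0 ≤ b * (1 - ρ) := mul_nonneg hb0.le (by linarith)
  exact extend_zero (f := fun z => ev P z (Complex.log z) (Y z * (Mi * E N2 c * M))) (u := b * (1 - ρ)) (v := b)
    (fun x hx hxb => ev_analyticAt P analyticAt_id (hlogx x hx) fun i j => by
      simp only [Matrix.mul_apply]
      exact Finset.analyticAt_fun_sum _ fun l _ => (hY x hx hxb i l).mul analyticAt_const) hρb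
    (by nlinarith) le_rfl hend hx (by linarith)

end Pool.Agent.Run7.h696.CF
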