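import Pool.Agent.Run7.h696.CF.Mono

/-!
# The local monodromy at a singular point in any direction
-/

set_option autoImplicit false

open Filter Topology Matrix Polynomial
open Pool.Agent.Y119.HY

namespace Pool.Agent.Run7.h696.CF

variable {m : ℕ}

lemma E_zeroN (c : ℂ) : E (0 : Matrix (Fin m) (Fin m) ℂ) c = 1 := by
  rcases m with _ | m
  · exact Subsingleton.elim _ _
  · unfold E
    rw [Finset.sum_range_succ']
    rw [Finset.sum_eq_zero fun i _ => by rw [zero_pow (Nat.succ_ne_zero i), smul_zero]]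
    simp

/-- **The local monodromy at a singular point `b` of smallest absolute value preserves the relations.** `Yx x` is the
continuation of `F (b x) * E N0 (log x + log b)` along `(0, 1)`, and `Yx (1 - y) = G y * E N2 (log y) * M` near `x = 1`. -/
theorem gloc2 {N0 : Matrix (Fin m) (Fin m) ℂ} (h0 : N0 ^ m = 0) {F : ℂ → Matrix (Fin m) (Fin m) ℂ}
    (hF : ∀ i j, AnalyticOnNhd ℂ (fun z => F z i j) (Metric.ball 0 1)) {b : ℂ} (hb : 1 ≤ ‖b‖) {ρ : ℝ} (hρ : 0 < ρ)
    (hρ1 : ρ ≤ 1) {Yx : ℂ → Matrix (Fin m) (Fin m) ℂ}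
    (hYx : ∀ x : ℝ, 0 < x → x < 1 → ∀ i j, AnalyticAt ℂ (fun z => Yx z i j) x)
    (hYF : ∀ x : ℝ, 0 < x → x < 1 / ‖b‖ → Yx x = F (b * x) * E N0 (Complex.log x + Complex.log b))
    {G : ℂ → Matrix (Fin m) (Fin m) ℂ} (hG : ∀ i j, AnalyticOnNhd ℂ (fun z => G z i j) (Metric.ball 0 ρ))
    {N2 : Matrix (Fin m) (Fin m) ℂ} (h2 : N2 ^ m = 0) {M Mi : Matrix (Fin m) (Fin m) ℂ} (hMi : M * Mi = 1)
    (hloc : ∀ y : ℝ, 0 < y → y < ρ → Yx ((1 - y : ℝ) : ℂ) = G y * E N2 (Complex.log y) * M) (c : ℂ) :
    Mi * E N2 c * M ∈ Gal (fun z => F z * E N0 (Complex.log z)) := by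
  intro P hP x hx hx1
  have hb0 : 0 < ‖b‖ := by linarith
  have hbn : b ≠ 0 := norm_pos_iff.1 hb0
  have hlogx : ∀ x : ℝ, 0 < x → AnalyticAt ℂ Complex.log (x : ℂ) := fun x hx =>
    analyticAt_clog (by left; rw [Complex.ofReal_re]; exact hx)
  -- all logarithms
  have hall : ∀ w ∈ Metric.ball (0 : ℂ) 1, evp P (C w) X ((F w).map C * Ep N0) = 0 := by
    refine PA.log_zero (f := fun w => evp P (C w) X ((F w).map C * Ep N0)) ?_ fun y hy hy1 => ?_
    · refine PA.aeval (fun o => ?_) P
      rcases o with _ | _ | x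
      · exact PA.ofFun analyticOnNhd_id
      · exact PA.const _
      · simp only [pt, Option.elim_some, Matrix.mul_apply, Matrix.map_apply]
        exact PA.sum _ fun l _ => (PA.ofFun (hF _ _)).mul (PA.const _)
    · rw [eval_evp, map_mul_eval, map_C_eval, Ep_eval, Complex.ofReal_log hy.le, eval_C, eval_X]
      exact hP y hy hy1
  have hall' : ∀ w ∈ Metric.ball (0 : ℂ) 1, ∀ l : ℂ, ev P w l (F w * E N0 l) = 0 := fun w hw l => by
    have h1 := congrArg (Polynomial.eval l) (hall w hw)
    rwa [eval_evp, map_mul_eval, map_C_eval, Ep_eval, eval_zero, eval_C, eval_X] at h1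
  have hinv : 1 / ‖b‖ ≤ 1 := by rw [div_le_one hb0]; exact hb
  have hinv0 : 0 < 1 / ‖b‖ := by positivity
  have hbx : ∀ w : ℂ, ‖w‖ < 1 / ‖b‖ → b * w ∈ Metric.ball (0 : ℂ) 1 := by
    intro w hw
    rw [Metric.mem_ball, dist_zero_right, norm_mul]
    rw [lt_div_iff₀ hb0] at hw
    rw [mul_comm]
    exact hw
  -- on the whole interval
  have hall2 : ∀ x : ℝ, 0 < x → x < 1 → ev P (b * x) (Complex.log x + Complex.log b) (Yx x) = 0 := fun x hx hxb =>
    extend_zero (f := fun z => ev P (b * z) (Complex.log z + Complex.log b) (Yx z)) (u := 0) (v := 1 / ‖b‖)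
      (fun x hx hxb => ev_analyticAt P (analyticAt_const.mul analyticAt_id) ((hlogx x hx).add analyticAt_const)
        (hYx x hx hxb)) le_rfl hinv0 hinv
      (fun x hx hx1 => by
        rw [hYF x hx hx1]
        exact hall' _ (hbx x (by rwa [Complex.norm_real, Real.norm_of_nonneg hx.le])) _) hx hxb
  -- the local form
  have hlog : AnalyticOnNhd ℂ (fun w : ℂ => Complex.log (1 - w) + Complex.log b) (Metric.ball 0 ρ) := fun w hw =>
    (AnalyticAt.clog (analyticAt_const.sub analyticAt_id) (by
      rw [Metric.mem_ball, dist_zero_right] at hw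
      left
      have h1 : w.re ≤ ‖w‖ := Complex.re_le_norm _
      show 0 < (1 - w).re
      rw [Complex.sub_re, Complex.one_re]
      linarith)).add analyticAt_const
  have h1 : ∀ w ∈ Metric.ball (0 : ℂ) ρ, evp P (C (b * (1 - w))) (C (Complex.log (1 - w) + Complex.log b))
      ((G w).map C * Ep N2 * M.map C) = 0 := by
    refine log_zero_r hρ (f := fun w => evp P (C (b * (1 - w))) (C (Complex.log (1 - w) + Complex.log b))
      ((G w).map C * Ep N2 * M.map C)) ?_ fun y hy hy1 => ?_
    · refine PA.aeval (fun o => ?_) P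
      rcases o with _ | _ | x
      · exact PA.ofFun (analyticOnNhd_const.mul (analyticOnNhd_const.sub analyticOnNhd_id))
      · exact PA.ofFun hlog
      · simp only [pt, Option.elim_some, Matrix.mul_apply, Matrix.map_apply]
        exact PA.sum _ fun l _ => (PA.sum _ fun k _ => (PA.ofFun (hG _ _)).mul (PA.const _)).mul (PA.const _)
    · rw [eval_evp, map_mul_eval, map_mul_eval, map_C_eval, map_C_eval, Ep_eval, Complex.ofReal_log hy.le, eval_C, eval_C]
      have h3 := hall2 (1 - y) (by linarith) (by linarith)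
      rw [hloc y hy hy1] at h3
      push_cast at h3
      exact h3
  -- near the end
  have hend : ∀ y : ℝ, 1 - ρ < y → y < 1 → ev P (b * y) (Complex.log y + Complex.log b) (Yx y * (Mi * E N2 c * M)) = 0 := by
    intro x hx hx1
    obtain ⟨y, hy⟩ : ∃ y : ℝ, y = 1 - x := ⟨_, rfl⟩
    have hxy : x = 1 - y := by rw [hy]; ring
    have hy0 : 0 < y := by linarith
    have hyρ : y < ρ := by linarith
    have h4 := congrArg (Polynomial.eval (Complex.log (y : ℂ) + c)) (h1 y (by
      rw [Metric.mem_ball, dist_zero_right, Complex.norm_real, Real.norm_of_nonneg hy0.le]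
      exact hyρ))
    rw [eval_evp, map_mul_eval, map_mul_eval, map_C_eval, map_C_eval, Ep_eval, eval_zero, E_add h2, eval_C, eval_C] at h4
    have e2 : Yx (x : ℂ) * (Mi * E N2 c * M) = G y * (E N2 (Complex.log y) * E N2 c) * M := by
      rw [hxy, hloc y hy0 hyρ]
      calc G y * E N2 (Complex.log y) * M * (Mi * E N2 c * M) =
            G y * E N2 (Complex.log y) * (M * Mi) * E N2 c * M := by simp only [Matrix.mul_assoc]
        _ = _ := by rw [hMi, mul_one]; simp only [Matrix.mul_assoc]
    rw [e2, hxy]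
    push_cast
    exact h4
  have hall3 : ∀ x : ℝ, 0 < x → x < 1 → ev P (b * x) (Complex.log x + Complex.log b) (Yx x * (Mi * E N2 c * M)) = 0 :=
    fun x hx hxb => extend_zero
      (f := fun z => ev P (b * z) (Complex.log z + Complex.log b) (Yx z * (Mi * E N2 c * M))) (u := 1 - ρ) (v := 1)
      (fun x hx hxb => ev_analyticAt P (analyticAt_const.mul analyticAt_id) ((hlogx x hx).add analyticAt_const) fun i j => by
        simp only [Matrix.mul_apply]
        exact Finset.analyticAt_fun_sum _ fun l _ => (hYx x hx hxb i l).mul analyticAt_const) (by linarith)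
      (by linarith) le_rfl hend hx hxb
  -- back to the disk
  have h5 : ∀ w ∈ Metric.ball (0 : ℂ) (1 / ‖b‖), evp P (C (b * w)) (X + C (Complex.log b))
      ((F (b * w)).map C * Ep N0 * (E N0 (Complex.log b) * (Mi * E N2 c * M)).map C) = 0 := by
    have hFb : ∀ i j, AnalyticOnNhd ℂ (fun w => F (b * w) i j) (Metric.ball 0 (1 / ‖b‖)) := fun i j w hw => by
      have h6 := hF i j (b * w) (hbx w (by rwa [Metric.mem_ball, dist_zero_right] at hw))
      exact h6.fun_comp (analyticAt_const.mul analyticAt_id)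
    refine log_zero_r hinv0 (f := fun w => evp P (C (b * w)) (X + C (Complex.log b))
      ((F (b * w)).map C * Ep N0 * (E N0 (Complex.log b) * (Mi * E N2 c * M)).map C)) ?_ fun y hy hy1 => ?_
    · refine PA.aeval (fun o => ?_) P
      rcases o with _ | _ | x
      · exact PA.ofFun (analyticOnNhd_const.mul analyticOnNhd_id)
      · exact PA.const _
      · simp only [pt, Option.elim_some]
        simp only [Matrix.mul_apply (M := _ * Ep N0), Matrix.mul_apply (N := Ep N0), Matrix.map_apply]
        exact PA.sum _ fun l _ => (PA.sum _ fun k _ => (PA.ofFun (hFb _ _)).mul (PA.const _)).mul (PA.const _)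
    · rw [eval_evp, map_mul_eval, map_mul_eval, map_C_eval, map_C_eval, Ep_eval, Complex.ofReal_log hy.le, eval_C, eval_add,
        eval_X, eval_C]
      have h6 := hall3 y hy (by linarith)
      rw [hYF y hy hy1, E_add h0] at h6
      simp only [Matrix.mul_assoc] at h6 ⊢
      exact h6
  have h6 := congrArg (Polynomial.eval (Complex.log x - Complex.log b)) (h5 (x / b) (by
    rw [Metric.mem_ball, dist_zero_right, norm_div, Complex.norm_real, Real.norm_of_nonneg hx.le]
    exact div_lt_div_of_pos_right hx1 hb0))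
  rw [eval_evp, map_mul_eval, map_mul_eval, map_C_eval, map_C_eval, Ep_eval, eval_C, eval_add, eval_X, eval_C, eval_zero,
    mul_div_cancel₀ _ hbn, sub_add_cancel] at h6
  have h7 : E N0 (Complex.log x - Complex.log b) * E N0 (Complex.log b) = E N0 (Complex.log x) := by
    rw [← E_add h0, sub_add_cancel]
  have h8 : F (x : ℂ) * E N0 (Complex.log x) * (Mi * E N2 c * M) =
      F (x : ℂ) * E N0 (Complex.log x - Complex.log b) * (E N0 (Complex.log b) * (Mi * E N2 c * M)) := by
    rw [← h7]
    simp only [Matrix.mul_assoc]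
  show ev P (x : ℂ) (Complex.log x) (F (x : ℂ) * E N0 (Complex.log x) * (Mi * E N2 c * M)) = 0
  rw [h8]
  exact h6

end Pool.Agent.Run7.h696.CF
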