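import Pool.Agent.Run7.h696.CF.Mono2
import Pool.Agent.Run7.h696.CF.Iface3

/-!
# Relations on a small interval: the monodromy at `0` and at the nearest singular point in a direction
-/

set_option autoImplicit false

open Filter Topology Matrix Polynomial
open Pool.Agent.Y119.HY

namespace Pool.Agent.Run7.h696.CF

variable {m : ℕ} {L : ℝ}

/-- `GalL` as a monoid -/
def GalM (L : ℝ) (Y : ℂ → Matrix (Fin m) (Fin m) ℂ) : Submonoid (Matrix (Fin m) (Fin m) ℂ) where
  carrier := GalL L Y
  mul_mem' := by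
    intro g h hg hh P hP x hx hx1
    have h1 : sb 0 h P ∈ RelL L Y := fun y hy hy1 => by rw [ev_sb, add_zero]; exact hh P hP y hy hy1
    have h2 := hg _ h1 x hx hx1
    rw [ev_sb, Matrix.mul_assoc, add_zero] at h2
    exact h2
  one_mem' := by
    intro P hP x hx hx1
    rw [mul_one]
    exact hP x hx hx1

lemma mem_GalM {Y : ℂ → Matrix (Fin m) (Fin m) ℂ} {g : Matrix (Fin m) (Fin m) ℂ} : g ∈ GalM L Y ↔ g ∈ GalL L Y := Iff.rfl

lemma GalM_closed (Y : ℂ → Matrix (Fin m) (Fin m) ℂ) (M : Matrix (Fin m) (Fin m) (Polynomial ℂ))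
    (hM : ∀ c : ℂ, c ≠ 0 → M.map (Polynomial.eval c) ∈ GalM L Y) : M.map (Polynomial.eval 0) ∈ GalM L Y := by
  intro P hP x hx hx1
  set q : ℂ[X] := evp P (C (x : ℂ)) (C (Complex.log x)) ((Y (x : ℂ)).map C * M) with hq
  have hqe : ∀ c, q.eval c = ev P (x : ℂ) (Complex.log x) (Y (x : ℂ) * M.map (Polynomial.eval c)) := by
    intro c
    rw [hq, eval_evp, eval_C, eval_C]
    congr 1
    ext i j
    simp only [Matrix.map_apply, Matrix.mul_apply, Polynomial.eval_finsetSum, Polynomial.eval_mul, Polynomial.eval_C]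
  have h0 : q = 0 := by
    refine Polynomial.eq_zero_of_infinite_isRoot q (Set.Infinite.mono (s := ({0} : Set ℂ)ᶜ) ?_
      (Set.finite_singleton (0 : ℂ)).infinite_compl)
    intro c hc
    show q.eval c = 0
    rw [hqe]
    exact hM c hc P hP x hx hx1
  rw [← hqe, h0, Polynomial.eval_zero]

/-- all logarithms -/
theorem gall {N0 : Matrix (Fin m) (Fin m) ℂ} (hL : 0 < L) {F : ℂ → Matrix (Fin m) (Fin m) ℂ}
    (hF : ∀ i j, AnalyticOnNhd ℂ (fun z => F z i j) (Metric.ball 0 (1 / L))) {P : MvPolynomial (Vr m) ℂ}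
    (hP : P ∈ RelL L (fun z => F z * E N0 (Complex.log z))) {w : ℂ} (hw : ‖w‖ < 1 / L) (l : ℂ) :
    ev P w l (F w * E N0 l) = 0 := by
  have hβ : 0 < 1 / L := by positivity
  have hall : ∀ w ∈ Metric.ball (0 : ℂ) (1 / L), evp P (C w) X ((F w).map C * Ep N0) = 0 := by
    refine log_zero_r hβ (f := fun w => evp P (C w) X ((F w).map C * Ep N0)) ?_ fun y hy hy1 => ?_
    · refine PA.aeval (fun o => ?_) P
      rcases o with _ | _ | x
      · exact PA.ofFun analyticOnNhd_id
      · exact PA.const _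
      · simp only [pt, Option.elim_some, Matrix.mul_apply, Matrix.map_apply]
        exact PA.sum _ fun l _ => (PA.ofFun (hF _ _)).mul (PA.const _)
    · rw [eval_evp, map_mul_eval, map_C_eval, Ep_eval, Complex.ofReal_log hy.le, eval_C, eval_X]
      exact hP y hy hy1
  have h1 := congrArg (Polynomial.eval l) (hall w (by rwa [Metric.mem_ball, dist_zero_right]))
  rwa [eval_evp, map_mul_eval, map_C_eval, Ep_eval, eval_zero, eval_C, eval_X] at h1

/-- the monodromy at `0` -/
theorem gmonoB {N0 : Matrix (Fin m) (Fin m) ℂ} (hL : 0 < L) (h0 : N0 ^ m = 0) {F : ℂ → Matrix (Fin m) (Fin m) ℂ}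
    (hF : ∀ i j, AnalyticOnNhd ℂ (fun z => F z i j) (Metric.ball 0 (1 / L))) (c : ℂ) {P : MvPolynomial (Vr m) ℂ}
    (hP : P ∈ RelL L (fun z => F z * E N0 (Complex.log z))) {x : ℝ} (hx : 0 < x) (hx1 : x < 1 / L) :
    ev P (x : ℂ) (Complex.log x + c) (F x * E N0 (Complex.log x) * E N0 c) = 0 := by
  rw [Matrix.mul_assoc, ← E_add h0]
  exact gall hL hF hP (by rwa [Complex.norm_real, Real.norm_of_nonneg hx.le]) _

/-- conjugation by the monodromy at `0` -/
theorem gconjB {N0 : Matrix (Fin m) (Fin m) ℂ} (hL : 0 < L) (h0 : N0 ^ m = 0) {F : ℂ → Matrix (Fin m) (Fin m) ℂ}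
    (hF : ∀ i j, AnalyticOnNhd ℂ (fun z => F z i j) (Metric.ball 0 (1 / L))) (c : ℂ) (g : Matrix (Fin m) (Fin m) ℂ)
    (hg : g ∈ GalM L (fun z => F z * E N0 (Complex.log z))) :
    E N0 c * g * E N0 (-c) ∈ GalM L (fun z => F z * E N0 (Complex.log z)) := by
  intro P hP x hx hx1
  have h1 : sb (-c) (E N0 (-c)) P ∈ RelL L (fun z => F z * E N0 (Complex.log z)) := fun y hy hy1 => by
    rw [ev_sb]
    exact gmonoB hL h0 hF (-c) hP hy hy1
  have h2 : sb (-c) (g * E N0 (-c)) P ∈ RelL L (fun z => F z * E N0 (Complex.log z)) := fun y hy hy1 => by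
    have h3 := hg _ h1 y hy hy1
    rw [ev_sb, Matrix.mul_assoc] at h3
    rw [ev_sb]
    exact h3
  have h3 := gmonoB hL h0 hF c h2 hx hx1
  rw [ev_sb, add_neg_cancel_right] at h3
  simp only [Matrix.mul_assoc] at h3 ⊢
  exact h3

/-- **The local monodromy at a singular point `b` preserves the relations.** `Yx x` is the continuation of
`F (b x) * E N0 (log x + log b)` along `(0, 1)`, and `Yx (1 - y) = G y * E N2 (log y) * M` near `x = 1`. -/
theorem glocB {N0 : Matrix (Fin m) (Fin m) ℂ} (hL : 0 < L) (h0 : N0 ^ m = 0) {F : ℂ → Matrix (Fin m) (Fin m) ℂ}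
    (hF : ∀ i j, AnalyticOnNhd ℂ (fun z => F z i j) (Metric.ball 0 (1 / L))) {b : ℂ} (hb : 1 ≤ L * ‖b‖) {ρ : ℝ}
    (hρ : 0 < ρ) (hρ1 : ρ ≤ 1) {Yx : ℂ → Matrix (Fin m) (Fin m) ℂ}
    (hYx : ∀ x : ℝ, 0 < x → x < 1 → ∀ i j, AnalyticAt ℂ (fun z => Yx z i j) x)
    (hYF : ∀ x : ℝ, 0 < x → x < 1 / (L * ‖b‖) → Yx x = F (b * x) * E N0 (Complex.log x + Complex.log b))
    {G : ℂ → Matrix (Fin m) (Fin m) ℂ} (hG : ∀ i j, AnalyticOnNhd ℂ (fun z => G z i j) (Metric.ball 0 ρ))
    {N2 : Matrix (Fin m) (Fin m) ℂ} (h2 : N2 ^ m = 0) {M Mi : Matrix (Fin m) (Fin m) ℂ} (hMi : M * Mi = 1)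
    (hloc : ∀ y : ℝ, 0 < y → y < ρ → Yx ((1 - y : ℝ) : ℂ) = G y * E N2 (Complex.log y) * M) (c : ℂ) :
    Mi * E N2 c * M ∈ GalM L (fun z => F z * E N0 (Complex.log z)) := by
  intro P hP x hx hx1
  have hb0 : 0 < ‖b‖ := by
    by_contra h
    have : ‖b‖ = 0 := le_antisymm (not_lt.1 h) (norm_nonneg _)
    rw [this, mul_zero] at hb
    linarith
  have hbn : b ≠ 0 := norm_pos_iff.1 hb0
  have hLb : 0 < L * ‖b‖ := by positivity
  have hlogx : ∀ x : ℝ, 0 < x → AnalyticAt ℂ Complex.log (x : ℂ) := fun x hx =>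
    analyticAt_clog (by left; rw [Complex.ofReal_re]; exact hx)
  have hall' : ∀ w : ℂ, ‖w‖ < 1 / L → ∀ l : ℂ, ev P w l (F w * E N0 l) = 0 := fun w hw l => gall hL hF hP hw l
  have hinv : 1 / (L * ‖b‖) ≤ 1 := by rw [div_le_one hLb]; exact hb
  have hinv0 : 0 < 1 / (L * ‖b‖) := by positivity
  have hbx : ∀ w : ℂ, ‖w‖ < 1 / (L * ‖b‖) → ‖b * w‖ < 1 / L := by
    intro w hw
    rw [norm_mul]
    rw [lt_div_iff₀ hLb] at hw
    rw [lt_div_iff₀ hL]
    calc ‖b‖ * ‖w‖ * L = ‖w‖ * (L * ‖b‖) := by ring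
      _ < 1 := hw
  -- on the whole interval
  have hall2 : ∀ x : ℝ, 0 < x → x < 1 → ev P (b * x) (Complex.log x + Complex.log b) (Yx x) = 0 := fun x hx hxb =>
    extend_zero (f := fun z => ev P (b * z) (Complex.log z + Complex.log b) (Yx z)) (u := 0) (v := 1 / (L * ‖b‖))
      (fun x hx hxb => ev_analyticAt P (analyticAt_const.mul analyticAt_id) ((hlogx x hx).add analyticAt_const)
        (hYx x hx hxb)) le_rfl hinv0 hinv
      (fun x hx hx1 => by
        rw [hYF x hx hx1]
        exact hall' _ (hbx x (by rwa [Complex.norm_real, Real.norm_of_nonneg hx.le])) _) hx hxb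
  -- the local form
  have hlog : AnalyticOnNhd ℂ (fun w : ℂ => Complex.log (1 - w) + Complex.log b) (Metric.ball 0 ρ) := fun w hw =>
    (AnalyticAt.clog (analyticAt_const.sub analyticAt_id) (by
      rw [Metric.mem_ball, dist_zero_right] at hw
      left
      have h1 : w.re ≤ ‖w‖ := Complex.re_le_norm _
      show 0 < (1 - w).re
      rw [Complex.sub_re, Complex.one_re]
      linarith)).add analyticAt_const
  have h1 : ∀ w ∈ Metric.ball (0 : ℂ) ρ, evp P (C (b * (1 - w))) (C (Complex.log (1 - w) + Complex.log b))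
      ((G w).map C * Ep N2 * M.map C) = 0 := by
    refine log_zero_r hρ (f := fun w => evp P (C (b * (1 - w))) (C (Complex.log (1 - w) + Complex.log b))
      ((G w).map C * Ep N2 * M.map C)) ?_ fun y hy hy1 => ?_
    · refine PA.aeval (fun o => ?_) P
      rcases o with _ | _ | x
      · exact PA.ofFun (analyticOnNhd_const.mul (analyticOnNhd_const.sub analyticOnNhd_id))
      · exact PA.ofFun hlog
      · simp only [pt, Option.elim_some, Matrix.mul_apply, Matrix.map_apply]
        exact PA.sum _ fun l _ => (PA.sum _ fun k _ => (PA.ofFun (hG _ _)).mul (PA.const _)).mul (PA.const _)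
    · rw [eval_evp, map_mul_eval, map_mul_eval, map_C_eval, map_C_eval, Ep_eval, Complex.ofReal_log hy.le, eval_C, eval_C]
      have h3 := hall2 (1 - y) (by linarith) (by linarith)
      rw [hloc y hy hy1] at h3
      push_cast at h3
      exact h3
  -- near the end
  have hend : ∀ y : ℝ, 1 - ρ < y → y < 1 → ev P (b * y) (Complex.log y + Complex.log b) (Yx y * (Mi * E N2 c * M)) = 0 := by
    intro x hx hx1
    obtain ⟨y, hy⟩ : ∃ y : ℝ, y = 1 - x := ⟨_, rfl⟩
    have hxy : x = 1 - y := by rw [hy]; ring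
    have hy0 : 0 < y := by linarith
    have hyρ : y < ρ := by linarith
    have h4 := congrArg (Polynomial.eval (Complex.log (y : ℂ) + c)) (h1 y (by
      rw [Metric.mem_ball, dist_zero_right, Complex.norm_real, Real.norm_of_nonneg hy0.le]
      exact hyρ))
    rw [eval_evp, map_mul_eval, map_mul_eval, map_C_eval, map_C_eval, Ep_eval, eval_zero, E_add h2, eval_C, eval_C] at h4
    have e2 : Yx (x : ℂ) * (Mi * E N2 c * M) = G y * (E N2 (Complex.log y) * E N2 c) * M := by
      rw [hxy, hloc y hy0 hyρ]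
      calc G y * E N2 (Complex.log y) * M * (Mi * E N2 c * M) =
            G y * E N2 (Complex.log y) * (M * Mi) * E N2 c * M := by simp only [Matrix.mul_assoc]
        _ = _ := by rw [hMi, mul_one]; simp only [Matrix.mul_assoc]
    rw [e2, hxy]
    push_cast
    exact h4
  have hall3 : ∀ x : ℝ, 0 < x → x < 1 → ev P (b * x) (Complex.log x + Complex.log b) (Yx x * (Mi * E N2 c * M)) = 0 :=
    fun x hx hxb => extend_zero
      (f := fun z => ev P (b * z) (Complex.log z + Complex.log b) (Yx z * (Mi * E N2 c * M))) (u := 1 - ρ) (v := 1)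
      (fun x hx hxb => ev_analyticAt P (analyticAt_const.mul analyticAt_id) ((hlogx x hx).add analyticAt_const) fun i j => by
        simp only [Matrix.mul_apply]
        exact Finset.analyticAt_fun_sum _ fun l _ => (hYx x hx hxb i l).mul analyticAt_const) (by linarith)
      (by linarith) le_rfl hend hx hxb
  -- back to the disk
  have h5 : ∀ w ∈ Metric.ball (0 : ℂ) (1 / (L * ‖b‖)), evp P (C (b * w)) (X + C (Complex.log b))
      ((F (b * w)).map C * Ep N0 * (E N0 (Complex.log b) * (Mi * E N2 c * M)).map C) = 0 := by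
    have hFb : ∀ i j, AnalyticOnNhd ℂ (fun w => F (b * w) i j) (Metric.ball 0 (1 / (L * ‖b‖))) := fun i j w hw => by
      have h6 := hF i j (b * w) (by
        rw [Metric.mem_ball, dist_zero_right] at hw ⊢
        exact hbx w hw)
      exact h6.fun_comp (analyticAt_const.mul analyticAt_id)
    refine log_zero_r hinv0 (f := fun w => evp P (C (b * w)) (X + C (Complex.log b))
      ((F (b * w)).map C * Ep N0 * (E N0 (Complex.log b) * (Mi * E N2 c * M)).map C)) ?_ fun y hy hy1 => ?_
    · refine PA.aeval (fun o => ?_) P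
      rcases o with _ | _ | x
      · exact PA.ofFun (analyticOnNhd_const.mul analyticOnNhd_id)
      · exact PA.const _
      · simp only [pt, Option.elim_some]
        simp only [Matrix.mul_apply (M := _ * Ep N0), Matrix.mul_apply (N := Ep N0), Matrix.map_apply]
        exact PA.sum _ fun l _ => (PA.sum _ fun k _ => (PA.ofFun (hFb _ _)).mul (PA.const _)).mul (PA.const _)
    · rw [eval_evp, map_mul_eval, map_mul_eval, map_C_eval, map_C_eval, Ep_eval, Complex.ofReal_log hy.le, eval_C, eval_add,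
        eval_X, eval_C]
      have h6 := hall3 y hy (by linarith)
      rw [hYF y hy hy1, E_add h0] at h6
      simp only [Matrix.mul_assoc] at h6 ⊢
      exact h6
  have h6 := congrArg (Polynomial.eval (Complex.log x - Complex.log b)) (h5 (x / b) (by
    rw [Metric.mem_ball, dist_zero_right, norm_div, Complex.norm_real, Real.norm_of_nonneg hx.le, ← div_div]
    exact div_lt_div_of_pos_right hx1 hb0))
  rw [eval_evp, map_mul_eval, map_mul_eval, map_C_eval, map_C_eval, Ep_eval, eval_C, eval_add, eval_X, eval_C, eval_zero,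
    mul_div_cancel₀ _ hbn, sub_add_cancel] at h6
  have h7 : E N0 (Complex.log x - Complex.log b) * E N0 (Complex.log b) = E N0 (Complex.log x) := by
    rw [← E_add h0, sub_add_cancel]
  have h8 : F (x : ℂ) * E N0 (Complex.log x) * (Mi * E N2 c * M) =
      F (x : ℂ) * E N0 (Complex.log x - Complex.log b) * (E N0 (Complex.log b) * (Mi * E N2 c * M)) := by
    rw [← h7]
    simp only [Matrix.mul_assoc]
  show ev P (x : ℂ) (Complex.log x) (F (x : ℂ) * E N0 (Complex.log x) * (Mi * E N2 c * M)) = 0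
  rw [h8]
  exact h6

end Pool.Agent.Run7.h696.CF
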